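import Mathlib

set_option autoImplicit false

namespace Pool.Agent.Helper196Ehr

open Finset

/-- `chain T m j = T (j+m-1) * ⋯ * T (j+1) * T j`. -/
def chain {𝒜 : Type*} [Monoid 𝒜] (T : ℕ → 𝒜) : ℕ → ℕ → 𝒜
  | 0, _ => 1
  | (m+1), j => chain T m (j+1) * T j

section chain
variable {𝒜 : Type*} [Monoid 𝒜]

theorem chain_zero (T : ℕ → 𝒜) (j : ℕ) : chain T 0 j = 1 := rfl

theorem chain_succ (T : ℕ → 𝒜) (m j : ℕ) : chain T (m+1) j = chain T m (j+1) * T j := rfl

theorem chain_succ' (T : ℕ → 𝒜) (m j : ℕ) : chain T (m+1) j = T (j+m) * chain T m j := by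
  induction m generalizing j with
  | zero => simp [chain]
  | succ m ih =>
    rw [chain_succ, ih (j+1), chain_succ T m j, mul_assoc]
    congr 2; omega

theorem chain_commute (T : ℕ → 𝒜) (a : 𝒜) (m j : ℕ)
    (h : ∀ k, j ≤ k → k < j + m → Commute a (T k)) : Commute a (chain T m j) := by
  induction m with
  | zero => simp [chain]
  | succ m ih =>
    rw [chain_succ']
    exact (h _ (by omega) (by omega)).mul_right (ih (fun k h1 h2 => h k h1 (by omega)))

/-- shifting through an element `P` -/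
theorem chain_shift (T : ℕ → 𝒜) (P : 𝒜) (m j : ℕ)
    (h : ∀ k, j ≤ k → k < j + m → P * T k = T (k+1) * P) :
    P * chain T m j = chain T m (j+1) * P := by
  induction m with
  | zero => simp [chain]
  | succ m ih =>
    rw [chain_succ', chain_succ', ← mul_assoc, h _ (by omega) (by omega), mul_assoc,
      ih (fun k h1 h2 => h k h1 (by omega)), ← mul_assoc]
    congr 2; congr 1; omega

/-- braid-type shift of an index through a chain -/
theorem chain_braid (T S : ℕ → 𝒜) (N : ℕ)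
    (far : ∀ i j, i + 2 ≤ j → j < N → Commute (T i) (S j))
    (far' : ∀ i j, i + 2 ≤ j → j < N → Commute (T j) (S i))
    (br : ∀ i, i + 1 < N → T i * (S (i+1) * S i) = (S (i+1) * S i) * T (i+1))
    (m j i : ℕ) (hj : j ≤ i) (hi : i + 1 < j + m) (hN : j + m ≤ N) :
    T i * chain S m j = chain S m j * T (i+1) := by
  induction m with
  | zero => omega
  | succ m ih =>
    rw [chain_succ']
    by_cases h : i + 1 < j + m
    · rw [← mul_assoc, (far i (j+m) (by omega) (by omega)).eq, mul_assoc, ih h (by omega),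
        mul_assoc]
    · obtain ⟨m', rfl⟩ : ∃ m', m = m' + 1 := ⟨m - 1, by omega⟩
      have e : j + (m'+1) = i + 1 := by omega
      have e2 : j + m' = i := by omega
      rw [chain_succ', e, e2]
      have hc : Commute (T (i+1)) (chain S m' j) :=
        chain_commute S _ m' j (fun k h1 h2 => far' k (i+1) (by omega) (by omega))
      calc T i * (S (i+1) * (S i * chain S m' j))
          = (T i * (S (i+1) * S i)) * chain S m' j := by simp only [mul_assoc]
        _ = (S (i+1) * S i) * (T (i+1) * chain S m' j) := by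
            rw [br i (by omega)]; simp only [mul_assoc]
        _ = _ := by rw [hc.eq]; simp only [mul_assoc]

end chain

/-- The relations of the double affine Hecke algebra of `GL_{N+1}` that are used below;
variables are numbered `0, …, N`. -/
structure Daha (𝒜 : Type*) [Ring 𝒜] (N : ℕ) (q t : 𝒜) where
  T : ℕ → 𝒜
  P : 𝒜
  Pi : 𝒜
  X : ℕ → 𝒜
  cq : ∀ x, q * x = x * q
  ct : ∀ x, t * x = x * t
  quad : ∀ i, i < N → T i * T i = (1 - q) * T i + q
  braid : ∀ i, i + 1 < N → T i * T (i+1) * T i = T (i+1) * T i * T (i+1)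
  far : ∀ i j, i + 2 ≤ j → j < N → T i * T j = T j * T i
  PT : ∀ i, i + 1 < N → P * T i = T (i+1) * P
  TPP : 0 < N → T 0 * P * P = P * P * T (N-1)
  TX : ∀ i, i < N → (T i - (1 - q)) * X i = X (i+1) * T i
  TX' : ∀ i, i < N → T i * X (i+1) = X i * (T i - (1 - q))
  TXfar : ∀ i j, i < N → j ≤ N → j ≠ i → j ≠ i + 1 → T i * X j = X j * T i
  XX : ∀ i j, i ≤ N → j ≤ N → X i * X j = X j * X i
  PX : ∀ i, i < N → P * X i = X (i+1) * P
  PXN : P * X N = t * X 0 * P
  PPi : P * Pi = 1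

namespace Daha

variable {𝒜 : Type*} [Ring 𝒜] {N : ℕ} {q t : 𝒜} (H : Daha 𝒜 N q t)

/-- `q T_i⁻¹` -/
def Tt (i : ℕ) : 𝒜 := H.T i - (1 - q)

/-- `Z = x_0 π` -/
def Z : 𝒜 := H.X 0 * H.P

/-- the commuting elements of slope one -/
def Y (j : ℕ) : 𝒜 := chain H.Tt j 0 * H.Z * chain H.T (N - j) j

/-- the sum of all `Y_j` -/
def S : 𝒜 := ∑ j ∈ range (N+1), H.Y j

/-- the weighted sums -/
def D (k : ℕ) : 𝒜 := ∑ j ∈ range (N+1), (if j < k then t else 1) * H.Y j

theorem D_zero : H.D 0 = H.S := by simp [D, S]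

include H in
theorem cq1 (x : 𝒜) : (1 - q) * x = x * (1 - q) := by
  rw [sub_mul, mul_sub, one_mul, mul_one, H.cq]

theorem T_Tt (i : ℕ) (hi : i < N) : H.T i * H.Tt i = q := by
  rw [Tt, mul_sub, H.quad i hi, H.cq1]; abel

theorem Tt_T (i : ℕ) (hi : i < N) : H.Tt i * H.T i = q := by
  rw [Tt, sub_mul, H.quad i hi]; abel

theorem T_sub_Tt (i : ℕ) : H.T i - H.Tt i = 1 - q := by rw [Tt]; abel

theorem far_Tt (i j : ℕ) (hij : i + 2 ≤ j) (hj : j < N) : Commute (H.T i) (H.Tt j) := by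
  have h1 : Commute (H.T i) (H.T j) := H.far i j hij hj
  have h2 : Commute (H.T i) (1 - q) := (H.cq1 _).symm
  exact h1.sub_right h2

theorem far_Tt' (i j : ℕ) (hij : i + 2 ≤ j) (hj : j < N) : Commute (H.T j) (H.Tt i) := by
  have h1 : Commute (H.T j) (H.T i) := (H.far i j hij hj).symm
  have h2 : Commute (H.T j) (1 - q) := (H.cq1 _).symm
  exact h1.sub_right h2

theorem comm_T_Tt (i : ℕ) : Commute (H.T i) (H.Tt i) := by
  have h1 : Commute (H.T i) (H.T i) := Commute.refl _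
  have h2 : Commute (H.T i) (1 - q) := (H.cq1 _).symm
  exact h1.sub_right h2

theorem br_TT (i : ℕ) (hi : i + 1 < N) :
    H.T i * (H.T (i+1) * H.T i) = (H.T (i+1) * H.T i) * H.T (i+1) := by
  rw [← mul_assoc, H.braid i hi]

theorem br_Tt (i : ℕ) (hi : i + 1 < N) :
    H.T i * (H.Tt (i+1) * H.Tt i) = (H.Tt (i+1) * H.Tt i) * H.T (i+1) := by
  have hb := H.braid i hi
  have h1 := H.quad i (by omega)
  have h2 := H.quad (i+1) hi
  have c := H.cq1
  set a := H.T i
  set b := H.T (i+1)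
  set e := (1 - q : 𝒜)
  have ea : a * e = e * a := (c a).symm
  have eb : b * e = e * b := (c b).symm
  have L : a * ((b - e) * (a - e)) = a * b * a - e * (a * b) - e * (a * a) + e * (e * a) := by
    have : a * ((b - e) * (a - e)) = a * b * a - (a * b) * e - (a * e) * a + (a * e) * e := by
      noncomm_ring
    rw [this, ← c (a * b), ea, mul_assoc e a a, mul_assoc e a e, ea]
  have R : ((b - e) * (a - e)) * b = b * a * b - e * (b * b) - e * (a * b) + e * (e * b) := by
    have : ((b - e) * (a - e)) * b = b * a * b - (b * e) * b - e * (a * b) + e * (e * b) := by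
      noncomm_ring
    rw [this, eb, mul_assoc e b b]
  change a * ((b - e) * (a - e)) = ((b - e) * (a - e)) * b
  rw [L, R, hb, h1, h2]
  noncomm_ring

theorem TZ (i : ℕ) (hi : i + 1 < N) : H.T (i+1) * H.Z = H.Z * H.T i := by
  rw [Z, ← mul_assoc, H.TXfar (i+1) 0 hi (by omega) (by omega) (by omega), mul_assoc,
    ← H.PT i hi, mul_assoc]

theorem TtZ (i : ℕ) (hi : i + 1 < N) : H.Tt (i+1) * H.Z = H.Z * H.Tt i := by
  rw [Tt, Tt, sub_mul, mul_sub, H.TZ i hi, H.cq1]

theorem PTt (i : ℕ) (hi : i + 1 < N) : H.P * H.Tt i = H.Tt (i+1) * H.P := by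
  rw [Tt, Tt, sub_mul, mul_sub, H.PT i hi, H.cq1]

theorem TtPP (hN : 0 < N) : H.Tt 0 * H.P * H.P = H.P * H.P * H.Tt (N-1) := by
  rw [Tt, Tt, sub_mul, sub_mul, mul_sub, H.TPP hN, mul_assoc (1 - q), H.cq1]

theorem TXX (hN : 0 < N) : H.T 0 * (H.X 0 * H.X 1) = (H.X 0 * H.X 1) * H.T 0 := by
  have h1 := H.TX 0 hN
  have h2 := H.TX' 0 hN
  simp only [zero_add] at h1 h2
  rw [H.XX 0 1 (by omega) (by omega), ← mul_assoc, h2, mul_assoc, h1, ← mul_assoc,
    H.XX 0 1 (by omega) (by omega)]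

theorem TZZ (hN : 0 < N) : H.T 0 * H.Z * H.Z = H.Z * H.Z * H.T (N-1) := by
  have hZZ : H.Z * H.Z = H.X 0 * H.X 1 * (H.P * H.P) := by
    have h := H.PX 0 hN
    simp only [zero_add] at h
    rw [Z, mul_assoc, ← mul_assoc H.P, h]; simp only [mul_assoc]
  rw [mul_assoc, hZZ, ← mul_assoc, H.TXX hN, mul_assoc, ← mul_assoc (H.T 0), H.TPP hN,
    ← mul_assoc]

theorem TtZZ (hN : 0 < N) : H.Tt 0 * H.Z * H.Z = H.Z * H.Z * H.Tt (N-1) := by
  rw [Tt, Tt, sub_mul, sub_mul, mul_sub, H.TZZ hN, mul_assoc (1 - q), H.cq1]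

theorem chainT_braid (m j i : ℕ) (hj : j ≤ i) (hi : i + 1 < j + m) (hN : j + m ≤ N) :
    H.T i * chain H.T m j = chain H.T m j * H.T (i+1) :=
  chain_braid H.T H.T N (fun i j h1 h2 => H.far i j h1 h2)
    (fun i j h1 h2 => (H.far i j h1 h2).symm) (fun i hi => H.br_TT i hi) m j i hj hi hN

theorem chainTt_braid (m j i : ℕ) (hj : j ≤ i) (hi : i + 1 < j + m) (hN : j + m ≤ N) :
    H.T i * chain H.Tt m j = chain H.Tt m j * H.T (i+1) :=
  chain_braid H.T H.Tt N (fun i j h1 h2 => H.far_Tt i j h1 h2)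
    (fun i j h1 h2 => H.far_Tt' i j h1 h2) (fun i hi => H.br_Tt i hi) m j i hj hi hN

/-- `T_i` commutes with `Y_j` for `j ≠ i, i+1`. -/
theorem TY_far (i j : ℕ) (hi : i < N) (hj : j ≤ N) (h1 : j ≠ i) (h2 : j ≠ i + 1) :
    H.T i * H.Y j = H.Y j * H.T i := by
  rcases lt_or_gt_of_ne h1 with h | h
  · -- j < i
    obtain ⟨i', rfl⟩ : ∃ i', i = i' + 1 := ⟨i - 1, by omega⟩
    have c1 : Commute (H.T (i'+1)) (chain H.Tt j 0) :=
      chain_commute _ _ _ _ (fun k _ hk => H.far_Tt' k (i'+1) (by omega) hi)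
    have c2 : H.T i' * chain H.T (N - j) j = chain H.T (N - j) j * H.T (i'+1) :=
      H.chainT_braid _ _ _ (by omega) (by omega) (by omega)
    calc H.T (i'+1) * H.Y j = (H.T (i'+1) * chain H.Tt j 0) * H.Z * chain H.T (N - j) j := by
          rw [Y]; simp only [mul_assoc]
      _ = chain H.Tt j 0 * (H.T (i'+1) * H.Z) * chain H.T (N - j) j := by
          rw [c1.eq]; simp only [mul_assoc]
      _ = chain H.Tt j 0 * H.Z * (H.T i' * chain H.T (N - j) j) := by
          rw [H.TZ i' hi]; simp only [mul_assoc]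
      _ = _ := by rw [c2, Y]; simp only [mul_assoc]
  · -- i < j, so i + 2 ≤ j
    have hij : i + 2 ≤ j := by omega
    have c1 : H.T i * chain H.Tt j 0 = chain H.Tt j 0 * H.T (i+1) :=
      H.chainTt_braid _ _ _ (by omega) (by omega) (by omega)
    have c2 : Commute (H.T i) (chain H.T (N - j) j) :=
      chain_commute _ _ _ _ (fun k hk1 hk2 => H.far i k (by omega) (by omega))
    calc H.T i * H.Y j = (H.T i * chain H.Tt j 0) * H.Z * chain H.T (N - j) j := by
          rw [Y]; simp only [mul_assoc]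
      _ = chain H.Tt j 0 * (H.T (i+1) * H.Z) * chain H.T (N - j) j := by
          rw [c1]; simp only [mul_assoc]
      _ = chain H.Tt j 0 * H.Z * (H.T i * chain H.T (N - j) j) := by
          rw [H.TZ i (by omega)]; simp only [mul_assoc]
      _ = _ := by rw [c2.eq, Y]; simp only [mul_assoc]

theorem Y_succ_T (i : ℕ) (hi : i < N) : H.Y (i+1) * H.T i = H.Tt i * H.Y i := by
  obtain ⟨m, hm⟩ : ∃ m, N - i = m + 1 := ⟨N - i - 1, by omega⟩
  have e : N - (i+1) = m := by omega
  rw [Y, Y, hm, e, chain_succ' _ i 0, chain_succ]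
  simp only [mul_assoc, zero_add]

theorem TY_pair (i : ℕ) (hi : i < N) :
    H.T i * (H.Y i + H.Y (i+1)) = (H.Y i + H.Y (i+1)) * H.T i := by
  have h := H.Y_succ_T i hi
  -- T_i Y_{i+1} q = Y_i Tt_i q   (avoid division: use quadratic relation)
  have hq : H.T i * H.Y (i+1) * H.T i = q * H.Y i := by
    rw [mul_assoc, h, ← mul_assoc, H.T_Tt i hi]
  have h3 : q * (H.T i * H.Y (i+1)) = q * (H.Y i * H.Tt i) := by
    calc q * (H.T i * H.Y (i+1)) = (H.T i * H.Y (i+1)) * q := H.cq _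
      _ = (H.T i * H.Y (i+1)) * (H.T i * H.Tt i) := by rw [H.T_Tt i hi]
      _ = (H.T i * H.Y (i+1) * H.T i) * H.Tt i := by simp only [mul_assoc]
      _ = q * (H.Y i * H.Tt i) := by rw [hq, mul_assoc]
  -- direct: T Y_{i+1} = Y_i Tt
  have h4 : H.T i * H.Y (i+1) = H.Y i * H.Tt i := by
    -- expand Y_{i+1} directly
    obtain ⟨m, hm⟩ : ∃ m, N - i = m + 1 := ⟨N - i - 1, by omega⟩
    have e : N - (i+1) = m := by omega
    have e1 : H.Y (i+1) = H.Tt i * (chain H.Tt i 0 * H.Z * chain H.T m (i+1)) := by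
      rw [Y, e, chain_succ' _ i 0]; simp only [mul_assoc, zero_add]
    have e2 : H.Y i = (chain H.Tt i 0 * H.Z * chain H.T m (i+1)) * H.T i := by
      rw [Y, hm, chain_succ]; simp only [mul_assoc]
    rw [e1, e2, ← mul_assoc, H.T_Tt i hi, mul_assoc _ (H.T i), H.T_Tt i hi, H.cq]
  rw [mul_add, add_mul, h, h4, Tt, mul_sub, sub_mul, H.cq1]
  abel

theorem TS (i : ℕ) (hi : i < N) : H.T i * H.S = H.S * H.T i := by
  have hs : H.S = ∑ j ∈ (range (N+1)).erase i, H.Y j + H.Y i := by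
    rw [S, Finset.sum_erase_add]; simp; omega
  have hs2 : ∑ j ∈ (range (N+1)).erase i, H.Y j
      = ∑ j ∈ ((range (N+1)).erase i).erase (i+1), H.Y j + H.Y (i+1) := by
    rw [Finset.sum_erase_add]; simp; omega
  have hfar : H.T i * ∑ j ∈ ((range (N+1)).erase i).erase (i+1), H.Y j
      = (∑ j ∈ ((range (N+1)).erase i).erase (i+1), H.Y j) * H.T i := by
    rw [Finset.mul_sum, Finset.sum_mul]
    refine Finset.sum_congr rfl fun j hj => ?_
    simp only [Finset.mem_erase, Finset.mem_range] at hj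
    exact H.TY_far i j hi (by omega) hj.2.1 hj.1
  have hp := H.TY_pair i hi
  rw [hs, hs2, add_assoc, mul_add, add_mul, hfar, add_comm (H.Y (i+1)), hp]

/-- `A_j` in the telescoping argument -/
def Aj (j : ℕ) : 𝒜 := chain H.T (N - j) j * chain H.Tt j 0

theorem ZY_sub (j : ℕ) (hj : j < N) :
    H.Z * H.Y j - H.Y (j+1) * H.Z = H.Z * (H.Aj j - H.Aj (j+1)) * H.Z := by
  obtain ⟨m, hm⟩ : ∃ m, N - j = m + 1 := ⟨N - j - 1, by omega⟩
  have e : N - (j+1) = m := by omega
  have hN : 0 < N := by omega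
  have s1 : H.Z * chain H.Tt j 0 = chain H.Tt j 1 * H.Z :=
    chain_shift _ _ _ _ (fun k _ hk => (H.TtZ k (by omega)).symm)
  have s2 : H.Z * chain H.T m j = chain H.T m (j+1) * H.Z :=
    chain_shift _ _ _ _ (fun k _ hk => (H.TZ k (by omega)).symm)
  have e3 : j + m = N - 1 := by omega
  have P1 : H.Z * H.Y j = chain H.Tt j 1 * (H.Z * H.Z * H.T (N-1)) * chain H.T m j := by
    calc H.Z * H.Y j = (H.Z * chain H.Tt j 0) * H.Z * chain H.T (m+1) j := by
          rw [Y, hm]; simp only [mul_assoc]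
      _ = _ := by rw [s1, chain_succ', e3]; simp only [mul_assoc]
  have Q1 : H.Y (j+1) * H.Z = chain H.Tt j 1 * (H.Z * H.Z * H.Tt (N-1)) * chain H.T m j := by
    rw [Y, e, chain_succ, mul_assoc _ _ H.Z, ← s2, ← H.TtZZ hN]; simp only [mul_assoc, zero_add]
  have hc : Commute (chain H.Tt j 0) (chain H.T m (j+1)) := by
    apply chain_commute
    intro k hk1 hk2
    apply Commute.symm
    apply chain_commute
    intro l _ hl
    exact H.far_Tt' l k (by omega) (by omega)
  have A1 : H.Aj j - H.Aj (j+1) = (1 - q) * (chain H.T m (j+1) * chain H.Tt j 0) := by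
    rw [Aj, Aj, hm, e, chain_succ, chain_succ' _ j 0, zero_add, mul_assoc, ← mul_sub, ← sub_mul,
      H.T_sub_Tt, H.cq1, ← mul_assoc, ← H.cq1]
  have D1 : H.Z * H.Y j - H.Y (j+1) * H.Z
      = (1 - q) * (chain H.Tt j 1 * (H.Z * H.Z) * chain H.T m j) := by
    have : H.Z * H.Z * H.T (N-1) - H.Z * H.Z * H.Tt (N-1) = (1 - q) * (H.Z * H.Z) := by
      rw [← mul_sub, H.T_sub_Tt, H.cq1]
    rw [P1, Q1, ← sub_mul, ← mul_sub, this, ← mul_assoc, ← H.cq1, mul_assoc, mul_assoc]
    simp only [mul_assoc]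
  rw [D1, A1]
  calc (1 - q) * (chain H.Tt j 1 * (H.Z * H.Z) * chain H.T m j)
      = (1 - q) * ((chain H.Tt j 1 * H.Z) * (H.Z * chain H.T m j)) := by simp only [mul_assoc]
    _ = (1 - q) * (H.Z * (chain H.Tt j 0 * chain H.T m (j+1)) * H.Z) := by
        rw [← s1, s2]; simp only [mul_assoc]
    _ = (1 - q) * (H.Z * (chain H.T m (j+1) * chain H.Tt j 0) * H.Z) := by rw [hc.eq]
    _ = _ := by rw [← mul_assoc, ← mul_assoc, H.cq1 H.Z]; simp only [mul_assoc]

theorem ZS : H.Z * H.S = H.S * H.Z := by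
  have hP : H.Z * H.S = ∑ j ∈ range N, H.Z * H.Y j + H.Z * H.Y N := by
    rw [S, Finset.mul_sum, Finset.sum_range_succ]
  have hQ : H.S * H.Z = ∑ j ∈ range N, H.Y (j+1) * H.Z + H.Y 0 * H.Z := by
    rw [S, Finset.sum_mul, Finset.sum_range_succ']
  have hlast : H.Z * H.Y N - H.Y 0 * H.Z = H.Z * (H.Aj N - H.Aj 0) * H.Z := by
    rw [Y, Y, Aj, Aj]
    simp only [Nat.sub_self, Nat.sub_zero, chain_zero, mul_one, one_mul]
    noncomm_ring
  have hsum : ∑ j ∈ range N, (H.Z * H.Y j - H.Y (j+1) * H.Z) = H.Z * (H.Aj 0 - H.Aj N) * H.Z := by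
    rw [Finset.sum_congr rfl (fun j hj => H.ZY_sub j (Finset.mem_range.1 hj)),
      ← Finset.sum_mul, ← Finset.mul_sum, Finset.sum_range_sub']
  rw [Finset.sum_sub_distrib] at hsum
  have : H.Z * H.S - H.S * H.Z = 0 := by
    rw [hP, hQ]
    calc ∑ j ∈ range N, H.Z * H.Y j + H.Z * H.Y N
          - (∑ j ∈ range N, H.Y (j+1) * H.Z + H.Y 0 * H.Z)
        = (∑ j ∈ range N, H.Z * H.Y j - ∑ j ∈ range N, H.Y (j+1) * H.Z)
          + (H.Z * H.Y N - H.Y 0 * H.Z) := by abel
      _ = H.Z * (H.Aj 0 - H.Aj N) * H.Z + H.Z * (H.Aj N - H.Aj 0) * H.Z := by rw [hsum, hlast]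
      _ = 0 := by noncomm_ring
  exact sub_eq_zero.1 this

theorem TtS (i : ℕ) (hi : i < N) : H.Tt i * H.S = H.S * H.Tt i := by
  rw [Tt, sub_mul, mul_sub, H.TS i hi, H.cq1]

theorem S_chainTt (m j : ℕ) (h : j + m ≤ N) : Commute H.S (chain H.Tt m j) :=
  chain_commute _ _ _ _ (fun k _ hk => (H.TtS k (by omega)).symm)

theorem S_chainT (m j : ℕ) (h : j + m ≤ N) : Commute H.S (chain H.T m j) :=
  chain_commute _ _ _ _ (fun k _ hk => (H.TS k (by omega)).symm)

theorem SY (j : ℕ) (hj : j ≤ N) : Commute H.S (H.Y j) := by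
  have h1 : Commute H.S H.Z := H.ZS.symm
  exact ((H.S_chainTt j 0 (by omega)).mul_right h1).mul_right (H.S_chainT _ _ (by omega))

theorem SD (k : ℕ) : Commute H.S (H.D k) := by
  rw [D]
  apply Commute.sum_right
  intro j hj
  have hj' : j ≤ N := by simpa [Nat.lt_succ_iff] using hj
  have hc : Commute H.S (if j < k then t else 1) := by
    split_ifs
    · exact (H.ct _).symm
    · exact Commute.one_right _
  exact hc.mul_right (H.SY j hj')

/-- moving `X_j` through a chain -/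
theorem chain_X (m j : ℕ) (h : j + m ≤ N) : chain H.Tt m j * H.X j = H.X (j+m) * chain H.T m j := by
  induction m with
  | zero => simp [chain]
  | succ m ih =>
    rw [chain_succ', chain_succ', mul_assoc, ih (by omega), ← mul_assoc, Tt,
      H.TX (j+m) (by omega), mul_assoc]
    rfl

theorem PY (j : ℕ) (hj : j < N) : H.P * H.Y j = H.Y (j+1) * H.P := by
  obtain ⟨m, hm⟩ : ∃ m, N - j = m + 1 := ⟨N - j - 1, by omega⟩
  have e : N - (j+1) = m := by omega
  have e3 : j + m = N - 1 := by omega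
  have hN : 0 < N := by omega
  have s1 : H.P * chain H.Tt j 0 = chain H.Tt j 1 * H.P :=
    chain_shift _ _ _ _ (fun k _ hk => H.PTt k (by omega))
  have s2 : H.P * chain H.T m j = chain H.T m (j+1) * H.P :=
    chain_shift _ _ _ _ (fun k _ hk => H.PT k (by omega))
  have hx := H.PX 0 hN
  have ht := H.TX 0 hN
  simp only [zero_add] at hx ht
  calc H.P * H.Y j = (H.P * chain H.Tt j 0) * (H.X 0 * H.P) * chain H.T (m+1) j := by
        rw [Y, hm, Z]; simp only [mul_assoc]
    _ = chain H.Tt j 1 * (H.P * H.X 0) * H.P * (H.T (N-1) * chain H.T m j) := by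
        rw [s1, chain_succ', e3]; simp only [mul_assoc]
    _ = chain H.Tt j 1 * H.X 1 * (H.P * H.P * H.T (N-1)) * chain H.T m j := by
        rw [hx]; simp only [mul_assoc]
    _ = chain H.Tt j 1 * (H.X 1 * H.T 0) * H.P * (H.P * chain H.T m j) := by
        rw [← H.TPP hN]; simp only [mul_assoc]
    _ = chain H.Tt j 1 * (H.Tt 0 * H.X 0) * H.P * (chain H.T m (j+1) * H.P) := by
        rw [s2, ← ht, Tt]
    _ = H.Y (j+1) * H.P := by
        rw [Y, e, chain_succ, Z]; simp only [mul_assoc, zero_add]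

theorem PYN : H.P * H.Y N = t * H.Y 0 * H.P := by
  have h := H.chain_X N 0 (by omega)
  rw [zero_add] at h
  calc H.P * H.Y N = H.P * (chain H.Tt N 0 * H.X 0) * H.P := by
        rw [Y, Z]; simp only [Nat.sub_self, chain_zero, mul_one, mul_assoc]
    _ = (H.P * H.X N) * chain H.T N 0 * H.P := by rw [h]; simp only [mul_assoc]
    _ = t * H.Y 0 * H.P := by
        rw [H.PXN, Y, Z]; simp only [Nat.sub_zero, chain_zero, one_mul, mul_assoc]

theorem PD (k : ℕ) (hk : k ≤ N) : H.P * H.D k = H.D (k+1) * H.P := by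
  rw [D, D, Finset.mul_sum, Finset.sum_mul, Finset.sum_range_succ, Finset.sum_range_succ']
  have h1 : H.P * ((if N < k then t else 1) * H.Y N)
      = (if 0 < k + 1 then t else 1) * H.Y 0 * H.P := by
    rw [if_neg (by omega), if_pos (by omega), one_mul, H.PYN]
  rw [h1]
  congr 1
  refine Finset.sum_congr rfl fun j hj => ?_
  have hj' := Finset.mem_range.1 hj
  by_cases h : j < k
  · rw [if_pos h, if_pos (by omega), ← mul_assoc, ← H.ct H.P, mul_assoc, H.PY j hj', mul_assoc]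
  · rw [if_neg h, if_neg (by omega), one_mul, one_mul, H.PY j hj']

theorem SX : H.S * H.X 0 = H.X 0 * H.D 1 := by
  have h : H.S * H.X 0 * H.P = H.X 0 * H.D 1 * H.P := by
    calc H.S * H.X 0 * H.P = H.S * H.Z := by rw [Z, mul_assoc]
      _ = H.Z * H.S := H.ZS.symm
      _ = H.X 0 * (H.P * H.D 0) := by rw [Z, D_zero, mul_assoc]
      _ = _ := by rw [H.PD 0 (by omega), ← mul_assoc]
  calc H.S * H.X 0 = H.S * H.X 0 * H.P * H.Pi := by rw [mul_assoc _ H.P, H.PPi, mul_one]
    _ = H.X 0 * H.D 1 * H.P * H.Pi := by rw [h]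
    _ = _ := by rw [mul_assoc _ H.P, H.PPi, mul_one]

/-- `T_j` commutes with `D_k` for `k ≤ j`. -/
theorem TD (k j : ℕ) (hk : k ≤ j) (hj : j < N) : H.T j * H.D k = H.D k * H.T j := by
  -- D_k = S + (t-1) ∑_{i<k} Y_i
  have hD : H.D k = H.S + ∑ i ∈ range (N+1), (if i < k then t - 1 else 0) * H.Y i := by
    rw [D, S, ← Finset.sum_add_distrib]
    refine Finset.sum_congr rfl fun i _ => ?_
    split_ifs <;> noncomm_ring
  have h2 : H.T j * ∑ i ∈ range (N+1), (if i < k then t - 1 else 0) * H.Y i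
      = (∑ i ∈ range (N+1), (if i < k then t - 1 else 0) * H.Y i) * H.T j := by
    rw [Finset.mul_sum, Finset.sum_mul]
    refine Finset.sum_congr rfl fun i hi => ?_
    have hi' := Finset.mem_range.1 hi
    split_ifs with h
    · have c : H.T j * (t - 1) = (t - 1) * H.T j := by
        rw [mul_sub, sub_mul, H.ct, mul_one, one_mul]
      rw [← mul_assoc, c, mul_assoc, H.TY_far j i hj (by omega) (by omega) (by omega), mul_assoc]
    · simp
  rw [hD, mul_add, add_mul, H.TS j hj, h2]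

end Daha

end Pool.Agent.Helper196Ehr
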