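import Mathlib
import Pool.Agent.Helper196_Ehr.Daha

set_option autoImplicit false
set_option linter.all false

namespace Pool.Agent.Helper196Ehr

open Finset

/-- `rch T m j = T j * T (j+1) * ⋯ * T (j+m-1)`. -/
def rch {𝒜 : Type*} [Monoid 𝒜] (T : ℕ → 𝒜) : ℕ → ℕ → 𝒜
  | 0, _ => 1
  | (m+1), j => T j * rch T m (j+1)

section
variable {𝒜 : Type*} [Monoid 𝒜]

theorem rch_zero (T : ℕ → 𝒜) (j : ℕ) : rch T 0 j = 1 := rfl

theorem rch_succ (T : ℕ → 𝒜) (m j : ℕ) : rch T (m+1) j = T j * rch T m (j+1) := rfl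

theorem rch_succ' (T : ℕ → 𝒜) (m j : ℕ) : rch T (m+1) j = rch T m j * T (j+m) := by
  induction m generalizing j with
  | zero => simp [rch]
  | succ m ih =>
    rw [rch_succ, ih (j+1), rch_succ T m j, mul_assoc]
    congr 3; omega

theorem rch_add (T : ℕ → 𝒜) (a b j : ℕ) : rch T (a+b) j = rch T a j * rch T b (j+a) := by
  induction a generalizing j with
  | zero => simp [rch]
  | succ a ih =>
    have e : a + 1 + b = (a + b) + 1 := by omega
    rw [e, rch_succ, ih (j+1), rch_succ, mul_assoc]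
    congr 3; omega

theorem chain_add (T : ℕ → 𝒜) (a b j : ℕ) : chain T (a+b) j = chain T a (j+b) * chain T b j := by
  induction b generalizing j with
  | zero => simp [chain]
  | succ b ih =>
    have e : a + (b + 1) = (a + b) + 1 := by omega
    rw [e, chain_succ, ih (j+1), chain_succ T b j, mul_assoc]
    congr 2; omega

theorem rch_commute (T : ℕ → 𝒜) (a : 𝒜) (m j : ℕ)
    (h : ∀ k, j ≤ k → k < j + m → Commute a (T k)) : Commute a (rch T m j) := by
  induction m with
  | zero => simp [rch]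
  | succ m ih =>
    rw [rch_succ']
    exact (ih (fun k h1 h2 => h k h1 (by omega))).mul_right (h _ (by omega) (by omega))

end

namespace Daha

variable {𝒜 : Type*} [Ring 𝒜] {N : ℕ} {q t : 𝒜} (H : Daha 𝒜 N q t)

theorem D_succ (i : ℕ) (hi : i ≤ N) : H.D (i+1) = H.D i + (t - 1) * H.Y i := by
  have hmem : i ∈ range (N+1) := Finset.mem_range.2 (by omega)
  rw [D, D, ← Finset.add_sum_erase _ _ hmem, ← Finset.add_sum_erase (range (N+1)) (fun j => (if j < i then t else 1) * H.Y j) hmem]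
  have h : ∑ x ∈ (range (N+1)).erase i, (if x < i + 1 then t else 1) * H.Y x
      = ∑ x ∈ (range (N+1)).erase i, (if x < i then t else 1) * H.Y x := by
    refine Finset.sum_congr rfl fun x hx => ?_
    have := (Finset.mem_erase.1 hx).1
    by_cases h1 : x < i
    · rw [if_pos h1, if_pos (by omega)]
    · rw [if_neg h1, if_neg (by omega)]
  rw [h, if_pos (by omega), if_neg (by omega)]
  noncomm_ring

theorem PpowPi (m : ℕ) : H.P ^ m * H.Pi ^ m = 1 := by
  induction m with
  | zero => simp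
  | succ m ih =>
    rw [pow_succ' H.Pi, pow_succ H.P, mul_assoc, ← mul_assoc H.P, H.PPi, one_mul, ih]

theorem cancel_Ppow (m : ℕ) (a b : 𝒜) (h : a * H.P ^ m = b * H.P ^ m) : a = b := by
  calc a = a * (H.P ^ m * H.Pi ^ m) := by rw [H.PpowPi, mul_one]
    _ = b * (H.P ^ m * H.Pi ^ m) := by rw [← mul_assoc, h, mul_assoc]
    _ = b := by rw [H.PpowPi, mul_one]

theorem PpowD (i k : ℕ) (h : k + i ≤ N + 1) : H.P ^ i * H.D k = H.D (k+i) * H.P ^ i := by
  induction i with
  | zero => simp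
  | succ i ih =>
    rw [pow_succ', mul_assoc, ih (by omega), ← mul_assoc, H.PD (k+i) (by omega), mul_assoc]
    congr 1

theorem PpowY (i m : ℕ) (h : m + i ≤ N) : H.P ^ i * H.Y m = H.Y (m+i) * H.P ^ i := by
  induction i with
  | zero => simp
  | succ i ih =>
    rw [pow_succ', mul_assoc, ih (by omega), ← mul_assoc, H.PY (m+i) (by omega), mul_assoc]
    congr 1

theorem PpowX (i m : ℕ) (h : m + i ≤ N) : H.P ^ i * H.X m = H.X (m+i) * H.P ^ i := by
  induction i with
  | zero => simp
  | succ i ih =>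
    rw [pow_succ', mul_assoc, ih (by omega), ← mul_assoc, H.PX (m+i) (by omega), mul_assoc]
    congr 1

theorem PpowT (i m : ℕ) (h : m + i < N) : H.P ^ i * H.T m = H.T (m+i) * H.P ^ i := by
  induction i with
  | zero => simp
  | succ i ih =>
    rw [pow_succ', mul_assoc, ih (by omega), ← mul_assoc, H.PT (m+i) (by omega), mul_assoc]
    congr 1

/-- `D_i` commutes with `Y_m` for `i ≤ m`. -/
theorem DY (i m : ℕ) (h : i ≤ m) (hm : m ≤ N) : Commute (H.D i) (H.Y m) := by
  obtain ⟨j, rfl⟩ : ∃ j, m = j + i := ⟨m - i, by omega⟩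
  apply H.cancel_Ppow i
  have h1 := H.PpowD i 0 (by omega)
  have h2 := H.PpowY i j hm
  have h3 := (H.SY j (by omega)).eq
  rw [zero_add, D_zero] at h1
  calc H.D i * H.Y (j+i) * H.P ^ i = H.D i * (H.P ^ i * H.Y j) := by rw [h2, mul_assoc]
    _ = H.P ^ i * (H.S * H.Y j) := by rw [← mul_assoc, ← h1, mul_assoc]
    _ = H.Y (j+i) * (H.P ^ i * H.S) := by rw [h3, ← mul_assoc, h2, mul_assoc]
    _ = _ := by rw [h1, mul_assoc]

include H in
theorem ct1 (x : 𝒜) : (t - 1) * x = x * (t - 1) := by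
  have := H.ct x
  rw [sub_mul, mul_sub, this, one_mul, mul_one]

theorem DD (i k : ℕ) (h : i ≤ k) (hk : k ≤ N + 1) : Commute (H.D i) (H.D k) := by
  induction k, h using Nat.le_induction with
  | base => exact Commute.refl _
  | succ k hik ih =>
    rw [H.D_succ k (by omega)]
    have h1 : Commute (H.D i) (t - 1) := (H.ct1 _).symm
    exact (ih (by omega)).add_right (h1.mul_right (H.DY i k hik (by omega)))

theorem DX (j : ℕ) (hj : j ≤ N) : H.D j * H.X j = H.X j * H.D (j+1) := by
  apply H.cancel_Ppow j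
  have h1 := H.PpowD j 0 (by omega)
  have h2 := H.PpowX j 0 (by omega)
  have h3 := H.PpowD j 1 (by omega)
  rw [zero_add, D_zero] at h1
  rw [zero_add] at h2
  rw [add_comm 1 j] at h3
  calc H.D j * H.X j * H.P ^ j = H.D j * (H.P ^ j * H.X 0) := by rw [h2, mul_assoc]
    _ = H.P ^ j * (H.S * H.X 0) := by rw [← mul_assoc, ← h1, mul_assoc]
    _ = H.X j * (H.P ^ j * H.D 1) := by rw [H.SX, ← mul_assoc, h2, mul_assoc]
    _ = _ := by rw [h3, mul_assoc]

theorem T_Y_succ (i : ℕ) (hi : i < N) : H.T i * H.Y (i+1) = H.Y i * H.Tt i := by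
  obtain ⟨m, hm⟩ : ∃ m, N - i = m + 1 := ⟨N - i - 1, by omega⟩
  have e : N - (i+1) = m := by omega
  have e1 : H.Y (i+1) = H.Tt i * (chain H.Tt i 0 * H.Z * chain H.T m (i+1)) := by
    rw [Y, e, chain_succ' _ i 0]; simp only [mul_assoc, zero_add]
  have e2 : H.Y i = (chain H.Tt i 0 * H.Z * chain H.T m (i+1)) * H.T i := by
    rw [Y, hm, chain_succ]; simp only [mul_assoc]
  rw [e1, e2, ← mul_assoc, H.T_Tt i hi, mul_assoc _ (H.T i), H.T_Tt i hi, H.cq]

theorem TtD (k j : ℕ) (hk : k ≤ j) (hj : j < N) : Commute (H.D k) (H.Tt j) := by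
  have h1 : Commute (H.D k) (H.T j) := (H.TD k j hk hj).symm
  have h2 : Commute (H.D k) (1 - q) := (H.cq1 _).symm
  exact h1.sub_right h2

/-- `T_j` commutes with `D_k` for `j + 2 ≤ k`. -/
theorem TD' (k j : ℕ) (hk : j + 2 ≤ k) (hkN : k ≤ N + 1) (hj : j < N) :
    Commute (H.D k) (H.T j) := by
  induction k, hk using Nat.le_induction with
  | base =>
    have h1 : Commute (H.D j) (H.T j) := (H.TD j j le_rfl hj).symm
    have h2 : Commute (H.Y j + H.Y (j+1)) (H.T j) := (H.TY_pair j hj).symm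
    have h3 : Commute (t - 1) (H.T j) := H.ct1 _
    have e : H.D (j+2) = H.D j + (t - 1) * (H.Y j + H.Y (j+1)) := by
      rw [show j + 2 = (j + 1) + 1 from rfl, H.D_succ (j+1) (by omega), H.D_succ j (by omega),
        mul_add, add_assoc]
    rw [e]
    exact h1.add_left (h3.mul_left h2)
  | succ k hjk ih =>
    rw [H.D_succ k (by omega)]
    have h3 : Commute (t - 1) (H.T j) := H.ct1 _
    have h4 : Commute (H.Y k) (H.T j) := (H.TY_far j k hj (by omega) (by omega) (by omega)).symm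
    exact (ih (by omega)).add_left (h3.mul_left h4)

theorem TtD' (k j : ℕ) (hk : j + 2 ≤ k) (hkN : k ≤ N + 1) (hj : j < N) :
    Commute (H.D k) (H.Tt j) := by
  have h2 : Commute (H.D k) (1 - q) := (H.cq1 _).symm
  exact (H.TD' k j hk hkN hj).sub_right h2

theorem Tt_T_chain (m j : ℕ) (h : j + m ≤ N) : rch H.Tt m j * chain H.T m j = q ^ m := by
  induction m with
  | zero => simp [rch, chain]
  | succ m ih =>
    rw [rch_succ', chain_succ', mul_assoc, ← mul_assoc (H.Tt _), H.Tt_T _ (by omega), ← mul_assoc,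
      ← H.cq, mul_assoc, ih (by omega), pow_succ']

theorem T_Tt_chain (m j : ℕ) (h : j + m ≤ N) : chain H.T m j * rch H.Tt m j = q ^ m := by
  induction m generalizing j with
  | zero => simp [rch, chain]
  | succ m ih =>
    rw [rch_succ, chain_succ, mul_assoc, ← mul_assoc (H.T _), H.T_Tt _ (by omega), ← mul_assoc,
      ← H.cq, mul_assoc, ih _ (by omega), pow_succ']

include H in
theorem cqpow (m : ℕ) (x : 𝒜) : q ^ m * x = x * q ^ m := by
  have h : Commute q x := H.cq x
  exact (h.pow_left m).eq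

/-- the commutation of `D_i` and `X_{i+m}` -/
theorem DXm (i m : ℕ) (h : i + m ≤ N) : q ^ m * (H.D i * H.X (i+m))
    = H.X (i+m) * (chain H.T m i * (H.D (i+1) * rch H.Tt m i)) := by
  have h1 : Commute (H.D i) (chain H.Tt m i) :=
    chain_commute _ _ _ _ (fun k hk1 hk2 => H.TtD i k hk1 (by omega))
  have h2 := H.chain_X m i h
  calc q ^ m * (H.D i * H.X (i+m)) = H.D i * H.X (i+m) * q ^ m := H.cqpow m _
    _ = H.D i * (H.X (i+m) * chain H.T m i) * rch H.Tt m i := by
        rw [← H.T_Tt_chain m i h]; simp only [mul_assoc]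
    _ = (H.D i * chain H.Tt m i) * H.X i * rch H.Tt m i := by rw [← h2]; simp only [mul_assoc]
    _ = chain H.Tt m i * (H.D i * H.X i) * rch H.Tt m i := by rw [h1.eq]; simp only [mul_assoc]
    _ = (chain H.Tt m i * H.X i) * H.D (i+1) * rch H.Tt m i := by
        rw [H.DX i (by omega)]; simp only [mul_assoc]
    _ = _ := by rw [h2]; simp only [mul_assoc]

theorem Y_rch (m j : ℕ) (h : j + m ≤ N) : H.Y j * rch H.Tt m j = rch H.T m j * H.Y (j+m) := by
  induction m with
  | zero => simp [rch]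
  | succ m ih =>
    rw [rch_succ', rch_succ', ← mul_assoc, ih (by omega), mul_assoc, ← H.T_Y_succ (j+m) (by omega),
      mul_assoc]
    congr 1

theorem D_rch (m j : ℕ) (h : j + m ≤ N) : H.D (j+1) * rch H.Tt m j
    = rch H.Tt m j * H.D j + (t - 1) * (rch H.T m j * H.Y (j+m)) := by
  have h1 : Commute (H.D j) (rch H.Tt m j) :=
    rch_commute _ _ _ _ (fun k hk1 hk2 => H.TtD j k hk1 (by omega))
  rw [H.D_succ j (by omega), add_mul, h1.eq, mul_assoc, H.Y_rch m j h]

/-- the sum of the variables -/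
def E : 𝒜 := ∑ j ∈ range (N+1), H.X j

theorem TX_pair (i : ℕ) (hi : i < N) :
    H.T i * (H.X i + H.X (i+1)) = (H.X i + H.X (i+1)) * H.T i := by
  have h1 := H.TX i hi
  have h2 := H.TX' i hi
  have h3 : H.T i * H.X i = H.X (i+1) * H.T i + (1 - q) * H.X i := by
    rw [← h1, sub_mul]; abel
  rw [mul_add, h2, h3, mul_sub, H.cq1, add_mul]
  abel

theorem TE (i : ℕ) (hi : i < N) : Commute H.E (H.T i) := by
  have hs : H.E = ∑ j ∈ (range (N+1)).erase i, H.X j + H.X i := by
    rw [E, Finset.sum_erase_add]; simp; omega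
  have hs2 : ∑ j ∈ (range (N+1)).erase i, H.X j
      = ∑ j ∈ ((range (N+1)).erase i).erase (i+1), H.X j + H.X (i+1) := by
    rw [Finset.sum_erase_add]; simp; omega
  have hfar : H.T i * ∑ j ∈ ((range (N+1)).erase i).erase (i+1), H.X j
      = (∑ j ∈ ((range (N+1)).erase i).erase (i+1), H.X j) * H.T i := by
    rw [Finset.mul_sum, Finset.sum_mul]
    refine Finset.sum_congr rfl fun j hj => ?_
    simp only [Finset.mem_erase, Finset.mem_range] at hj
    exact H.TXfar i j hi (by omega) hj.2.1 hj.1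
  have hp := H.TX_pair i hi
  apply Commute.symm
  change H.T i * H.E = H.E * H.T i
  rw [hs, hs2, add_assoc, mul_add, add_mul, hfar, add_comm (H.X (i+1)), hp]

theorem TtE (i : ℕ) (hi : i < N) : Commute H.E (H.Tt i) := by
  have h2 : Commute H.E (1 - q) := (H.cq1 _).symm
  exact (H.TE i hi).sub_right h2

theorem PE : H.P * H.E = (H.E + (t - 1) * H.X 0) * H.P := by
  rw [E, Finset.mul_sum, Finset.sum_range_succ, H.PXN, Finset.sum_range_succ' (fun j => H.X j)]
  rw [Finset.sum_congr rfl (fun j hj => H.PX j (Finset.mem_range.1 hj)), ← Finset.sum_mul]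
  noncomm_ring

theorem PpowE (k : ℕ) (hk : k ≤ N + 1) :
    H.P ^ k * H.E = (H.E + (t - 1) * ∑ s ∈ range k, H.X s) * H.P ^ k := by
  induction k with
  | zero => simp
  | succ k ih =>
    have h1 : H.P * ∑ s ∈ range k, H.X s = (∑ s ∈ range k, H.X (s+1)) * H.P := by
      rw [Finset.mul_sum, Finset.sum_mul]
      exact Finset.sum_congr rfl fun j hj => H.PX j (by have := Finset.mem_range.1 hj; omega)
    rw [pow_succ', mul_assoc, ih (by omega), ← mul_assoc, mul_add, H.PE, ← mul_assoc,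
      ← H.ct1, mul_assoc _ H.P, h1, Finset.sum_range_succ']
    noncomm_ring

theorem YE (j : ℕ) (hj : j ≤ N) : H.Y j * H.E
    = chain H.Tt j 0 * ((H.E + (t - 1) * H.X 0) * (H.Z * chain H.T (N - j) j)) := by
  have h1 : Commute H.E (chain H.T (N - j) j) :=
    chain_commute _ _ _ _ (fun k _ hk => H.TE k (by omega))
  have h2 : Commute (H.X 0) (H.E + (t - 1) * H.X 0) := by
    have a1 : Commute (H.X 0) H.E := by
      rw [E]
      exact Commute.sum_right _ _ _ (fun i hi => H.XX 0 i (by omega)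
        (by have := Finset.mem_range.1 hi; omega))
    have a2 : Commute (H.X 0) (t - 1) := (H.ct1 _).symm
    exact a1.add_right (a2.mul_right (Commute.refl _))
  rw [Y, mul_assoc, ← h1.eq, Z]
  calc chain H.Tt j 0 * (H.X 0 * H.P) * (H.E * chain H.T (N - j) j)
      = chain H.Tt j 0 * H.X 0 * (H.P * H.E) * chain H.T (N - j) j := by simp only [mul_assoc]
    _ = chain H.Tt j 0 * (H.X 0 * (H.E + (t - 1) * H.X 0)) * H.P * chain H.T (N - j) j := by
        rw [H.PE]; simp only [mul_assoc]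
    _ = _ := by rw [h2.eq]; simp only [mul_assoc]

end Daha

end Pool.Agent.Helper196Ehr
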