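import Mathlib

set_option autoImplicit false

/-!
# Definitions for the statement: threshold graphs, flow polytopes, `q,t`-Ehrhart polynomials
-/

namespace Pool.Agent.Helper196Ehr

open Finset MvPolynomial

variable {n : ℕ}

/-- `G` is a threshold graph: there is an order `e 0, e 1, …, e n` of the vertices such that each
`e k` is adjacent to all the `e j`, `j < k`, or to none of them. -/
def IsThreshold (G : SimpleGraph (Fin (n+1))) : Prop :=
  ∃ e : Equiv.Perm (Fin (n+1)), ∀ k,
    (∀ j, j < k → G.Adj (e k) (e j)) ∨ (∀ j, j < k → ¬ G.Adj (e k) (e j))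

/-- the degree of a vertex -/
noncomputable def vdeg (G : SimpleGraph (Fin (n+1))) (v : Fin (n+1)) : ℕ := (G.neighborSet v).ncard

/-- the labelling is by weakly decreasing degrees -/
def DegSorted (G : SimpleGraph (Fin (n+1))) : Prop := ∀ i j, i < j → vdeg G j ≤ vdeg G i

/-- `A` is an integral point of the flow polytope: `A i j` is the flow along the edge from `i`
to `j`; it can be nonzero only if `i` and `j` are adjacent and `i > j`; the flow leaving `v` minus
the flow entering `v` is `-n` for `v = 0` and `1` for every other `v`. -/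
def IsFlow (G : SimpleGraph (Fin (n+1))) (A : Fin (n+1) → Fin (n+1) → ℕ) : Prop :=
  (∀ i j, A i j ≠ 0 → G.Adj i j ∧ j < i) ∧
  ∀ v, ((∑ j, A v j : ℕ) : ℤ) - ((∑ i, A i v : ℕ) : ℤ) = if v = 0 then -(n : ℤ) else 1

/-- `wt b = (q^b - t^b)/(q - t) = ∑_{i < b} q^i t^(b-1-i)` for `b > 0`, and `wt 0 = 1`, with
`q = X 0` and `t = X 1` -/
noncomputable def wtb (b : ℕ) : MvPolynomial (Fin 2) ℤ :=
  if b = 0 then 1 else ∑ i ∈ range b, X 0 ^ i * X 1 ^ (b - 1 - i)

/-- the weight of a flow; on every flow the number of edges carrying a positive flow is at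
least `n` -/
noncomputable def wtA (A : Fin (n+1) → Fin (n+1) → ℕ) : MvPolynomial (Fin 2) ℤ :=
  (-((1 - X 0) * (1 - X 1))) ^
      ((univ.filter (fun e : Fin (n+1) × Fin (n+1) => 0 < A e.1 e.2)).card - n)
    * ∏ e : Fin (n+1) × Fin (n+1), wtb (A e.1 e.2)

/-- the `q,t`-Ehrhart polynomial of the flow polytope of `G` -/
noncomputable def Ehr (G : SimpleGraph (Fin (n+1))) : MvPolynomial (Fin 2) ℤ :=
  ∑ᶠ A ∈ {A | IsFlow G A}, wtA A

end Pool.Agent.Helper196Ehr
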