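import Mathlib

set_option autoImplicit false
set_option linter.all false

namespace Pool.Agent.Helper196Ehr

open Finset

/-- add one to all entries -/
def inc (l : List ℕ) : List ℕ := l.map (· + 1)

/-- The recursively defined polynomials `h(r_1, …, r_z)`. -/
def hh {R : Type*} [CommSemiring R] (q t : R) : List ℕ → R
  | [] => 1
  | 0 :: _ => 0
  | (r+1) :: rs => (∑ i ∈ range (r+1), q ^ i) * hh q t (inc rs) + t * hh q t (rs ++ [0])
termination_by l => (l.length, l.sum)
decreasing_by
  · simp_wf; left; simp [inc]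
  · simp_wf; right; omega

section
variable {R : Type*} [CommSemiring R] (q t : R)

theorem hh_nil : hh q t [] = 1 := by rw [hh]
theorem hh_zero (rs : List ℕ) : hh q t (0 :: rs) = 0 := by rw [hh]
theorem hh_succ (r : ℕ) (rs : List ℕ) : hh q t ((r+1) :: rs) =
    (∑ i ∈ range (r+1), q ^ i) * hh q t (inc rs) + t * hh q t (rs ++ [0]) := by rw [hh]

theorem map_hh {R' : Type*} [CommSemiring R'] (f : R →+* R') (l : List ℕ) :
    f (hh q t l) = hh (f q) (f t) l := by
  induction l using hh.induct with
  | case1 => simp [hh_nil]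
  | case2 rs => simp [hh_zero]
  | case3 r rs ih1 ih2 => rw [hh_succ, hh_succ, map_add, map_mul, map_mul, ih1, ih2, map_sum]; simp

/-- monotonicity -/
theorem hh_mono (l' : List ℕ) : ∀ l : List ℕ, List.Forall₂ (· ≤ ·) l l' →
    ∃ c, hh q t l' = hh q t l + c := by
  induction l' using hh.induct with
  | case1 => intro l h; cases h; exact ⟨0, by simp⟩
  | case2 rs =>
    intro l h
    cases h with
    | cons h1 h2 => 
      rename_i a l
      have : a = 0 := by omega
      subst this
      exact ⟨0, by simp [hh_zero]⟩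
  | case3 r rs ih1 ih2 =>
    intro l h
    cases h with
    | cons h1 h2 =>
      rename_i a l
      rcases a with _ | a
      · exact ⟨_, by rw [hh_zero, zero_add]⟩
      · have m1 : List.Forall₂ (· ≤ ·) (inc l) (inc rs) := by
          rw [inc, inc, List.forall₂_map_left_iff, List.forall₂_map_right_iff]
          exact h2.imp (fun a b hab => Nat.succ_le_succ hab)
        have m2 : List.Forall₂ (· ≤ ·) (l ++ [0]) (rs ++ [0]) :=
          List.rel_append h2 (List.Forall₂.cons (le_refl _) List.Forall₂.nil)
        obtain ⟨c1, hc1⟩ := ih1 _ m1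
        obtain ⟨c2, hc2⟩ := ih2 _ m2
        have h3 : ∃ d, (∑ i ∈ range (r+1), q ^ i) = (∑ i ∈ range (a+1), q ^ i) + d := by
          obtain ⟨k, rfl⟩ : ∃ k, r = a + k := ⟨r - a, by omega⟩
          refine ⟨∑ i ∈ range k, q ^ (a + 1 + i), ?_⟩
          rw [← Finset.sum_range_add]; congr 2; omega
        obtain ⟨d, hd⟩ := h3
        refine ⟨(∑ i ∈ range (a+1), q ^ i) * c1 + d * hh q t (inc l) + d * c1 + t * c2, ?_⟩
        rw [hh_succ, hh_succ, hc1, hc2, hd]; ring

theorem hh_ones_succ (m : ℕ) :
    ∃ c, hh q t (List.replicate (m+1) 1) = hh q t (List.replicate m 1) + c := by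
  have h1 : hh q t (1 :: List.replicate m 0) = hh q t (List.replicate m 1) := by
    rw [show (1:ℕ) = 0 + 1 from rfl, hh_succ]
    have e1 : List.replicate m 0 ++ [0] = 0 :: List.replicate m 0 := by
      rw [← List.replicate_succ, List.replicate_succ']
    have e2 : inc (List.replicate m 0) = List.replicate m 1 := by simp [inc]
    rw [e1, hh_zero, e2]; simp
  obtain ⟨c, hc⟩ := hh_mono q t (List.replicate (m+1) 1) (1 :: List.replicate m 0) (by
    rw [List.replicate_succ]
    refine List.Forall₂.cons (le_refl _) ?_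
    rw [List.forall₂_iff_get]
    refine ⟨by simp, fun i h1 h2 => by simp⟩)
  exact ⟨c, by rw [hc, h1]⟩

theorem hh_ones_le (m n : ℕ) (h : m ≤ n) :
    ∃ c, hh q t (List.replicate n 1) = hh q t (List.replicate m 1) + c := by
  induction n, h using Nat.le_induction with
  | base => exact ⟨0, by simp⟩
  | succ n hn ih =>
    obtain ⟨c, hc⟩ := ih
    obtain ⟨d, hd⟩ := hh_ones_succ q t n
    exact ⟨c + d, by rw [hd, hc]; ring⟩

/-- the inequality behind the theorem -/
theorem hh_one_vertex_le (a b n : ℕ) (h : a + b ≤ n) :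
    ∃ c, hh q t (List.replicate n 1) = hh q t (List.replicate a 1 ++ List.replicate b 0) + c := by
  obtain ⟨c, hc⟩ := hh_ones_le q t (a+b) n h
  obtain ⟨d, hd⟩ := hh_mono q t (List.replicate (a+b) 1)
    (List.replicate a 1 ++ List.replicate b 0) (by
      rw [List.replicate_add]
      refine List.rel_append ?_ ?_
      · rw [List.forall₂_iff_get]; exact ⟨by simp, fun i h1 h2 => by simp⟩
      · rw [List.forall₂_iff_get]; exact ⟨by simp, fun i h1 h2 => by simp⟩)
  exact ⟨d + c, by rw [hc, hd]; ring⟩

end

end Pool.Agent.Helper196Ehr
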