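import Mathlib
import Pool.Agent.Helper196_Ehr.Daha

set_option autoImplicit false
set_option linter.all false

namespace Pool.Agent.Helper196Ehr

open Finset

section maps
variable {F : Type*} [Field F]

/-- swap coordinates `i` and `i+1` -/
def sw (i : ℕ) (x : ℕ → F) : ℕ → F := fun k => if k = i then x (i+1) else if k = i+1 then x i else x k

/-- rotate the coordinates `0, …, N`, the first one comes back at the end multiplied by `t` -/
def rho (N : ℕ) (t : F) (x : ℕ → F) : ℕ → F :=
  fun k => if k < N then x (k+1) else if k = N then t * x 0 else x k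

/-- the inverse rotation -/
def rhoi (N : ℕ) (t : F) (x : ℕ → F) : ℕ → F :=
  fun k => if k = 0 then t⁻¹ * x N else if k ≤ N then x (k-1) else x k

@[simp] theorem sw_self (i : ℕ) (x : ℕ → F) : sw i x i = x (i+1) := by simp [sw]
@[simp] theorem sw_succ (i : ℕ) (x : ℕ → F) : sw i x (i+1) = x i := by simp [sw]
theorem sw_of_ne (i k : ℕ) (x : ℕ → F) (h1 : k ≠ i) (h2 : k ≠ i+1) : sw i x k = x k := by
  simp [sw, h1, h2]

theorem sw_sw (i : ℕ) (x : ℕ → F) : sw i (sw i x) = x := by
  funext k; simp only [sw]; split_ifs <;> simp_all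

theorem sw_braid (i : ℕ) (x : ℕ → F) :
    sw i (sw (i+1) (sw i x)) = sw (i+1) (sw i (sw (i+1) x)) := by
  funext k; simp only [sw]; split_ifs <;> first | rfl | (exfalso; omega) | (congr 1; omega)

theorem sw_far (i j : ℕ) (h : i + 2 ≤ j) (x : ℕ → F) : sw i (sw j x) = sw j (sw i x) := by
  funext k; simp only [sw]; split_ifs <;> first | rfl | (exfalso; omega) | (congr 1; omega)

theorem rho_sw (N : ℕ) (t : F) (i : ℕ) (h : i + 1 < N) (x : ℕ → F) :
    rho N t (sw (i+1) x) = sw i (rho N t x) := by
  funext k; simp only [sw, rho]; split_ifs <;> first | rfl | (exfalso; omega) | (congr 1; omega)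

theorem rho_rho_sw (N : ℕ) (t : F) (h : 0 < N) (x : ℕ → F) :
    rho N t (rho N t (sw 0 x)) = sw (N-1) (rho N t (rho N t x)) := by
  funext k; simp only [sw, rho]
  split_ifs <;> first | rfl | (exfalso; omega) | (congr 1; omega) | (congr 2; omega)

theorem rho_rhoi (N : ℕ) (t : F) (ht : t ≠ 0) (x : ℕ → F) : rho N t (rhoi N t x) = x := by
  funext k; simp only [rho, rhoi]
  split_ifs with h1 h2 h3 h4 h5 h6
  all_goals first
    | omega
    | rfl
    | (simp only [Nat.add_sub_cancel])
    | (rw [← mul_assoc, mul_inv_cancel₀ ht, one_mul, h2])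
    | skip
  all_goals first | omega | (simp_all) | skip

theorem rhoi_rho (N : ℕ) (t : F) (ht : t ≠ 0) (x : ℕ → F) : rhoi N t (rho N t x) = x := by
  funext k; simp only [rho, rhoi]
  by_cases h0 : k = 0
  · subst h0; simp [ht]
  · rw [if_neg h0]
    by_cases h1 : k ≤ N
    · rw [if_pos h1, if_pos (by omega)]; congr 1; omega
    · rw [if_neg h1, if_neg (by omega), if_neg (by omega)]

/-- genericity of a point -/
def Good (N : ℕ) (t : F) (x : ℕ → F) : Prop :=
  ∀ i j, i ≤ N → j ≤ N → i ≠ j → ∀ m : ℤ, x i ≠ t ^ m * x j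

theorem Good.sw {N : ℕ} {t : F} {x : ℕ → F} (h : Good N t x) (i : ℕ) (hi : i < N) :
    Good N t (sw i x) := by
  -- the index permutation
  have key : ∀ k, k ≤ N → ∃ k', k' ≤ N ∧ Helper196Ehr.sw i x k = x k' ∧
      (k' = if k = i then i + 1 else if k = i + 1 then i else k) := by
    intro k hk
    refine ⟨if k = i then i + 1 else if k = i + 1 then i else k, ?_, ?_, rfl⟩
    · split_ifs <;> omega
    · simp only [Helper196Ehr.sw]; split_ifs <;> rfl
  intro a b ha hb hab m
  obtain ⟨a', ha', e1, f1⟩ := key a ha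
  obtain ⟨b', hb', e2, f2⟩ := key b hb
  rw [e1, e2]
  apply h a' b' ha' hb'
  rw [f1, f2]; split_ifs <;> omega

theorem Good.rho {N : ℕ} {t : F} (ht : t ≠ 0) {x : ℕ → F} (h : Good N t x) :
    Good N t (rho N t x) := by
  have key : ∀ k, k ≤ N → ∃ k', k' ≤ N ∧ (∃ e : ℤ, Helper196Ehr.rho N t x k = t ^ e * x k') ∧
      (k' = if k < N then k + 1 else 0) := by
    intro k hk
    by_cases h1 : k < N
    · exact ⟨k+1, by omega, ⟨0, by simp [Helper196Ehr.rho, h1]⟩, by simp [h1]⟩
    · have : k = N := by omega
      subst this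
      exact ⟨0, by omega, ⟨1, by simp [Helper196Ehr.rho]⟩, by simp⟩
  intro a b ha hb hab m
  obtain ⟨a', ha', ⟨e, e1⟩, f1⟩ := key a ha
  obtain ⟨b', hb', ⟨e', e2⟩, f2⟩ := key b hb
  rw [e1, e2]
  intro hc
  apply h a' b' ha' hb' (by rw [f1, f2]; split_ifs <;> omega) (m + e' - e)
  have h1 : t ^ e ≠ 0 := zpow_ne_zero _ ht
  have h3 : t ^ e * x a' = t ^ e * (t ^ (m + e' - e) * x b') := by
    rw [hc, zpow_sub₀ ht, zpow_add₀ ht]; field_simp
  exact mul_left_cancel₀ h1 h3

theorem Good.rhoi {N : ℕ} {t : F} (ht : t ≠ 0) {x : ℕ → F} (h : Good N t x) :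
    Good N t (rhoi N t x) := by
  have key : ∀ k, k ≤ N → ∃ k', k' ≤ N ∧ (∃ e : ℤ, Helper196Ehr.rhoi N t x k = t ^ e * x k') ∧
      (k' = if k = 0 then N else k - 1) := by
    intro k hk
    by_cases h1 : k = 0
    · exact ⟨N, by omega, ⟨-1, by simp [Helper196Ehr.rhoi, h1]⟩, by simp [h1]⟩
    · exact ⟨k-1, by omega, ⟨0, by simp [Helper196Ehr.rhoi, h1, hk]⟩, by simp [h1]⟩
  intro a b ha hb hab m
  obtain ⟨a', ha', ⟨e, e1⟩, f1⟩ := key a ha
  obtain ⟨b', hb', ⟨e', e2⟩, f2⟩ := key b hb
  rw [e1, e2]
  intro hc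
  apply h a' b' ha' hb' (by rw [f1, f2]; split_ifs <;> omega) (m + e' - e)
  have h1 : t ^ e ≠ 0 := zpow_ne_zero _ ht
  have h3 : t ^ e * x a' = t ^ e * (t ^ (m + e' - e) * x b') := by
    rw [hc, zpow_sub₀ ht, zpow_add₀ ht]; field_simp
  exact mul_left_cancel₀ h1 h3

end maps

section ops
variable {F : Type*} [Field F] (N : ℕ) (q t : F)

/-- the generic points -/
def Pt : Type _ := {x : ℕ → F // Good N t x}

variable {N t}

/-- `sw` on generic points -/
def swP (i : ℕ) (x : Pt (F := F) N t) : Pt (F := F) N t :=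
  if h : i < N then ⟨sw i x.1, x.2.sw i h⟩ else x

theorem swP_val (i : ℕ) (hi : i < N) (x : Pt (F := F) N t) : (swP i x).1 = sw i x.1 := by
  simp [swP, hi]

/-- rotation on generic points -/
def rhoP (ht : t ≠ 0) (x : Pt (F := F) N t) : Pt (F := F) N t := ⟨rho N t x.1, x.2.rho ht⟩

theorem rhoP_val (ht : t ≠ 0) (x : Pt (F := F) N t) : (rhoP ht x).1 = rho N t x.1 := rfl

/-- inverse rotation on generic points -/
def rhoiP (ht : t ≠ 0) (x : Pt (F := F) N t) : Pt (F := F) N t := ⟨rhoi N t x.1, x.2.rhoi ht⟩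

theorem Pt.ne (x : Pt (F := F) N t) (i j : ℕ) (hi : i ≤ N) (hj : j ≤ N) (h : i ≠ j) :
    x.1 i - x.1 j ≠ 0 := by
  have := x.2 i j hi hj h 0
  rw [zpow_zero, one_mul] at this
  exact sub_ne_zero.2 this

/-- first coefficient of the Demazure-Lusztig operator -/
def ca (u v : F) : F := (q - 1) * u / (v - u)
/-- second coefficient of the Demazure-Lusztig operator -/
def cb (u v : F) : F := (v - q * u) / (v - u)

/-- Demazure-Lusztig operator -/
def Top (i : ℕ) : Module.End F (Pt (F := F) N t → F) where
  toFun f x := ca q (x.1 i) (x.1 (i+1)) * f x + cb q (x.1 i) (x.1 (i+1)) * f (swP i x)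
  map_add' f g := by funext x; simp only [Pi.add_apply]; ring
  map_smul' c f := by funext x; simp only [Pi.smul_apply, smul_eq_mul, RingHom.id_apply]; ring

/-- composition with a map of the points -/
def compOp (r : Pt (F := F) N t → Pt (F := F) N t) : Module.End F (Pt (F := F) N t → F) where
  toFun f x := f (r x)
  map_add' f g := by funext x; rfl
  map_smul' c f := by funext x; rfl

/-- multiplication by a function -/
def mulOp (g : Pt (F := F) N t → F) : Module.End F (Pt (F := F) N t → F) where
  toFun f x := g x * f x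
  map_add' f g := by funext x; simp only [Pi.add_apply]; ring
  map_smul' c f := by funext x; simp only [Pi.smul_apply, smul_eq_mul, RingHom.id_apply]; ring

theorem Top_apply (i : ℕ) (f : Pt (F := F) N t → F) (x : Pt (F := F) N t) :
    Top q i f x = ca q (x.1 i) (x.1 (i+1)) * f x + cb q (x.1 i) (x.1 (i+1)) * f (swP i x) := rfl

theorem compOp_apply (r : Pt (F := F) N t → Pt (F := F) N t) (f : Pt (F := F) N t → F)
    (x : Pt (F := F) N t) : compOp r f x = f (r x) := rfl

theorem mulOp_apply (g f : Pt (F := F) N t → F) (x : Pt (F := F) N t) :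
    mulOp g f x = g x * f x := rfl

theorem swP_swP (i : ℕ) (x : Pt (F := F) N t) : swP i (swP i x) = x := by
  by_cases h : i < N
  · apply Subtype.ext; rw [swP_val i h, swP_val i h, sw_sw]
  · simp [swP, h]

theorem scal_apply (c : F) (f : Pt (F := F) N t → F) (x : Pt (F := F) N t) :
    (algebraMap F (Module.End F (Pt (F := F) N t → F)) c) f x = c * f x := by
  simp [Module.algebraMap_end_apply]

/-- the polynomial-type representation on functions on generic points -/
def rep (ht : t ≠ 0) :
    Daha (Module.End F (Pt (F := F) N t → F)) N (algebraMap F _ q) (algebraMap F _ t) where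
  T := Top q
  P := compOp (rhoP ht)
  Pi := compOp (rhoiP ht)
  X i := mulOp (fun x => x.1 i)
  cq x := Algebra.commutes q x
  ct x := Algebra.commutes t x
  quad i hi := by
    apply LinearMap.ext; intro f; funext x
    have h1 := x.ne (i+1) i (by omega) (by omega) (by omega)
    have h2 := x.ne i (i+1) (by omega) (by omega) (by omega)
    simp only [Module.End.mul_apply, LinearMap.add_apply, LinearMap.sub_apply, Pi.add_apply,
      Pi.sub_apply, sub_mul, scal_apply, Top_apply, swP_swP, swP_val i hi, sw_self, sw_succ,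
      Module.End.one_apply, ca, cb]
    field_simp
    ring
  braid i hi := by
    apply LinearMap.ext; intro f; funext x
    have h01 := x.ne (i+1) i (by omega) (by omega) (by omega)
    have h10 := x.ne i (i+1) (by omega) (by omega) (by omega)
    have h02 := x.ne (i+2) i (by omega) (by omega) (by omega)
    have h20 := x.ne i (i+2) (by omega) (by omega) (by omega)
    have h12 := x.ne (i+2) (i+1) (by omega) (by omega) (by omega)
    have h21 := x.ne (i+1) (i+2) (by omega) (by omega) (by omega)
    have hi' : i < N := by omega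
    have e1 : swP i (swP (i+1) (swP i x)) = swP (i+1) (swP i (swP (i+1) x)) := by
      apply Subtype.ext
      rw [swP_val i hi', swP_val (i+1) hi, swP_val i hi', swP_val (i+1) hi, swP_val i hi',
        swP_val (i+1) hi, sw_braid]
    have a1 : sw i x.1 (i+2) = x.1 (i+2) := sw_of_ne _ _ _ (by omega) (by omega)
    have a2 : sw (i+1) x.1 i = x.1 i := sw_of_ne _ _ _ (by omega) (by omega)
    have a3 : sw (i+1) (sw i x.1) i = sw i x.1 i := sw_of_ne _ _ _ (by omega) (by omega)
    have a4 : sw i (sw (i+1) x.1) (i+2) = sw (i+1) x.1 (i+2) := sw_of_ne _ _ _ (by omega) (by omega)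
    have a5 : sw (i+1) x.1 (i+1) = x.1 (i+2) := sw_self _ _
    have a6 : sw (i+1) x.1 (i+2) = x.1 (i+1) := sw_succ _ _
    have a7 : sw (i+1) (sw i x.1) (i+1) = sw i x.1 (i+2) := sw_self _ _
    have a8 : sw (i+1) (sw i x.1) (i+2) = sw i x.1 (i+1) := sw_succ _ _
    simp only [Module.End.mul_apply, Top_apply, swP_swP, swP_val i hi', swP_val (i+1) hi,
      sw_self, sw_succ, a1, a2, a3, a4, a5, a6, a7, a8, e1, ca, cb, add_assoc, Nat.reduceAdd]
    field_simp
    ring
  far i j hij hj := by
    apply LinearMap.ext; intro f; funext x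
    have hi : i < N := by omega
    have e1 : swP i (swP j x) = swP j (swP i x) := by
      apply Subtype.ext
      rw [swP_val i hi, swP_val j hj, swP_val j hj, swP_val i hi, sw_far i j hij]
    have a1 : sw i x.1 j = x.1 j := sw_of_ne _ _ _ (by omega) (by omega)
    have a2 : sw i x.1 (j+1) = x.1 (j+1) := sw_of_ne _ _ _ (by omega) (by omega)
    have a3 : sw j x.1 i = x.1 i := sw_of_ne _ _ _ (by omega) (by omega)
    have a4 : sw j x.1 (i+1) = x.1 (i+1) := sw_of_ne _ _ _ (by omega) (by omega)
    simp only [Module.End.mul_apply, Top_apply, swP_val i hi, swP_val j hj, a1, a2, a3, a4, e1]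
    ring
  PT i hi := by
    apply LinearMap.ext; intro f; funext x
    have hi' : i < N := by omega
    have e1 : swP i (rhoP ht x) = rhoP ht (swP (i+1) x) := by
      apply Subtype.ext
      rw [swP_val i hi', rhoP_val, rhoP_val, swP_val (i+1) hi, rho_sw N t i hi]
    have a1 : rho N t x.1 i = x.1 (i+1) := by simp [rho, hi']
    have a2 : rho N t x.1 (i+1) = x.1 (i+1+1) := by simp [rho, hi]
    simp only [Module.End.mul_apply, Top_apply, compOp_apply, e1, rhoP_val, a1, a2]
  TPP hN := by
    apply LinearMap.ext; intro f; funext x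
    have e1 : rhoP ht (rhoP ht (swP 0 x)) = swP (N-1) (rhoP ht (rhoP ht x)) := by
      apply Subtype.ext
      rw [swP_val (N-1) (show N - 1 < N by omega), rhoP_val, rhoP_val, rhoP_val, rhoP_val,
        swP_val 0 hN, rho_rho_sw N t hN]
    have a1 : rho N t (rho N t x.1) (N-1) = t * x.1 0 := by
      have h1 : N - 1 + 1 = N := by omega
      simp [rho, hN, h1]
    have a2 : rho N t (rho N t x.1) (N-1+1) = t * x.1 1 := by
      have h1 : N - 1 + 1 = N := by omega
      rw [h1]; simp [rho, hN]
    simp only [Module.End.mul_apply, Top_apply, compOp_apply, e1, rhoP_val, a1, a2]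
    have h1 := x.ne (0+1) 0 (by omega) (by omega) (by omega)
    have h2 : t * x.1 1 - t * x.1 0 ≠ 0 := by
      rw [← mul_sub]; exact mul_ne_zero ht h1
    have c1 : ca q (t * x.1 0) (t * x.1 1) = ca q (x.1 0) (x.1 1) := by
      simp only [ca, zero_add] at *; rw [← mul_sub]; field_simp
    have c2 : cb q (t * x.1 0) (t * x.1 1) = cb q (x.1 0) (x.1 1) := by
      simp only [cb, zero_add] at *; rw [← mul_sub]; field_simp
    rw [c1, c2]
  TX i hi := by
    apply LinearMap.ext; intro f; funext x
    have h1 := x.ne (i+1) i (by omega) (by omega) (by omega)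
    simp only [Module.End.mul_apply, LinearMap.sub_apply, Pi.sub_apply, sub_mul, scal_apply,
      Top_apply, swP_val i hi, sw_self, Module.End.one_apply, mulOp_apply, ca, cb]
    field_simp
    ring
  TX' i hi := by
    apply LinearMap.ext; intro f; funext x
    have h1 := x.ne (i+1) i (by omega) (by omega) (by omega)
    simp only [Module.End.mul_apply, LinearMap.sub_apply, Pi.sub_apply, scal_apply,
      Top_apply, swP_val i hi, sw_succ, Module.End.one_apply, mulOp_apply, ca, cb]
    field_simp
    ring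
  TXfar i j hi hj h1 h2 := by
    apply LinearMap.ext; intro f; funext x
    have a1 : sw i x.1 j = x.1 j := sw_of_ne _ _ _ h1 h2
    simp only [Module.End.mul_apply, Top_apply, swP_val i hi, mulOp_apply, a1]
    ring
  XX i j _ _ := by
    apply LinearMap.ext; intro f; funext x
    simp only [Module.End.mul_apply, mulOp_apply]; ring
  PX i hi := by
    apply LinearMap.ext; intro f; funext x
    have a1 : rho N t x.1 i = x.1 (i+1) := by simp [rho, hi]
    simp only [Module.End.mul_apply, mulOp_apply, compOp_apply, rhoP_val, a1]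
  PXN := by
    apply LinearMap.ext; intro f; funext x
    have a1 : rho N t x.1 N = t * x.1 0 := by simp [rho]
    simp only [Module.End.mul_apply, mulOp_apply, compOp_apply, scal_apply, rhoP_val, a1]; ring
  PPi := by
    apply LinearMap.ext; intro f; funext x
    simp only [Module.End.mul_apply, compOp_apply, Module.End.one_apply]
    congr 1
    apply Subtype.ext
    simp only [rhoP, rhoiP, rhoi_rho N t ht]

end ops

end Pool.Agent.Helper196Ehr
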