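import Mathlib
import Pool.Agent.Helper196_Ehr.Rep
import Pool.Agent.Helper196_Ehr.HRec

set_option autoImplicit false
set_option linter.all false

namespace Pool.Agent.Helper196Ehr

open Finset

section general
variable {F : Type*} [Field F] {N : ℕ} {q t : F}

/-- functions on generic points -/
abbrev VV (F : Type*) [Field F] (N : ℕ) (t : F) : Type _ := Pt (F := F) N t → F

/-- the type of representations used -/
abbrev DH (F : Type*) [Field F] (N : ℕ) (q t : F) : Type _ :=
  Daha (Module.End F (VV F N t)) N (algebraMap F _ q) (algebraMap F _ t)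

theorem chain_fix (H : DH F N q t) (m j : ℕ) (G : VV F N t)
    (h : ∀ k, j ≤ k → k < j + m → H.T k G = G) : chain H.T m j G = G := by
  induction m with
  | zero => rw [chain_zero]; rfl
  | succ m ih =>
    rw [chain_succ', Module.End.mul_apply, ih (fun k h1 h2 => h k h1 (by omega)),
      h _ (by omega) (by omega)]

end general

section ev
variable {F : Type*} [Field F] {N : ℕ} {q t : F} (ht : t ≠ 0)

theorem rep_T (i : ℕ) : (rep (N := N) q ht).T i = Top q i := rfl
theorem rep_P : (rep (N := N) q ht).P = compOp (rhoP ht) := rfl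
theorem rep_X (i : ℕ) : (rep (N := N) q ht).X i = mulOp (fun x => x.1 i) := rfl

variable (x0 : Pt (F := F) N t) (hx : ∀ i, i ≤ N → x0.1 i = q ^ i)

include hx in
theorem ev_T (i : ℕ) (hi : i < N) (G : VV F N t) : (rep q ht).T i G x0 = G x0 := by
  have h1 := x0.ne (i+1) i (by omega) (by omega) (by omega)
  rw [rep_T, Top_apply, hx i (by omega), hx (i+1) (by omega), ca, cb]
  rw [hx i (by omega), hx (i+1) (by omega)] at h1
  have h2 : q ^ (i+1) - q * q ^ i = 0 := by ring
  have h3 : (q - 1) * q ^ i = q ^ (i+1) - q ^ i := by ring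
  rw [h2, h3, div_self h1]; ring

include hx in
theorem ev_Tt (i : ℕ) (hi : i < N) (G : VV F N t) : (rep q ht).Tt i G x0 = q * G x0 := by
  have h1 := ev_T ht x0 hx i hi G
  rw [Daha.Tt, LinearMap.sub_apply, LinearMap.sub_apply, Pi.sub_apply, Pi.sub_apply, h1,
    scal_apply, Module.End.one_apply]; ring

include hx in
theorem ev_chainT (m j : ℕ) (h : j + m ≤ N) (G : VV F N t) :
    chain (rep q ht).T m j G x0 = G x0 := by
  induction m with
  | zero => rw [chain_zero]; rfl
  | succ m ih =>
    rw [chain_succ', Module.End.mul_apply, ev_T ht x0 hx _ (by omega), ih (by omega)]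

include hx in
theorem ev_chainTt (m j : ℕ) (h : j + m ≤ N) (G : VV F N t) :
    chain (rep q ht).Tt m j G x0 = q ^ m * G x0 := by
  induction m with
  | zero => rw [chain_zero, pow_zero, one_mul]; rfl
  | succ m ih =>
    rw [chain_succ', Module.End.mul_apply, ev_Tt ht x0 hx _ (by omega), ih (by omega)]; ring

include hx in
theorem ev_X (j : ℕ) (h : j ≤ N) (G : VV F N t) :
    (rep q ht).X j G x0 = q ^ j * G x0 := by
  rw [rep_X, mulOp_apply, hx j h]

include hx in
theorem ev_Y (j : ℕ) (hj : j ≤ N) (G : VV F N t)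
    (hG : ∀ k, j ≤ k → k < N → (rep q ht).T k G = G) :
    (rep q ht).Y j G x0 = q ^ j * (rep q ht).P G x0 := by
  rw [Daha.Y, Daha.Z, Module.End.mul_apply, Module.End.mul_apply, Module.End.mul_apply,
    chain_fix (rep q ht) _ _ G (fun k h1 h2 => hG k h1 (by omega)),
    ev_chainTt ht x0 hx _ _ (by omega), ev_X ht x0 hx 0 (by omega)]
  simp

theorem sum_apply' {ι : Type*} (s : Finset ι) (f : ι → Module.End F (VV F N t)) (G : VV F N t)
    (x : Pt (F := F) N t) : (∑ j ∈ s, f j) G x = ∑ j ∈ s, f j G x := by
  rw [LinearMap.sum_apply, Finset.sum_apply]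

theorem scal_ite (k j : ℕ) (y : Module.End F (VV F N t)) (G : VV F N t) (x : Pt (F := F) N t) :
    ((if j < k then (algebraMap F (Module.End F (VV F N t)) t) else 1) * y) G x
      = (if j < k then t else 1) * y G x := by
  split_ifs
  · rw [Module.End.mul_apply, scal_apply]
  · rw [one_mul, one_mul]

include hx in
theorem ev_D (k : ℕ) (hk : k ≤ N) (G : VV F N t)
    (hG : ∀ j, k ≤ j → j < N → (rep q ht).T j G = G) :
    (rep q ht).D k G x0 = t * (rep q ht).S G x0
      + (1 - t) * (∑ j ∈ range (N+1), if j < k then 0 else q ^ j) * (rep q ht).P G x0 := by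
  rw [Daha.D, Daha.S, sum_apply', sum_apply', mul_assoc, Finset.sum_mul, Finset.mul_sum,
    Finset.mul_sum, ← Finset.sum_add_distrib]
  refine Finset.sum_congr rfl fun j hj => ?_
  have hj' := Finset.mem_range.1 hj
  rw [scal_ite]
  split_ifs with h
  · ring
  · rw [ev_Y ht x0 hx j (by omega) G (fun i h1 h2 => hG i (by omega) h2)]; ring

theorem geom_part (N k : ℕ) (hk : k ≤ N) :
    (q - 1) * (∑ j ∈ range (N+1), if j < k then 0 else q ^ j) = q ^ (N+1) - q ^ k := by
  have h : ∑ j ∈ range (N+1), (if j < k then 0 else q ^ j)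
      = ∑ j ∈ range (N+1), q ^ j - ∑ j ∈ range k, q ^ j := by
    rw [eq_sub_iff_add_eq]
    have h2 : ∑ j ∈ range k, q ^ j = ∑ j ∈ range (N+1), if j < k then q ^ j else 0 := by
      rw [← Finset.sum_filter]
      congr 1
      ext j; simp; omega
    rw [h2, ← Finset.sum_add_distrib]
    refine Finset.sum_congr rfl fun j _ => ?_
    split_ifs <;> simp
  rw [h, mul_sub, mul_comm _ (∑ j ∈ range (N+1), q ^ j), mul_comm _ (∑ j ∈ range k, q ^ j),
    geom_sum_mul, geom_sum_mul]
  ring

/-- the vectors `D_{r_1} ⋯ D_{r_z} 1` -/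
noncomputable def vec (q : F) (ht : t ≠ 0) : List ℕ → VV F N t
  | [] => fun _ => 1
  | r :: rs => (q - 1) • (rep q ht).D r (vec q ht rs)

theorem T_one (j : ℕ) (hj : j < N) :
    (rep (N := N) q ht).T j (fun _ => (1:F)) = (fun _ => (1:F)) := by
  funext x
  have h1 := x.ne (j+1) j (by omega) (by omega) (by omega)
  rw [rep_T, Top_apply, ca, cb]
  field_simp
  ring

theorem T_vec (j : ℕ) (hj : j < N) (rs : List ℕ) (h : ∀ r ∈ rs, r ≤ j) :
    (rep q ht).T j (vec (N := N) q ht rs) = vec q ht rs := by
  induction rs with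
  | nil => exact T_one ht j hj
  | cons r rs ih =>
    have h1 := (rep (N := N) q ht).TD r j (h r (by simp)) hj
    have h2 := ih (fun s hs => h s (by simp [hs]))
    rw [vec, map_smul, ← Module.End.mul_apply, h1, Module.End.mul_apply, h2]

theorem P_vec (rs : List ℕ) (h : ∀ r ∈ rs, r ≤ N) :
    (rep q ht).P (vec (N := N) q ht rs) = vec q ht (inc rs) := by
  induction rs with
  | nil => rfl
  | cons r rs ih =>
    have h1 := (rep (N := N) q ht).PD r (h r (by simp))
    have h2 := ih (fun s hs => h s (by simp [hs]))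
    rw [vec, map_smul, ← Module.End.mul_apply, h1, Module.End.mul_apply, h2]
    rfl

theorem S_vec (rs : List ℕ) :
    (q - 1) • (rep q ht).S (vec (N := N) q ht rs) = vec q ht (rs ++ [0]) := by
  induction rs with
  | nil => rw [vec, List.nil_append, vec, vec, Daha.D_zero]
  | cons r rs ih =>
    have h1 := (rep (N := N) q ht).SD r
    rw [vec, map_smul, ← Module.End.mul_apply, h1.eq, Module.End.mul_apply, ← map_smul, ih]
    rfl

include hx in
theorem vec_rec (hq : q ^ (N+1) = 1) (r : ℕ) (rs : List ℕ) (hr : r ≤ N) (h : ∀ s ∈ rs, s ≤ r) :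
    vec (N := N) q ht (r :: rs) x0 = t * vec q ht (rs ++ [0]) x0
      + (1 - t) * (1 - q ^ r) * vec q ht (inc rs) x0 := by
  have hG : ∀ j, r ≤ j → j < N → (rep q ht).T j (vec (N := N) q ht rs) = vec q ht rs :=
    fun j h1 h2 => T_vec ht j h2 rs (fun s hs => (h s hs).trans h1)
  have e1 := ev_D ht x0 hx r hr (vec q ht rs) hG
  have e2 := P_vec (N := N) (q := q) ht rs (fun s hs => (h s hs).trans hr)
  have e3 := congrFun (S_vec (N := N) (q := q) ht rs) x0
  have e4 := geom_part (q := q) N r hr
  rw [vec, Pi.smul_apply, smul_eq_mul, e1, e2, ← e3, Pi.smul_apply, smul_eq_mul]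
  rw [hq] at e4
  calc _ = t * ((q - 1) * (rep q ht).S (vec q ht rs) x0)
      + (1 - t) * ((q - 1) * (∑ j ∈ range (N+1), if j < r then 0 else q ^ j))
        * vec q ht (inc rs) x0 := by ring
    _ = _ := by rw [e4]

include hx in
theorem vec_zero (hq : q ^ (N+1) = 1) (rs : List ℕ) (h : ∀ s ∈ rs, s = 0) :
    vec (N := N) q ht (0 :: rs) x0 = 0 := by
  have hG : ∀ j, 0 ≤ j → j < N → (rep q ht).T j (vec (N := N) q ht rs) = vec q ht rs :=
    fun j h1 h2 => T_vec ht j h2 rs (fun s hs => by rw [h s hs]; exact h1)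
  have e4 := geom_part (q := q) N 0 (by omega)
  rw [hq, pow_zero, sub_self] at e4
  rw [vec, Pi.smul_apply, smul_eq_mul, Daha.D_zero, Daha.S, sum_apply', Finset.mul_sum]
  have : ∀ j ∈ range (N+1), (q - 1) * (rep q ht).Y j (vec q ht rs) x0
      = ((q - 1) * (if j < 0 then 0 else q ^ j)) * (rep q ht).P (vec q ht rs) x0 := by
    intro j hj
    have hj' := Finset.mem_range.1 hj
    rw [ev_Y ht x0 hx j (by omega) _ (fun k h1 h2 => hG k (by omega) h2)]
    simp; ring
  rw [Finset.sum_congr rfl this, ← Finset.sum_mul, ← Finset.mul_sum, e4, zero_mul]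

include hx in
/-- the evaluation of the vectors is given by the recursive polynomials -/
theorem vec_eval (hq : q ^ (N+1) = 1) (l : List ℕ) : ∀ (hs : l.Pairwise (· ≥ ·))
    (hb : ∀ r ∈ l, r + l.length ≤ N + 1),
    vec (N := N) q ht l x0 = ((1 - q) * (1 - t)) ^ l.length * hh q t l := by
  induction l using hh.induct with
  | case1 => intro _ _; simp [vec, hh_nil]
  | case2 rs =>
    intro hs hb
    rw [List.pairwise_cons] at hs
    rw [vec_zero ht x0 hx hq rs (fun s h => by have := hs.1 s h; omega), hh_zero, mul_zero]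
  | case3 r rs ih1 ih2 =>
    intro hs hb
    rw [List.pairwise_cons] at hs
    have hr := hb (r+1) (by simp)
    simp only [List.length_cons] at hr
    rw [vec_rec ht x0 hx hq (r+1) rs (by omega) (fun s h => hs.1 s h), hh_succ]
    have i1 := ih1 (by
        rw [inc, List.pairwise_map]
        exact hs.2.imp (fun h => Nat.succ_le_succ h)) (by
        intro s h
        rw [inc, List.mem_map] at h
        obtain ⟨s', h', rfl⟩ := h
        have := hs.1 s' h'
        simp only [inc, List.length_map]; omega)
    have i2 := ih2 (by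
        rw [List.pairwise_append]
        refine ⟨hs.2, by simp, fun a _ b hb => ?_⟩
        rw [List.mem_singleton] at hb; subst hb; exact Nat.zero_le _) (by
        intro s h
        rw [List.mem_append, List.mem_singleton] at h
        simp only [List.length_append, List.length_singleton]
        rcases h with h | h
        · have := hs.1 s h; omega
        · omega)
    rw [i1, i2]
    have g : (1 - q) * ∑ i ∈ range (r+1), q ^ i = 1 - q ^ (r+1) := by
      have := geom_sum_mul q (r+1); linear_combination -this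
    simp only [inc, List.length_map, List.length_append, List.length_cons, List.length_nil,
      zero_add]
    rw [← g]; ring

end ev

end Pool.Agent.Helper196Ehr
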