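import Mathlib

set_option autoImplicit false
set_option linter.all false

namespace Pool.Agent.Helper196Ehr

open Finset

/-- swapping the order in a triple convolution -/
theorem anti_swap {R : Type*} [AddCommMonoid R] (m : ℕ) (f : ℕ → ℕ → ℕ → R) :
    ∑ p ∈ antidiagonal m, ∑ r ∈ antidiagonal p.2, f p.1 r.1 r.2
      = ∑ r ∈ antidiagonal m, ∑ p ∈ antidiagonal r.2, f p.1 r.1 p.2 := by
  rw [Finset.sum_sigma', Finset.sum_sigma']
  refine Finset.sum_nbij' (fun x => ⟨(x.2.1, x.1.1 + x.2.2), (x.1.1, x.2.2)⟩)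
    (fun x => ⟨(x.2.1, x.1.1 + x.2.2), (x.1.1, x.2.2)⟩) ?_ ?_ ?_ ?_ ?_
  · rintro ⟨⟨a, b⟩, ⟨c, d⟩⟩ h
    simp only [Finset.mem_sigma, Finset.HasAntidiagonal.mem_antidiagonal] at h ⊢
    obtain ⟨h1, h2⟩ := h
    refine ⟨by omega, ?_⟩
    trivial
  · rintro ⟨⟨a, b⟩, ⟨c, d⟩⟩ h
    simp only [Finset.mem_sigma, Finset.HasAntidiagonal.mem_antidiagonal] at h ⊢
    obtain ⟨h1, h2⟩ := h
    refine ⟨by omega, ?_⟩
    trivial
  · rintro ⟨⟨a, b⟩, ⟨c, d⟩⟩ h
    simp only [Finset.mem_sigma, Finset.HasAntidiagonal.mem_antidiagonal] at h ⊢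
    obtain ⟨h1, h2⟩ := h
    subst h2
    rfl
  · rintro ⟨⟨a, b⟩, ⟨c, d⟩⟩ h
    simp only [Finset.mem_sigma, Finset.HasAntidiagonal.mem_antidiagonal] at h ⊢
    obtain ⟨h1, h2⟩ := h
    subst h2
    rfl
  · rintro ⟨⟨a, b⟩, ⟨c, d⟩⟩ h
    rfl

/-- Sum over the ways to distribute `m` among the vertices of the list (weights `om`) and the
sink (weights `g`). -/
def rsum {R : Type*} [CommRing R] (om g : ℕ → R) : List ℕ → ℕ → (List ℕ → R) → R
  | [], m, Φ => g m * Φ []
  | c :: cs, m, Φ => ∑ p ∈ antidiagonal m, om p.1 * rsum om g cs p.2 (fun l => Φ ((c + p.1) :: l))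

/-- Weighted number of flows: the first entry of the list is the supply of the top vertex. -/
def SSn {R : Type*} [CommRing R] (om g : ℕ → R) : ℕ → List ℕ → R
  | 0, _ => 1
  | _ + 1, [] => 1
  | n + 1, m :: cs => rsum om g cs m (SSn om g n)

section
variable {R : Type*} [CommRing R] (om g : ℕ → R)

theorem rsum_congr (cs : List ℕ) : ∀ (m : ℕ) (Φ Φ' : List ℕ → R)
    (h : ∀ l, l.length = cs.length → Φ l = Φ' l), rsum om g cs m Φ = rsum om g cs m Φ' := by
  induction cs with
  | nil => intro m Φ Φ' h; rw [rsum, rsum, h [] rfl]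
  | cons c cs ih =>
    intro m Φ Φ' h
    rw [rsum, rsum]
    refine Finset.sum_congr rfl fun p _ => ?_
    rw [ih p.2 _ _ (fun l hl => h _ (by simp [hl]))]

/-- maps commuting with the constants commute with `rsum` -/
theorem rsum_map {R' : Type*} [CommRing R'] (om' g' : ℕ → R') (f : R →+ R') 
    (h1 : ∀ k x, f (om k * x) = om' k * f x) (h2 : ∀ k x, f (g k * x) = g' k * f x)
    (cs : List ℕ) : ∀ (m : ℕ) (Φ : List ℕ → R),
    f (rsum om g cs m Φ) = rsum om' g' cs m (fun l => f (Φ l)) := by
  induction cs with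
  | nil => intro m Φ; rw [rsum, rsum, h2]
  | cons c cs ih =>
    intro m Φ
    rw [rsum, rsum, map_sum]
    refine Finset.sum_congr rfl fun p _ => ?_
    rw [h1, ih]

theorem rsum_conv (y : R) (cs : List ℕ) : ∀ (m : ℕ) (Φ : List ℕ → R),
    rsum om (fun s => ∑ p ∈ antidiagonal s, om p.1 * y ^ p.1 * g p.2) cs m Φ
      = ∑ p ∈ antidiagonal m, om p.1 * y ^ p.1 * rsum om g cs p.2 Φ := by
  induction cs with
  | nil =>
    intro m Φ
    simp only [rsum]
    rw [Finset.sum_mul]
    refine Finset.sum_congr rfl fun p _ => ?_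
    ring
  | cons c cs ih =>
    intro m Φ
    simp only [rsum]
    have h1 : ∀ p ∈ antidiagonal m, om p.1 * rsum om
        (fun s => ∑ p ∈ antidiagonal s, om p.1 * y ^ p.1 * g p.2) cs p.2
          (fun l => Φ ((c + p.1) :: l))
        = ∑ r ∈ antidiagonal p.2, om p.1 * (om r.1 * y ^ r.1 *
            rsum om g cs r.2 (fun l => Φ ((c + p.1) :: l))) := by
      intro p _
      rw [ih, Finset.mul_sum]
    rw [Finset.sum_congr rfl h1,
      anti_swap m (fun a b d => om a * (om b * y ^ b * rsum om g cs d (fun l => Φ ((c + a) :: l))))]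
    refine Finset.sum_congr rfl fun r _ => ?_
    rw [Finset.mul_sum]
    refine Finset.sum_congr rfl fun p _ => ?_
    ring

theorem rsum_append (c : ℕ) (cs : List ℕ) : ∀ (m : ℕ) (Φ : List ℕ → R),
    rsum om g (cs ++ [c]) m Φ
      = ∑ p ∈ antidiagonal m, om p.1 * rsum om g cs p.2 (fun l => Φ (l ++ [c + p.1])) := by
  induction cs with
  | nil => intro m Φ; simp only [List.nil_append, rsum]
  | cons d cs ih =>
    intro m Φ
    rw [List.cons_append, rsum]
    have h1 : ∀ p ∈ antidiagonal m,
        om p.1 * rsum om g (cs ++ [c]) p.2 (fun l => Φ ((d + p.1) :: l))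
        = ∑ r ∈ antidiagonal p.2, om p.1 * (om r.1 *
            rsum om g cs r.2 (fun l => Φ ((d + p.1) :: (l ++ [c + r.1])))) := by
      intro p _
      rw [ih, Finset.mul_sum]
    rw [Finset.sum_congr rfl h1,
      anti_swap m (fun a b e => om a * (om b *
        rsum om g cs e (fun l => Φ ((d + a) :: (l ++ [c + b])))))]
    refine Finset.sum_congr rfl fun r _ => ?_
    rw [rsum, Finset.mul_sum]
    refine Finset.sum_congr rfl fun p _ => ?_
    simp only [List.cons_append]
    ring

theorem SSn_map {R' : Type*} [CommRing R'] (f : R →+* R') (n : ℕ) : ∀ l : List ℕ,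
    f (SSn om g n l) = SSn (fun k => f (om k)) (fun k => f (g k)) n l := by
  induction n with
  | zero => intro l; rw [SSn, SSn, map_one]
  | succ n ih =>
    intro l
    cases l with
    | nil => rw [SSn, SSn, map_one]
    | cons m cs =>
      rw [SSn, SSn]
      have := rsum_map om g (fun k => f (om k)) (fun k => f (g k)) f.toAddMonoidHom
        (fun k x => map_mul f _ _) (fun k x => map_mul f _ _) cs m (SSn om g n)
      have h2 : f (rsum om g cs m (SSn om g n))
          = rsum (fun k => f (om k)) (fun k => f (g k)) cs m (fun l => f (SSn om g n l)) := this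
      rw [h2]
      exact rsum_congr _ _ cs m _ _ (fun l _ => ih l)

open Polynomial in
/-- the linear functional `X^k ↦ g (k + c)` -/
noncomputable def Lc (c : ℕ) : R[X] →ₗ[R] R :=
  Polynomial.lsum (fun k => LinearMap.mulRight R (g (k + c)))

open Polynomial in
theorem Lc_monomial (c k : ℕ) (a : R) : Lc g c (monomial k a) = a * g (k + c) := by
  rw [Lc, Polynomial.lsum_apply, Polynomial.sum_monomial_index] 
  · simp
  · simp

open Polynomial in
theorem Lc_CXmul (c b : ℕ) (a : R) (p : R[X]) : Lc g c (C a * X ^ b * p) = a * Lc g (c + b) p := by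
  induction p using Polynomial.induction_on' with
  | add p q hp hq => rw [mul_add, map_add, map_add, hp, hq, mul_add]
  | monomial k d =>
    rw [C_mul_X_pow_eq_monomial, monomial_mul_monomial, Lc_monomial, Lc_monomial]
    have : b + k + c = k + (c + b) := by omega
    rw [this, mul_assoc]

open Polynomial in
/-- generating polynomial obtained by adding a vertex below all others -/
noncomputable def QQ (n : ℕ) (l : List ℕ) : R[X] :=
  SSn (fun k => C (om k)) (fun s => ∑ p ∈ antidiagonal s, C (om p.1) * X ^ p.1 * C (g p.2)) n l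

open Polynomial in
theorem eval_QQ (n : ℕ) (l : List ℕ) (y : R) :
    (QQ om g n l).eval y = SSn om (fun s => ∑ p ∈ antidiagonal s, om p.1 * y ^ p.1 * g p.2) n l := by
  rw [QQ]
  have := SSn_map (fun k => C (om k))
    (fun s => ∑ p ∈ antidiagonal s, C (om p.1) * X ^ p.1 * C (g p.2)) (Polynomial.evalRingHom y) n l
  rw [Polynomial.coe_evalRingHom] at this
  rw [this]
  congr 1
  · funext k; simp
  · funext s; simp only [Polynomial.eval_finset_sum, eval_mul, eval_C, eval_pow, eval_X]

open Polynomial in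
theorem Lc_QQ (n : ℕ) : ∀ (c : ℕ) (l : List ℕ), l.length = n →
    Lc g c (QQ om g n l) = SSn om g (n+1) (l ++ [c]) := by
  induction n with
  | zero =>
    intro c l hl
    have : l = [] := List.length_eq_zero_iff.1 hl
    subst this
    rw [QQ, SSn, List.nil_append, SSn, rsum, SSn, ← Polynomial.C_1, ← Polynomial.monomial_zero_left,
      Lc_monomial]
    ring_nf
  | succ n ih =>
    intro c l hl
    obtain ⟨m, cs, rfl⟩ : ∃ m cs, l = m :: cs := by
      cases l with
      | nil => simp at hl
      | cons m cs => exact ⟨m, cs, rfl⟩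
    have hcs : cs.length = n := by simpa using hl
    have e1 : QQ om g (n+1) (m :: cs) = ∑ p ∈ antidiagonal m, C (om p.1) * X ^ p.1 *
        rsum (fun k => C (om k)) (fun k => C (g k)) cs p.2 (QQ om g n) := by
      rw [QQ, SSn]
      have := rsum_conv (fun k => C (om k)) (fun k => C (g k)) (X : R[X]) cs m (QQ om g n)
      exact this
    have e2 : ∀ (c' m' : ℕ), Lc g c' (rsum (fun k => C (om k)) (fun k => C (g k)) cs m' (QQ om g n))
        = rsum om g cs m' (fun l => Lc g c' (QQ om g n l)) := by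
      intro c' m'
      exact rsum_map (fun k => C (om k)) (fun k => C (g k)) om g (Lc g c').toAddMonoidHom
        (fun k x => by
          have := Lc_CXmul g c' 0 (om k) x
          rw [pow_zero, mul_one] at this
          exact this)
        (fun k x => by
          have := Lc_CXmul g c' 0 (g k) x
          rw [pow_zero, mul_one] at this
          exact this) cs m' (QQ om g n)
    rw [e1, map_sum, List.cons_append, SSn, rsum_append]
    refine Finset.sum_congr rfl fun p _ => ?_
    rw [Lc_CXmul, e2]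
    congr 1
    exact rsum_congr om g cs p.2 _ _ (fun l' hl' => ih (c + p.1) l' (by rw [hl', hcs]))

end

end Pool.Agent.Helper196Ehr
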