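import Mathlib
import Pool.Agent.Helper196_Ehr.Gam
import Pool.Agent.Helper196_Ehr.SSum

set_option autoImplicit false
set_option linter.all false

namespace Pool.Agent.Helper196Ehr

open Finset

/-- `wt k = ∑_{i<k} q^i t^(k-1-i)` -/
def wtp {R : Type*} [CommRing R] (q t : R) (k : ℕ) : R := ∑ i ∈ range k, q ^ i * t ^ (k - 1 - i)

/-- `om 0 = 1`, `om k = -(1-q)(1-t) wt k` -/
def om {R : Type*} [CommRing R] (q t : R) (k : ℕ) : R :=
  if k = 0 then 1 else -((1 - q) * (1 - t)) * wtp q t k

section wt
variable {R : Type*} [CommRing R] (q t : R)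

theorem wtp_zero : wtp q t 0 = 0 := by simp [wtp]
theorem wtp_one : wtp q t 1 = 1 := by simp [wtp]

theorem wtp_succ (k : ℕ) : wtp q t (k+1) = t * wtp q t k + q ^ k := by
  rw [wtp, wtp, Finset.sum_range_succ, Finset.mul_sum]
  congr 1
  · refine Finset.sum_congr rfl fun i hi => ?_
    have hi' := Finset.mem_range.1 hi
    have : k + 1 - 1 - i = (k - 1 - i) + 1 := by omega
    rw [this, pow_succ]; ring
  · simp

theorem wtp_rec (k : ℕ) : wtp q t (k+2) = (q + t) * wtp q t (k+1) - q * t * wtp q t k := by
  have h1 := wtp_succ q t (k+1)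
  have h2 := wtp_succ q t k
  rw [h1, pow_succ]
  linear_combination (-q) * h2

theorem om_zero : om q t 0 = 1 := by simp [om]
theorem om_pos (k : ℕ) : om q t (k+1) = -((1 - q) * (1 - t)) * wtp q t (k+1) := by simp [om]
theorem om_one : om q t 1 = -((1 - q) * (1 - t)) := by rw [om_pos, wtp_one, mul_one]

end wt

section series
variable {F : Type*} [Field F] (q t : F)

open PowerSeries

/-- the series `(1 - q a u)/(1 - a u)` -/
noncomputable def fser (a : F) : PowerSeries F :=
  PowerSeries.mk fun k => if k = 0 then 1 else (1 - q) * a ^ k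

/-- the series `∑ om k a^k u^k` -/
noncomputable def oser (a : F) : PowerSeries F := PowerSeries.mk fun k => om q t k * a ^ k

theorem one_sub_mul (a : F) (s : PowerSeries F) (k : ℕ) :
    coeff k (s * (1 - C a * X)) = coeff k s - a * (if k = 0 then 0 else coeff (k-1) s) := by
  have : s * (1 - C a * X) = s - C a * (s * X) := by ring
  rw [this, map_sub, coeff_C_mul]
  rcases k with _ | k
  · simp
  · rw [coeff_succ_mul_X]; simp

theorem one_sub_ne (a : F) : (1 - C a * X : PowerSeries F) ≠ 0 := by
  intro h
  have := congrArg (coeff 0) h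
  simp at this

theorem fser_mul (a : F) : fser q a * (1 - C a * X) = 1 - C (q * a) * X := by
  have hR : (1 - C (q * a) * X : PowerSeries F) = 1 * (1 - C (q * a) * X) := by ring
  rw [hR]
  ext k
  rw [one_sub_mul, one_sub_mul]
  rcases k with _ | _ | k
  · simp [fser]
  · simp [fser, coeff_one]; ring
  · simp [fser, coeff_one]; ring

theorem oser_mul (a : F) : oser q t a * (1 - C (q * a) * X) * (1 - C (t * a) * X)
    = (1 - C a * X) * (1 - C (q * t * a) * X) := by
  have hR : (1 - C a * X) * (1 - C (q * t * a) * X : PowerSeries F)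
      = 1 * (1 - C a * X) * (1 - C (q * t * a) * X) := by ring
  rw [hR]
  ext k
  rw [one_sub_mul, one_sub_mul, one_sub_mul, one_sub_mul]
  rcases k with _ | _ | _ | k
  · simp [oser, om_zero]
  · simp only [zero_add, one_ne_zero, if_false, Nat.sub_self, if_true, mul_zero, sub_zero]
    simp only [one_sub_mul]
    simp [oser, om_zero, om_one, coeff_one]; ring
  · have h2 : om q t 2 = -((1 - q) * (1 - t)) * (q + t) := by
      rw [om_pos, wtp_rec, wtp_one, wtp_zero]; ring
    have h1 := om_one q t
    simp only [one_sub_mul]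
    simp [oser, om_zero, coeff_one, h1, h2]; ring
  · have h3 := wtp_rec q t (k+1)
    simp only [one_sub_mul]
    simp [oser, coeff_one, om_pos]
    rw [h3]; ring

theorem fser_tmul (a : F) : fser q (t * a) = fser q a * oser q t a := by
  have h1 := fser_mul q (t * a)
  have h2 := fser_mul q a
  have h3 := oser_mul q t a
  have hne : (1 - C (t * a) * X) * (1 - C a * X) * (1 - C (q * a) * X) ≠ (0 : PowerSeries F) :=
    mul_ne_zero (mul_ne_zero (one_sub_ne _) (one_sub_ne _)) (one_sub_ne _)
  apply mul_right_cancel₀ hne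
  have e : (1 - C (q * (t * a)) * X : PowerSeries F) = 1 - C (q * t * a) * X := by
    rw [mul_assoc]
  calc fser q (t * a) * ((1 - C (t * a) * X) * (1 - C a * X) * (1 - C (q * a) * X))
      = (fser q (t * a) * (1 - C (t * a) * X)) * (1 - C a * X) * (1 - C (q * a) * X) := by ring
    _ = (1 - C (q * t * a) * X) * (1 - C a * X) * (1 - C (q * a) * X) := by rw [h1, e]
    _ = (1 - C (q * a) * X) * ((1 - C a * X) * (1 - C (q * t * a) * X)) := by ring
    _ = (fser q a * (1 - C a * X)) *
          (oser q t a * (1 - C (q * a) * X) * (1 - C (t * a) * X)) := by rw [h2, h3]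
    _ = _ := by ring

/-- the key identity for the Demazure-Lusztig operators -/
theorem fser_key (a b : F) (h : b - a ≠ 0) :
    C ((q - 1) * b / (b - a)) * (1 - fser q a) + C ((b - q * a) / (b - a)) * (1 - fser q b)
      = fser q a * (1 - fser q b) := by
  have h1 := fser_mul q a
  have h2 := fser_mul q b
  have hne : C (b - a) * (1 - C a * X) * (1 - C b * X) ≠ (0 : PowerSeries F) := by
    refine mul_ne_zero (mul_ne_zero ?_ (one_sub_ne _)) (one_sub_ne _)
    intro h0
    have := congrArg (coeff 0) h0
    simp at this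
    exact h this
  apply mul_right_cancel₀ hne
  have c1 : C ((q - 1) * b / (b - a)) * C (b - a) = (C ((q - 1) * b) : PowerSeries F) := by
    rw [← map_mul, div_mul_cancel₀ _ h]
  have c2 : C ((b - q * a) / (b - a)) * C (b - a) = (C (b - q * a) : PowerSeries F) := by
    rw [← map_mul, div_mul_cancel₀ _ h]
  calc (C ((q - 1) * b / (b - a)) * (1 - fser q a) + C ((b - q * a) / (b - a)) * (1 - fser q b))
        * (C (b - a) * (1 - C a * X) * (1 - C b * X))
      = (C ((q - 1) * b / (b - a)) * C (b - a)) * ((1 - C a * X) - fser q a * (1 - C a * X))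
          * (1 - C b * X)
        + (C ((b - q * a) / (b - a)) * C (b - a)) * ((1 - C b * X) - fser q b * (1 - C b * X))
          * (1 - C a * X) := by ring
    _ = C (b - a) * (1 - C (q * a) * X) * ((1 - C b * X) - (1 - C (q * b) * X)) := by
        rw [c1, c2, h1, h2]
        simp only [map_sub, map_mul, map_one]
        ring
    _ = C (b - a) * (fser q a * (1 - C a * X)) * ((1 - C b * X) - fser q b * (1 - C b * X)) := by
        rw [h1, h2]
    _ = _ := by ring

end series

section hseries
variable {F : Type*} [Field F]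

open PowerSeries

/-- partial product of the series `(1 - q x_i u)/(1 - x_i u)` -/
noncomputable def part (q : F) (j : ℕ) (x : ℕ → F) : PowerSeries F := ∏ i ∈ range j, fser q (x i)

theorem part_congr (q : F) (j : ℕ) (x y : ℕ → F) (h : ∀ i, i < j → x i = y i) :
    part q j x = part q j y :=
  Finset.prod_congr rfl fun i hi => by rw [h i (Finset.mem_range.1 hi)]

theorem part_sw_low (q : F) (j : ℕ) (x : ℕ → F) : part q j (sw j x) = part q j x :=
  part_congr q j _ _ (fun i hi => sw_of_ne _ _ _ (by omega) (by omega))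

theorem part_sw (q : F) (i M : ℕ) (hM : i + 2 ≤ M) (x : ℕ → F) :
    part q M (sw i x) = part q M x := by
  induction M, hM using Nat.le_induction with
  | base =>
    have h := part_sw_low q i x
    rw [part, part, Finset.prod_range_succ, Finset.prod_range_succ, Finset.prod_range_succ,
      Finset.prod_range_succ, sw_self, sw_succ]
    rw [part, part] at h
    rw [h]; ring
  | succ M hM ih =>
    rw [part, part, Finset.prod_range_succ, Finset.prod_range_succ,
      sw_of_ne _ _ _ (by omega) (by omega)]
    rw [part, part] at ih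
    rw [ih]

theorem part_rho (q t : F) (N : ℕ) (x : ℕ → F) :
    part q (N+1) (rho N t x) = oser q t (x 0) * part q (N+1) x := by
  rw [part, part, Finset.prod_range_succ, Finset.prod_range_succ' (fun i => fser q (x i))]
  have h1 : rho N t x N = t * x 0 := by simp [rho]
  have h2 : ∀ i ∈ range N, fser q (rho N t x i) = fser q (x (i+1)) := by
    intro i hi
    have hi' := Finset.mem_range.1 hi
    have : rho N t x i = x (i+1) := by simp [rho, hi']
    rw [this]
  rw [h1, fser_tmul, Finset.prod_congr rfl h2]; ring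

variable {N : ℕ} {t : F}

/-- coefficients of the series of a point -/
noncomputable def hx (q : F) (x : Pt (F := F) N t) (k : ℕ) : F := coeff k (part q (N+1) x.1)

theorem hx_swP (q : F) (i : ℕ) (x : Pt (F := F) N t) : hx q (swP i x) = hx q x := by
  funext k
  by_cases h : i < N
  · rw [hx, hx, swP_val i h, part_sw q i (N+1) (by omega)]
  · simp [swP, h]

theorem hx_rhoP (q : F) (ht : t ≠ 0) (x : Pt (F := F) N t) : hx q (rhoP ht x)
    = fun s => ∑ p ∈ antidiagonal s, om q t p.1 * (x.1 0) ^ p.1 * hx q x p.2 := by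
  funext s
  rw [hx, rhoP_val, part_rho, PowerSeries.coeff_mul]
  refine Finset.sum_congr rfl fun p _ => ?_
  rw [oser, coeff_mk, hx]

theorem hx_zero (q : F) (x : Pt (F := F) N t) : hx q x 0 = 1 := by
  rw [hx, part, PowerSeries.coeff_zero_eq_constantCoeff_apply, map_prod]
  apply Finset.prod_eq_one
  intro i _
  rw [← PowerSeries.coeff_zero_eq_constantCoeff_apply, fser, coeff_mk]; simp

theorem coeff_one_part (q : F) (j : ℕ) (x : ℕ → F) :
    coeff 1 (part q j x) = (1 - q) * ∑ i ∈ range j, x i ∧ coeff 0 (part q j x) = 1 := by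
  induction j with
  | zero => simp [part, coeff_one]
  | succ j ih =>
    rw [part, Finset.prod_range_succ, ← part]
    rw [PowerSeries.coeff_mul, PowerSeries.coeff_mul]
    have h1 : antidiagonal 1 = {(0,1),(1,0)} := by decide
    have h0 : antidiagonal 0 = {((0:ℕ),(0:ℕ))} := by decide
    rw [h1, h0, Finset.sum_pair (by decide), Finset.sum_singleton, ih.1, ih.2]
    simp only [fser, coeff_mk, Finset.sum_range_succ]
    constructor
    · simp; ring
    · simp

theorem hx_one (q : F) (x : Pt (F := F) N t) : hx q x 1 = (1 - q) * ∑ i ∈ range (N+1), x.1 i :=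
  (coeff_one_part q (N+1) x.1).1

end hseries

section operators
variable {F : Type*} [Field F] {N : ℕ} {q t : F} (ht : t ≠ 0)

theorem Tt_apply (i : ℕ) (hi : i < N) (G : VV F N t) (x : Pt (F := F) N t) :
    (rep q ht).Tt i G x = (q - 1) * x.1 (i+1) / (x.1 (i+1) - x.1 i) * G x
      + (x.1 (i+1) - q * x.1 i) / (x.1 (i+1) - x.1 i) * G (swP i x) := by
  have h1 := x.ne (i+1) i (by omega) (by omega) (by omega)
  rw [Daha.Tt, LinearMap.sub_apply, LinearMap.sub_apply, Pi.sub_apply, Pi.sub_apply,
    scal_apply, Module.End.one_apply, rep_T, Top_apply, ca, cb]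
  field_simp
  ring

theorem chainTt_local (m j : ℕ) (h : j + m ≤ N) (x : Pt (F := F) N t) (G G' : VV F N t)
    (hG : ∀ x', hx q x' = hx q x → G x' = G' x') :
    ∀ x', hx q x' = hx q x → chain (rep q ht).Tt m j G x' = chain (rep q ht).Tt m j G' x' := by
  induction m with
  | zero => intro x' hx'; rw [chain_zero]; exact hG x' hx'
  | succ m ih =>
    intro x' hx'
    rw [chain_succ', Module.End.mul_apply, Module.End.mul_apply, Tt_apply ht _ (by omega),
      Tt_apply ht _ (by omega), ih (by omega) x' hx', ih (by omega) (swP (j+m) x')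
        (by rw [hx_swP, hx'])]

theorem chainTt_pow (m : ℕ) (hm : m ≠ 0) (j : ℕ) (hj : j ≤ N) : ∀ (x : Pt (F := F) N t),
    (q - 1) * chain (rep q ht).Tt j 0 (fun x' => (x'.1 0) ^ m) x
      = PowerSeries.coeff m (part q j x.1 - part q (j+1) x.1) := by
  have key : ∀ (j : ℕ) (x : ℕ → F), part q j x - part q (j+1) x
      = part q j x * (1 - fser q (x j)) := by
    intro j x
    rw [part, part, Finset.prod_range_succ]; ring
  induction j with
  | zero =>
    intro x
    rw [chain_zero, key, Module.End.one_apply, part, Finset.prod_range_zero, one_mul, map_sub,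
      PowerSeries.coeff_one, if_neg hm, fser, PowerSeries.coeff_mk, if_neg hm]
    ring
  | succ j ih =>
    intro x
    have h1 := x.ne (j+1) j (by omega) (by omega) (by omega)
    have i1 := ih (by omega) x
    have i2 := ih (by omega) (swP j x)
    rw [key] at i1 i2 ⊢
    rw [swP_val j (by omega), part_sw_low, sw_self] at i2
    rw [chain_succ', Module.End.mul_apply, zero_add, Tt_apply ht j (by omega), mul_add]
    have e : ∀ (c : F) (G : F), (q - 1) * (c * G) = c * ((q - 1) * G) := by intro c G; ring
    rw [e, e, i1, i2, ← PowerSeries.coeff_C_mul, ← PowerSeries.coeff_C_mul, ← map_add]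
    congr 1
    have k := fser_key q (x.1 j) (x.1 (j+1)) h1
    have p1 : part q (j+1) x.1 = part q j x.1 * fser q (x.1 j) := by
      rw [part, part, Finset.prod_range_succ]
    rw [p1, mul_assoc, ← k]; ring

theorem T_of_inv (j : ℕ) (hj : j < N) (G : VV F N t) (h : ∀ x, G (swP j x) = G x) :
    (rep q ht).T j G = G := by
  funext x
  have h1 := x.ne (j+1) j (by omega) (by omega) (by omega)
  rw [rep_T, Top_apply, ca, cb, h]
  field_simp
  ring

open Polynomial in
/-- the action of the sum of the `Y_j` on symmetric functions -/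
theorem S_formula (G : VV F N t) (hG : ∀ j, j < N → (rep q ht).T j G = G)
    (p : Pt (F := F) N t → F[X]) (hp : ∀ x x', hx q x' = hx q x → p x' = p x)
    (hP : ∀ x, (rep q ht).P G x = (p x).eval (x.1 0)) (x : Pt (F := F) N t) :
    (q - 1) * (rep q ht).S G x = - Lc (hx q x) 1 (p x) := by
  have step : ∀ j, j ≤ N → (rep q ht).Y j G x
      = chain (rep q ht).Tt j 0 (fun x' => x'.1 0 * (p x).eval (x'.1 0)) x := by
    intro j hj
    rw [Daha.Y, Daha.Z, Module.End.mul_apply, Module.End.mul_apply, Module.End.mul_apply,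
      chain_fix (rep q ht) _ _ G (fun k _ _ => hG k (by omega))]
    apply chainTt_local ht j 0 (by omega) x _ _ _ x rfl
    intro x' hx'
    rw [rep_X, mulOp_apply, hP, hp x x' hx']
  have main : ∀ P : F[X], (q - 1) * ∑ j ∈ range (N+1),
      chain (rep q ht).Tt j 0 (fun x' => x'.1 0 * P.eval (x'.1 0)) x = - Lc (hx q x) 1 P := by
    intro P
    induction P using Polynomial.induction_on' with
    | add P Q hP hQ =>
      have : ∀ j, chain (rep q ht).Tt j 0 (fun x' => x'.1 0 * (P + Q).eval (x'.1 0)) x
          = chain (rep q ht).Tt j 0 (fun x' => x'.1 0 * P.eval (x'.1 0)) x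
            + chain (rep q ht).Tt j 0 (fun x' => x'.1 0 * Q.eval (x'.1 0)) x := by
        intro j
        rw [← Pi.add_apply, ← map_add]
        refine congrFun (congrArg _ ?_) x
        funext x'
        simp [mul_add]
      rw [Finset.sum_congr rfl (fun j _ => this j), Finset.sum_add_distrib, mul_add, hP, hQ, map_add]
      ring
    | monomial k a =>
      have : ∀ j ∈ range (N+1), (q - 1) *
          chain (rep q ht).Tt j 0 (fun x' => x'.1 0 * (monomial k a).eval (x'.1 0)) x
          = a * PowerSeries.coeff (k+1) (part q j x.1 - part q (j+1) x.1) := by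
        intro j hj
        rw [← chainTt_pow ht (k+1) (by omega) j (by have := Finset.mem_range.1 hj; omega) x]
        have e : (fun x' : Pt (F := F) N t => x'.1 0 * (monomial k a).eval (x'.1 0))
            = a • (fun x' : Pt (F := F) N t => (x'.1 0) ^ (k+1)) := by
          funext x'
          simp [Polynomial.eval_monomial]; ring
        rw [e, map_smul, Pi.smul_apply, smul_eq_mul]; ring
      rw [Finset.mul_sum, Finset.sum_congr rfl this, ← Finset.mul_sum, ← map_sum,
        Finset.sum_range_sub', Lc_monomial, map_sub, hx]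
      rw [part, Finset.prod_range_zero, PowerSeries.coeff_one, if_neg (by omega)]
      ring
  rw [Daha.S, sum_apply', Finset.sum_congr rfl (fun j hj => step j (by
    have := Finset.mem_range.1 hj; omega)), main]

/-- the functions given by flow sums -/
noncomputable def FF (q : F) (n : ℕ) (l : List ℕ) : VV F N t := fun x => SSn (om q t) (hx q x) n l

/-- the same, multiplied by `-h_1` -/
noncomputable def GG (q : F) (n : ℕ) (l : List ℕ) : VV F N t :=
  fun x => -hx q x 1 * SSn (om q t) (hx q x) n l

theorem T_FF (j : ℕ) (hj : j < N) (n : ℕ) (l : List ℕ) :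
    (rep q ht).T j (FF (N := N) q n l) = FF q n l :=
  T_of_inv ht j hj _ (fun x => by rw [FF, FF, hx_swP])

theorem T_GG (j : ℕ) (hj : j < N) (n : ℕ) (l : List ℕ) :
    (rep q ht).T j (GG (N := N) q n l) = GG q n l :=
  T_of_inv ht j hj _ (fun x => by rw [GG, GG, hx_swP])

theorem P_FF (n : ℕ) (l : List ℕ) (x : Pt (F := F) N t) :
    (rep q ht).P (FF (N := N) q n l) x = (QQ (om q t) (hx q x) n l).eval (x.1 0) := by
  rw [rep_P, compOp_apply, FF, hx_rhoP, eval_QQ]

theorem u_FF (n : ℕ) (l : List ℕ) (hl : l.length = n) :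
    (q - 1) • (rep q ht).S (FF (N := N) q n l) = - FF q (n+1) (l ++ [1]) := by
  funext x
  rw [Pi.smul_apply, smul_eq_mul, S_formula ht _ (fun j hj => T_FF ht j hj n l)
    (fun x => QQ (om q t) (hx q x) n l) (fun x x' h => by rw [h]) (P_FF ht n l),
    Lc_QQ _ _ n 1 l hl]
  rfl

open Polynomial in
theorem u_GG (n : ℕ) (l : List ℕ) (hl : l.length = n) :
    (q - 1) • (rep q ht).S (GG (N := N) q n l)
      = - GG q (n+1) (l ++ [1]) - ((1 - q) * (1 - t)) • FF q (n+1) (l ++ [2]) := by
  funext x
  have hP : ∀ x : Pt (F := F) N t, (rep q ht).P (GG (N := N) q n l) x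
      = (C (-hx q x 1) * QQ (om q t) (hx q x) n l
        + C ((1 - q) * (1 - t)) * X ^ 1 * QQ (om q t) (hx q x) n l).eval (x.1 0) := by
    intro x
    have h1 := P_FF (q := q) ht n l x
    rw [rep_P, compOp_apply, FF] at h1
    have h2 : hx q (rhoP ht x) 1 = hx q x 1 - (1 - q) * (1 - t) * x.1 0 := by
      rw [hx_rhoP]
      have h1 : antidiagonal 1 = {(0,1),(1,0)} := by decide
      simp only [h1]
      rw [Finset.sum_pair (by decide), om_zero, om_one, hx_zero]
      ring
    rw [rep_P, compOp_apply, GG, h1, h2]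
    simp only [eval_add, eval_mul, eval_C, eval_pow, eval_X]
    ring
  rw [Pi.smul_apply, smul_eq_mul, S_formula ht _ (fun j hj => T_GG ht j hj n l) _
    (fun x x' h => by rw [h]) hP, map_add, Lc_CXmul]
  have e0 : C (-hx q x 1) * QQ (om q t) (hx q x) n l
      = C (-hx q x 1) * X ^ 0 * QQ (om q t) (hx q x) n l := by rw [pow_zero, mul_one]
  rw [e0, Lc_CXmul, Lc_QQ _ _ n _ l hl, Lc_QQ _ _ n _ l hl]
  simp only [Pi.sub_apply, Pi.neg_apply, Pi.smul_apply, smul_eq_mul, GG, FF]
  ring

/-- multiplication by the sum of the variables -/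
noncomputable def Esum (q : F) (ht : t ≠ 0) : Module.End F (VV F N t) :=
  ∑ j ∈ range (N+1), (rep q ht).X j

theorem E_FF (n : ℕ) (l : List ℕ) :
    (q - 1) • (Esum (N := N) q ht) (FF (N := N) q n l) = GG q n l := by
  funext x
  rw [Pi.smul_apply, smul_eq_mul, Esum, sum_apply']
  have h2 : ∀ j ∈ range (N+1), (rep q ht).X j (FF q n l) x
      = x.1 j * SSn (om q t) (hx q x) n l := fun j _ => rfl
  rw [Finset.sum_congr rfl h2, ← Finset.sum_mul]
  simp only [GG, hx_one]
  ring

end operators

end Pool.Agent.Helper196Ehr
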