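import Mathlib
import Pool.Agent.Helper196_Ehr.Link

set_option autoImplicit false
set_option linter.all false

namespace Pool.Agent.Helper196Ehr

open Finset

/-- `[s n, …, s 1]` -/
def sl (s : ℕ → ℕ) : ℕ → List ℕ
  | 0 => []
  | n+1 => s (n+1) :: sl s n

theorem sl_length (s : ℕ → ℕ) (n : ℕ) : (sl s n).length = n := by
  induction n with
  | zero => rfl
  | succ n ih => simp [sl, ih]

theorem sl_snoc (n : ℕ) : ∀ (s : ℕ → ℕ), sl s (n+1) = sl (fun k => s (k+1)) n ++ [s 1] := by
  induction n with
  | zero => intro s; rfl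
  | succ n ih => intro s; rw [sl, ih s]; rfl

/-- supplies `1`, with one more unit at vertex `j` -/
def dl (j : ℕ) : ℕ → ℕ := fun k => 1 + if k = j then 1 else 0

theorem sl_one_snoc (n : ℕ) : sl (fun _ => 1) (n+1) = sl (fun _ => 1) n ++ [1] := sl_snoc n _

theorem sl_dl_one (n : ℕ) : sl (dl 1) (n+1) = sl (fun _ => 1) n ++ [2] := by
  rw [sl_snoc]
  have : (fun k => dl 1 (k+1)) = fun k => if k = 0 then 2 else 1 := by
    funext k; rcases k with _ | k <;> simp [dl]
  have h2 : ∀ n, sl (fun k => dl 1 (k+1)) n = sl (fun _ => 1) n := by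
    intro n
    induction n with
    | zero => rfl
    | succ n ih => rw [sl, sl, ih]; simp [dl]
  rw [h2]; rfl

theorem sl_dl_succ (j n : ℕ) : sl (dl (j+2)) (n+1) = sl (dl (j+1)) n ++ [1] := by
  rw [sl_snoc]
  have : (fun k => dl (j+2) (k+1)) = dl (j+1) := by
    funext k; simp [dl]
  rw [this]; rfl

section
variable {F : Type*} [Field F] {N : ℕ} {q t : F} (ht : t ≠ 0)

theorem vec_zeros (b : ℕ) : vec (N := N) q ht (List.replicate b 0)
    = (-1 : F) ^ b • FF q b (sl (fun _ => 1) b) := by
  induction b with
  | zero => funext x; simp [vec, FF, SSn]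
  | succ b ih =>
    rw [List.replicate_succ', ← S_vec, ih, map_smul, smul_comm, u_FF ht b _ (sl_length _ _),
      ← sl_one_snoc, smul_neg, pow_succ, mul_smul, neg_smul, one_smul, smul_neg]

variable (x0 : Pt (F := F) N t) (hx0 : ∀ i, i ≤ N → x0.1 i = q ^ i) (hq : q ^ (N+1) = 1)

open PowerSeries in
include hx0 hq in
theorem part_x0 : part q (N+1) x0.1 = 1 := by
  have h : ∀ j, j ≤ N + 1 → part q j x0.1 * (1 - C (1:F) * X) = 1 - C (q ^ j) * X := by
    intro j
    induction j with
    | zero => intro _; simp [part]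
    | succ j ih =>
      intro hj
      rw [part, Finset.prod_range_succ, ← part, mul_right_comm, ih (by omega), hx0 j (by omega),
        mul_comm, fser_mul, pow_succ, mul_comm q]
  have h2 := h (N+1) le_rfl
  rw [hq] at h2
  have h3 : part q (N+1) x0.1 * (1 - C (1:F) * X) = 1 * (1 - C (1:F) * X) := by rw [h2, one_mul]
  exact mul_right_cancel₀ (one_sub_ne 1) h3

include hx0 hq in
theorem hx_rho_x0 : hx q (rhoP ht x0) = om q t := by
  rw [hx_rhoP]
  funext s
  have h1 : ∀ k, hx q x0 k = if k = 0 then 1 else 0 := by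
    intro k; rw [hx, part_x0 x0 hx0 hq, PowerSeries.coeff_one]
  have h2 : x0.1 0 = 1 := by rw [hx0 0 (by omega), pow_zero]
  rw [Finset.sum_eq_single (s, 0)]
  · rw [h1, h2]; simp
  · intro b hb hne
    rw [HasAntidiagonal.mem_antidiagonal] at hb
    rw [h1, if_neg, mul_zero]
    intro h0
    apply hne
    ext
    · simp; omega
    · simp; omega
  · intro h
    exact absurd (by rw [HasAntidiagonal.mem_antidiagonal]; simp) h

include ht hx0 hq in
theorem complete_ident (n : ℕ) (hn : n ≤ N) :
    (-1 : F) ^ n * SSn (om q t) (om q t) n (sl (fun _ => 1) n)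
      = ((1 - q) * (1 - t)) ^ n * hh q t (List.replicate n 1) := by
  have h1 := vec_eval (N := N) ht x0 hx0 hq (List.replicate n 1)
    (by rw [List.pairwise_replicate]; simp) (by
      intro r hr
      have := List.eq_of_mem_replicate hr
      rw [List.length_replicate]; omega)
  rw [List.length_replicate] at h1
  rw [← h1]
  have h2 : List.replicate n 1 = inc (List.replicate n 0) := by simp [inc]
  rw [h2, ← P_vec ht _ (by
    intro r hr
    have := List.eq_of_mem_replicate hr
    omega), vec_zeros, map_smul, Pi.smul_apply, smul_eq_mul, rep_P, compOp_apply, FF,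
    hx_rho_x0 ht x0 hx0 hq]

/-- the sum of the chains -/
noncomputable def Asum (q : F) (ht : t ≠ 0) : Module.End F (VV F N t) :=
  ∑ j ∈ range (N+1), chain (rep q ht).Tt j 0

theorem S_Asum : Commute (rep (N := N) q ht).S (Asum q ht) := by
  rw [Asum]
  apply Commute.sum_right
  intro j hj
  exact (rep q ht).S_chainTt j 0 (by have := Finset.mem_range.1 hj; omega)

theorem Esum_sym (G : VV F N t) (hG : ∀ j, j < N → (rep q ht).T j G = G) :
    Esum q ht G = Asum q ht ((rep q ht).X 0 G) := by
  rw [Esum, Asum, LinearMap.sum_apply, LinearMap.sum_apply]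
  refine Finset.sum_congr rfl fun j hj => ?_
  have hj' := Finset.mem_range.1 hj
  have h := (rep (N := N) q ht).chain_X j 0 (by omega)
  rw [← Module.End.mul_apply, h, Module.End.mul_apply,
    chain_fix (rep q ht) _ _ G (fun k _ _ => hG k (by omega)), zero_add]

theorem upow (b p : ℕ) :
    (((q - 1) • (rep (N := N) q ht).S) ^ p) ((q - 1) • Esum q ht (vec q ht (List.replicate b 0)))
      = (q - 1) • Asum q ht ((rep q ht).X 0
          (vec q ht (List.replicate p 1 ++ List.replicate b 0))) := by
  induction p with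
  | zero =>
    rw [pow_zero, Module.End.one_apply, Esum_sym ht _ (fun j hj => T_vec ht j hj _ (by
      intro r hr
      have := List.eq_of_mem_replicate hr
      omega))]
    simp
  | succ p ih =>
    have h1 := (S_Asum (N := N) (q := q) ht).eq
    have h2 := (rep (N := N) q ht).SX
    rw [pow_succ', Module.End.mul_apply, ih, LinearMap.smul_apply, map_smul, 
      ← Module.End.mul_apply, h1, Module.End.mul_apply, ← Module.End.mul_apply _ _ (vec q ht _), h2,
      Module.End.mul_apply, List.replicate_succ, List.cons_append, vec, map_smul, map_smul]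

include hx0 in
theorem ev_PAX (G : VV F N t) (hG : ∀ j, 1 ≤ j → j < N → (rep q ht).T j G = G) :
    (rep q ht).P (Asum q ht ((rep q ht).X 0 G)) x0 = (rep q ht).D 1 G x0 := by
  have hL : (rep q ht).P (Asum q ht ((rep q ht).X 0 G)) x0
      = ∑ j ∈ range N, q ^ (j+1) * (rep q ht).P G x0 + t * (rep q ht).Y 0 G x0 := by
    have e1 : (rep q ht).P (Asum q ht ((rep q ht).X 0 G)) x0
        = ∑ j ∈ range (N+1), ((rep q ht).P * ((rep q ht).X j * chain (rep q ht).T j 0) :
            Module.End F (VV F N t)) G x0 := by
      rw [Asum, LinearMap.sum_apply, map_sum, Finset.sum_apply]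
      refine Finset.sum_congr rfl fun j hj => ?_
      have hj' := Finset.mem_range.1 hj
      have h := (rep (N := N) q ht).chain_X j 0 (by omega)
      rw [zero_add] at h
      have h3 : (rep (N := N) q ht).X j * chain (rep q ht).T j 0
          = chain (rep q ht).Tt j 0 * (rep q ht).X 0 := h.symm
      rw [h3]; rfl
    rw [e1, Finset.sum_range_succ]
    congr 1
    · refine Finset.sum_congr rfl fun j hj => ?_
      have hj' := Finset.mem_range.1 hj
      have s : (rep (N := N) q ht).P * chain (rep q ht).T j 0
          = chain (rep q ht).T j 1 * (rep q ht).P :=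
        chain_shift _ _ _ _ (fun k _ hk => (rep q ht).PT k (by omega))
      rw [← mul_assoc, (rep q ht).PX j hj', mul_assoc, s, Module.End.mul_apply,
        ev_X ht x0 hx0 (j+1) (by omega), Module.End.mul_apply, ev_chainT ht x0 hx0 _ _ (by omega)]
    · rw [← mul_assoc, (rep q ht).PXN]
      have : (algebraMap F (Module.End F (VV F N t)) t) * (rep q ht).X 0 * (rep q ht).P
          * chain (rep q ht).T N 0 = algebraMap F _ t * (rep q ht).Y 0 := by
        rw [Daha.Y, Daha.Z, chain_zero, Nat.sub_zero, one_mul]; simp only [mul_assoc]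
      rw [this, Module.End.mul_apply, scal_apply]
  rw [hL, Daha.D, sum_apply', Finset.sum_range_succ']
  congr 1
  · refine Finset.sum_congr rfl fun j hj => ?_
    have hj' := Finset.mem_range.1 hj
    rw [scal_ite, if_neg (by omega), one_mul,
      ev_Y ht x0 hx0 (j+1) (by omega) G (fun k h1 h2 => hG k (by omega) h2)]

theorem upow_GG (b p : ℕ) :
    (((q - 1) • (rep (N := N) q ht).S) ^ p) (GG q b (sl (fun _ => 1) b))
      = (-1 : F) ^ p • (GG q (b+p) (sl (fun _ => 1) (b+p))
        + ((1 - q) * (1 - t)) • ∑ j ∈ range p, FF q (b+p) (sl (dl (j+1)) (b+p))) := by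
  induction p with
  | zero => simp
  | succ p ih =>
    rw [pow_succ', Module.End.mul_apply, ih, map_smul, map_add, map_smul, map_sum,
      LinearMap.smul_apply, u_GG ht _ _ (sl_length _ _)]
    have h : ∀ j ∈ range p, ((q - 1) • (rep (N := N) q ht).S) (FF q (b+p) (sl (dl (j+1)) (b+p)))
        = - FF q (b+p+1) (sl (dl (j+1+1)) (b+p+1)) := by
      intro j _
      rw [LinearMap.smul_apply, u_FF ht _ _ (sl_length _ _), sl_dl_succ]
    rw [Finset.sum_congr rfl h, ← sl_one_snoc, ← sl_dl_one, Finset.sum_range_succ', ← add_assoc,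
      Finset.sum_neg_distrib, pow_succ]
    module

include ht hx0 hq in
theorem one_vertex_ident (b p : ℕ) (hn : p + b + 1 ≤ N) :
    (-1 : F) ^ (b + p) * ((1 - q) * (1 - t)) * (SSn (om q t) (om q t) (b+p) (sl (fun _ => 1) (b+p))
        + ∑ j ∈ range p, SSn (om q t) (om q t) (b+p) (sl (dl (j+1)) (b+p)))
      = ((1 - q) * (1 - t)) ^ (p + 1 + b)
        * hh q t (List.replicate (p+1) 1 ++ List.replicate b 0) := by
  have h1 := vec_eval (N := N) ht x0 hx0 hq (List.replicate (p+1) 1 ++ List.replicate b 0)
    (by
      rw [List.pairwise_append, List.pairwise_replicate, List.pairwise_replicate]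
      refine ⟨by simp, by simp, ?_⟩
      intro x hx y hy
      rw [List.eq_of_mem_replicate hx, List.eq_of_mem_replicate hy]; omega) (by
      intro r hr
      rw [List.length_append, List.length_replicate, List.length_replicate]
      rw [List.mem_append] at hr
      rcases hr with hr | hr
      · have := List.eq_of_mem_replicate hr; omega
      · have := List.eq_of_mem_replicate hr; omega)
  rw [List.length_append, List.length_replicate, List.length_replicate] at h1
  rw [← h1, List.replicate_succ, List.cons_append, vec, Pi.smul_apply, smul_eq_mul,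
    ← ev_PAX ht x0 hx0 _ (fun j h1 h2 => T_vec ht j h2 _ (by
      intro r hr
      rw [List.mem_append] at hr
      rcases hr with hr | hr
      · have := List.eq_of_mem_replicate hr; omega
      · have := List.eq_of_mem_replicate hr; omega))]
  rw [← smul_eq_mul (q - 1), ← Pi.smul_apply, ← map_smul, ← upow ht b p, vec_zeros,
    map_smul (Esum q ht), smul_comm (q - 1), E_FF, map_smul, upow_GG, map_smul, map_smul]
  simp only [Pi.smul_apply, smul_eq_mul, rep_P, compOp_apply, Pi.add_apply, Finset.sum_apply,
    GG, FF, hx_rho_x0 ht x0 hx0 hq, om_one]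
  ring

end

end Pool.Agent.Helper196Ehr
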