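import Mathlib
import Pool.Agent.Helper196_Ehr.Ident

set_option autoImplicit false
set_option linter.all false

namespace Pool.Agent.Helper196Ehr

open Finset

section flows

variable (Nb : ℕ → Finset ℕ)

/-- Integral flows with supplies `s`, where vertex `v` sends only to the vertices in `Nb v`. -/
def Flw (n : ℕ) (s : ℕ → ℕ) (A : ℕ → ℕ → ℕ) : Prop :=
  (∀ v j, A v j ≠ 0 → 1 ≤ v ∧ v ≤ n ∧ j ∈ Nb v) ∧
  ∀ v, 1 ≤ v → v ≤ n → ∑ j ∈ range v, A v j = s v + ∑ i ∈ Ioc v n, A i v

theorem Flw_succ (hNb : ∀ v, Nb v ⊆ range v) (n : ℕ) (s : ℕ → ℕ) (A : ℕ → ℕ → ℕ) :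
    Flw Nb (n+1) s A ↔ A (n+1) ∈ piAntidiag (Nb (n+1)) (s (n+1)) ∧
      Flw Nb n (fun v => s v + A (n+1) v) (Function.update A (n+1) 0) := by
  have hsum : ∀ v, v ≤ n → ∑ i ∈ Ioc v (n+1), A i v
      = A (n+1) v + ∑ i ∈ Ioc v n, (Function.update A (n+1) 0) i v := by
    intro v hv
    rw [← Finset.insert_Ioc_right_eq_Ioc_add_one (by omega), Finset.sum_insert (by simp)]
    congr 1
    refine Finset.sum_congr rfl fun i hi => ?_
    rw [Finset.mem_Ioc] at hi
    rw [Function.update_of_ne (by omega)]
  have hup : ∀ v, v ≤ n → (Function.update A (n+1) 0) v = A v := by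
    intro v hv
    rw [Function.update_of_ne (by omega)]
  constructor
  · rintro ⟨h1, h2⟩
    refine ⟨?_, ?_, ?_⟩
    · rw [mem_piAntidiag]
      refine ⟨?_, fun j hj => (h1 (n+1) j hj).2.2⟩
      have := h2 (n+1) (by omega) le_rfl
      rw [Finset.Ioc_self, Finset.sum_empty, add_zero] at this
      rw [← this]
      refine Finset.sum_subset (hNb (n+1)) fun j _ hj => ?_
      by_contra hc
      exact hj (h1 (n+1) j hc).2.2
    · intro v j hv
      by_cases hvn : v = n+1
      · subst hvn; simp at hv
      · rw [Function.update_of_ne hvn] at hv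
        obtain ⟨a, b, c⟩ := h1 v j hv
        exact ⟨a, by omega, c⟩
    · intro v h1v hvn
      rw [hup v hvn, h2 v h1v (by omega), hsum v hvn, add_assoc]
  · rintro ⟨h0, h1, h2⟩
    rw [mem_piAntidiag] at h0
    refine ⟨?_, ?_⟩
    · intro v j hv
      by_cases hvn : v = n+1
      · subst hvn; exact ⟨by omega, le_rfl, h0.2 j hv⟩
      · have := h1 v j (by rwa [Function.update_of_ne hvn])
        exact ⟨this.1, by omega, this.2.2⟩
    · intro v h1v hvn
      by_cases hvn' : v = n+1
      · subst hvn'
        rw [Finset.Ioc_self, Finset.sum_empty, add_zero, ← h0.1]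
        symm
        refine Finset.sum_subset (hNb (n+1)) fun j _ hj => ?_
        by_contra hc
        exact hj (h0.2 j hc)
      · have := h2 v h1v (by omega)
        rw [hup v (by omega)] at this
        rw [this, hsum v (by omega), add_assoc]

open Classical in
/-- the finite set of flows -/
noncomputable def FN : ℕ → (ℕ → ℕ) → Finset (ℕ → ℕ → ℕ)
  | 0, _ => {0}
  | n+1, s => (piAntidiag (Nb (n+1)) (s (n+1))).biUnion
      (fun f => (FN n (fun v => s v + f v)).image (fun A => Function.update A (n+1) f))

theorem mem_FN (hNb : ∀ v, Nb v ⊆ range v) (n : ℕ) : ∀ (s : ℕ → ℕ) (A : ℕ → ℕ → ℕ),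
    A ∈ FN Nb n s ↔ Flw Nb n s A := by
  induction n with
  | zero =>
    intro s A
    rw [FN, Finset.mem_singleton]
    constructor
    · rintro rfl
      exact ⟨fun v j h => absurd rfl h, fun v h1 h2 => by omega⟩
    · rintro ⟨h1, -⟩
      funext v j
      by_contra hc
      have := h1 v j hc
      omega
  | succ n ih =>
    intro s A
    rw [Flw_succ Nb hNb, ← ih, FN]
    simp only [Finset.mem_biUnion, Finset.mem_image]
    constructor
    · rintro ⟨f, hf, A', hA', rfl⟩
      have h1 : Function.update A' (n+1) f (n+1) = f := by simp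
      rw [h1]
      refine ⟨hf, ?_⟩
      rw [Function.update_idem]
      have h2 : Function.update A' (n+1) 0 = A' := by
        have := ((ih _ _).1 hA').1
        funext v j
        by_cases hv : v = n+1
        · subst hv
          rw [Function.update_self]
          by_contra hc
          have := this (n+1) j (Ne.symm hc)
          omega
        · rw [Function.update_of_ne hv]
      rw [h2]; exact hA'
    · rintro ⟨h1, h2⟩
      exact ⟨A (n+1), h1, _, h2, by rw [Function.update_idem, Function.update_eq_self]⟩

variable {R : Type*} [CommRing R] (om : ℕ → R)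

/-- the weighted sum, computed by removing the top vertex -/
def WW : ℕ → (ℕ → ℕ) → R
  | 0, _ => 1
  | n+1, s => ∑ f ∈ piAntidiag (Nb (n+1)) (s (n+1)),
      (∏ j ∈ range (n+1), om (f j)) * WW n (fun v => s v + f v)

theorem sum_FN (hNb : ∀ v, Nb v ⊆ range v) (n : ℕ) : ∀ (s : ℕ → ℕ),
    ∑ A ∈ FN Nb n s, ∏ v ∈ range (n+1), ∏ j ∈ range v, om (A v j) = WW Nb om n s := by
  classical
  induction n with
  | zero =>
    intro s
    rw [FN, Finset.sum_singleton, WW]
    simp
  | succ n ih =>
    intro s
    rw [FN, WW, Finset.sum_biUnion]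
    · refine Finset.sum_congr rfl fun f hf => ?_
      rw [Finset.sum_image, ← ih, Finset.mul_sum]
      · refine Finset.sum_congr rfl fun A hA => ?_
        rw [Finset.prod_range_succ, mul_comm, Function.update_self]
        congr 1
        refine Finset.prod_congr rfl fun v hv => ?_
        have := Finset.mem_range.1 hv
        rw [Function.update_of_ne (by omega)]
      · intro A hA A' hA' h
        have z : ∀ A ∈ FN Nb n (fun v => s v + f v), A (n+1) = 0 := by
          intro A hA
          rw [mem_FN Nb hNb] at hA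
          funext j
          by_contra hc
          have := hA.1 (n+1) j hc
          omega
        funext v
        by_cases hv : v = n+1
        · subst hv; rw [z A hA, z A' hA']
        · have := congrFun h v
          simp only [Function.update_of_ne hv] at this
          exact this
    · intro f hf f' hf' hne
      rw [Function.onFun, Finset.disjoint_left]
      intro A hA hA'
      rw [Finset.mem_image] at hA hA'
      obtain ⟨B, _, rfl⟩ := hA
      obtain ⟨B', _, h⟩ := hA'
      apply hne
      have := congrFun h (n+1)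
      simp only [Function.update_self] at this
      exact this.symm

theorem WW_congr (n : ℕ) : ∀ (s s' : ℕ → ℕ) (h : ∀ v, 1 ≤ v → v ≤ n → s v = s' v),
    WW Nb om n s = WW Nb om n s' := by
  induction n with
  | zero => intro s s' h; rw [WW, WW]
  | succ n ih =>
    intro s s' h
    rw [WW, WW, h (n+1) (by omega) le_rfl]
    refine Finset.sum_congr rfl fun f hf => ?_
    rw [ih _ _ (fun v h1 h2 => by rw [h v h1 (by omega)])]

theorem sl_congr (n : ℕ) (s s' : ℕ → ℕ) (h : ∀ v, 1 ≤ v → v ≤ n → s v = s' v) :
    sl s n = sl s' n := by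
  induction n with
  | zero => rfl
  | succ n ih => rw [sl, sl, h (n+1) (by omega) le_rfl, ih (fun v h1 h2 => h v h1 (by omega))]

theorem rsum_sl (g : ℕ → R) (n : ℕ) : ∀ (s : ℕ → ℕ) (m : ℕ) (Φ : List ℕ → R),
    rsum om g (sl s n) m Φ = ∑ f ∈ piAntidiag (range (n+1)) m,
      (∏ j ∈ range n, om (f (j+1))) * g (f 0) * Φ (sl (fun v => s v + f v) n) := by
  classical
  induction n with
  | zero =>
    intro s m Φ
    have h : piAntidiag (range (0+1)) m = {fun j => if j = 0 then m else 0} := by
      ext f
      rw [mem_piAntidiag, Finset.mem_singleton]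
      constructor
      · rintro ⟨h1, h2⟩
        rw [Finset.sum_range_one] at h1
        funext j
        by_cases hj : j = 0
        · subst hj; simp [h1]
        · rw [if_neg hj]
          by_contra hc
          have := h2 j hc
          rw [Finset.mem_range] at this
          omega
      · rintro rfl
        refine ⟨by simp, fun j hj => ?_⟩
        by_contra hc
        rw [Finset.mem_range] at hc
        exact hj (if_neg (by omega))
    rw [h, Finset.sum_singleton, sl, rsum]
    simp [sl]
  | succ n ih =>
    intro s m Φ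
    have h : range (n+1+1) = cons (n+1) (range (n+1)) (by simp) := by
      rw [Finset.range_add_one, Finset.cons_eq_insert]
    rw [h, piAntidiag_cons, Finset.sum_disjiUnion, sl, rsum]
    refine Finset.sum_congr rfl fun p hp => ?_
    rw [Finset.sum_map, ih, Finset.mul_sum]
    refine Finset.sum_congr rfl fun f hf => ?_
    rw [mem_piAntidiag] at hf
    have hf0 : f (n+1) = 0 := by
      by_contra hc
      have := hf.2 _ hc
      rw [Finset.mem_range] at this
      omega
    simp only [addRightEmbedding_apply, Pi.add_apply]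
    rw [Finset.prod_range_succ, hf0]
    have e1 : ∏ j ∈ range n, om (f (j+1) + if j + 1 = n + 1 then p.1 else 0)
        = ∏ j ∈ range n, om (f (j+1)) := by
      refine Finset.prod_congr rfl fun j hj => ?_
      have := Finset.mem_range.1 hj
      rw [if_neg (by omega), add_zero]
    rw [e1, if_pos rfl, if_neg (by omega), zero_add, add_zero, sl, hf0]
    have e2 : sl (fun v => s v + (f v + if v = n + 1 then p.1 else 0)) n
        = sl (fun v => s v + f v) n :=
      sl_congr n _ _ (fun v h1 h2 => by rw [if_neg (by omega), add_zero])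
    rw [e2, if_pos rfl, zero_add]
    ring

theorem WW_eq_SSn (n : ℕ) (h : ∀ v, 1 ≤ v → v ≤ n → Nb v = range v) : ∀ (s : ℕ → ℕ),
    WW Nb om n s = SSn om om n (sl s n) := by
  induction n with
  | zero => intro s; rw [WW, SSn]
  | succ n ih =>
    intro s
    rw [WW, sl, SSn, rsum_sl, h (n+1) (by omega) le_rfl]
    refine Finset.sum_congr rfl fun f hf => ?_
    rw [ih (fun v h1 h2 => h v h1 (by omega)), Finset.prod_range_succ' (fun j => om (f j))]

theorem sum_piAntidiag_one {M : Type*} [AddCommMonoid M] (S : Finset ℕ) (Φ : (ℕ → ℕ) → M) :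
    ∑ f ∈ piAntidiag S 1, Φ f = ∑ j ∈ S, Φ (fun k => if k = j then 1 else 0) := by
  classical
  symm
  refine Finset.sum_nbij (fun j => fun k => if k = j then 1 else 0) ?_ ?_ ?_ ?_
  · intro j hj
    rw [mem_piAntidiag]
    refine ⟨by rw [Finset.sum_ite_eq' S j, if_pos hj], fun k hk => ?_⟩
    by_contra hc
    apply hk
    rw [if_neg]
    rintro rfl
    exact hc hj
  · intro j hj j' hj' h
    have := congrFun h j
    simp only [if_true] at this
    by_contra hne
    rw [if_neg hne] at this
    omega
  · intro f hf
    rw [Finset.mem_coe, mem_piAntidiag] at hf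
    obtain ⟨h1, h2⟩ := hf
    have hex : ∃ j ∈ S, f j ≠ 0 := by
      by_contra hc
      push Not at hc
      rw [Finset.sum_eq_zero hc] at h1
      omega
    obtain ⟨j, hj, hfj⟩ := hex
    have h3 := Finset.add_sum_erase S f hj
    rw [h1] at h3
    have h4 : ∑ x ∈ S.erase j, f x = 0 := by omega
    rw [Finset.sum_eq_zero_iff] at h4
    refine ⟨j, hj, ?_⟩
    funext k
    by_cases hk : k = j
    · subst hk; simp only [if_true]; omega
    · simp only [if_neg hk]
      by_contra hc
      exact hc (h4 k (Finset.mem_erase.2 ⟨hk, h2 k (Ne.symm hc)⟩)).symm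
  · intro j hj; rfl

theorem prod_delta (h0 : om 0 = 1) (n i : ℕ) (hi : i < n) :
    ∏ j ∈ range n, om (if j = i then 1 else 0) = om 1 := by
  rw [Finset.prod_eq_single i]
  · simp
  · intro j _ hj; rw [if_neg hj, h0]
  · intro h; exact absurd (Finset.mem_range.2 hi) h

/-- removing pendant vertices -/
theorem WW_pendant (h0 : om 0 = 1) (k n : ℕ) (hkn : k ≤ n)
    (h : ∀ v, k < v → v ≤ n → Nb v = {0}) :
    WW Nb om n (fun _ => 1) = om 1 ^ (n - k) * WW Nb om k (fun _ => 1) := by
  induction n, hkn using Nat.le_induction with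
  | base => simp
  | succ n hkn ih =>
    rw [WW, h (n+1) (by omega) le_rfl, sum_piAntidiag_one, Finset.sum_singleton,
      prod_delta om h0 (n+1) 0 (by omega),
      WW_congr Nb om n _ (fun _ => 1) (fun v h1 h2 => by
        show 1 + (if v = 0 then 1 else 0) = 1
        rw [if_neg (by omega)]),
      ih (fun v h1 h2 => h v h1 (by omega))]
    have : n + 1 - k = (n - k) + 1 := by omega
    rw [this, pow_succ]; ring

/-- removing the vertex `k+1` which is adjacent to `0, …, p` -/
theorem WW_vertex (h0 : om 0 = 1) (k p : ℕ) (hp : p ≤ k)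
    (h1 : Nb (k+1) = range (p+1)) (h2 : ∀ v, 1 ≤ v → v ≤ k → Nb v = range v) :
    WW Nb om (k+1) (fun _ => 1) = om 1 * (SSn om om k (sl (fun _ => 1) k)
      + ∑ j ∈ range p, SSn om om k (sl (dl (j+1)) k)) := by
  rw [WW, h1, sum_piAntidiag_one, Finset.sum_range_succ', mul_add, Finset.mul_sum, add_comm]
  congr 1
  · rw [prod_delta om h0 (k+1) 0 (by omega), WW_eq_SSn Nb om k h2]
    congr 2
    exact sl_congr k _ _ (fun v h1 h2 => by
        show 1 + (if v = 0 then 1 else 0) = 1
        rw [if_neg (by omega)])
  · refine Finset.sum_congr rfl fun j hj => ?_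
    have := Finset.mem_range.1 hj
    rw [prod_delta om h0 (k+1) (j+1) (by omega), WW_eq_SSn Nb om k h2]
    rfl

/-- no flow exists if the top vertex has no neighbour below it -/
theorem WW_empty (n : ℕ) (s : ℕ → ℕ) (hs : s (n+1) ≠ 0) (h : Nb (n+1) = ∅) :
    WW Nb om (n+1) s = 0 := by
  rw [WW, h, piAntidiag_empty_of_ne_zero hs, Finset.sum_empty]

end flows

end Pool.Agent.Helper196Ehr
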