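import Mathlib
import Pool.Agent.Helper196_Ehr.Defs
import Pool.Agent.Helper196_Ehr.Flow

set_option autoImplicit false
set_option linter.all false

namespace Pool.Agent.Helper196Ehr

open Finset MvPolynomial

variable {n : ℕ}

/-- the neighbours of `v` below `v` -/
noncomputable def Nbr (G : SimpleGraph (Fin (n+1))) (v : ℕ) : Finset ℕ :=
  @Finset.filter ℕ (fun j => ∃ (hv : v < n+1) (hj : j < n+1), G.Adj ⟨v, hv⟩ ⟨j, hj⟩)
    (Classical.decPred _) (range v)

theorem Nbr_sub (G : SimpleGraph (Fin (n+1))) (v : ℕ) : Nbr G v ⊆ range v :=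
  @Finset.filter_subset _ _ (Classical.decPred _) _

theorem mem_Nbr (G : SimpleGraph (Fin (n+1))) (v j : Fin (n+1)) :
    (j : ℕ) ∈ Nbr G v ↔ j < v ∧ G.Adj v j := by
  rw [Nbr, @Finset.mem_filter _ _ (Classical.decPred _), Finset.mem_range]
  constructor
  · rintro ⟨h1, h2, h3, h4⟩; exact ⟨h1, h4⟩
  · rintro ⟨h1, h2⟩; exact ⟨h1, v.2, j.2, h2⟩

/-- extension by zero -/
def ext0 (A : Fin (n+1) → Fin (n+1) → ℕ) : ℕ → ℕ → ℕ := fun v j =>
  if h : v < n+1 ∧ j < n+1 then A ⟨v, h.1⟩ ⟨j, h.2⟩ else 0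

theorem ext0_fin (A : Fin (n+1) → Fin (n+1) → ℕ) (v j : Fin (n+1)) : ext0 A v j = A v j := by
  rw [ext0, dif_pos ⟨v.2, j.2⟩]

theorem ext0_inj : Function.Injective (ext0 (n := n)) := by
  intro A A' h
  funext v j
  rw [← ext0_fin A, h, ext0_fin A']

theorem isFlow_iff (G : SimpleGraph (Fin (n+1))) (A : Fin (n+1) → Fin (n+1) → ℕ) :
    IsFlow G A ↔ Flw (Nbr G) n (fun _ => 1) (ext0 A) := by
  have hout : ∀ v : Fin (n+1), (∑ j, A v j) = ∑ j ∈ range (n+1), ext0 A v j := by
    intro v
    rw [Finset.sum_range]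
    exact Finset.sum_congr rfl fun j _ => (ext0_fin A v j).symm
  have hin : ∀ v : Fin (n+1), (∑ i, A i v) = ∑ i ∈ range (n+1), ext0 A i v := by
    intro v
    rw [Finset.sum_range]
    exact Finset.sum_congr rfl fun j _ => (ext0_fin A j v).symm
  have key : (∀ i j, A i j ≠ 0 → G.Adj i j ∧ j < i) →
      (∀ v : Fin (n+1), (∑ j, A v j) = ∑ j ∈ range v, ext0 A v j) ∧
      (∀ v : Fin (n+1), (∑ i, A i v) = ∑ i ∈ Ioc (v:ℕ) n, ext0 A i v) := by
    intro h
    constructor
    · intro v
      rw [hout]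
      symm
      apply Finset.sum_subset
      · intro j hj
        rw [Finset.mem_range] at hj ⊢
        omega
      · intro j hj hj'
        rw [Finset.mem_range] at hj hj'
        by_contra hc
        have h1 := ext0_fin A v ⟨j, hj⟩
        simp only at h1
        rw [h1] at hc
        have := (h _ _ hc).2
        exact hj' this
    · intro v
      rw [hin]
      symm
      apply Finset.sum_subset
      · intro j hj
        rw [Finset.mem_Ioc] at hj
        rw [Finset.mem_range]
        omega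
      · intro j hj hj'
        rw [Finset.mem_range] at hj
        rw [Finset.mem_Ioc] at hj'
        by_contra hc
        have h1 := ext0_fin A ⟨j, hj⟩ v
        simp only at h1
        rw [h1] at hc
        have := (h _ _ hc).2
        apply hj'
        refine ⟨this, by omega⟩
  have supp : (∀ i j, A i j ≠ 0 → G.Adj i j ∧ j < i) ↔
      (∀ v j, ext0 A v j ≠ 0 → 1 ≤ v ∧ v ≤ n ∧ j ∈ Nbr G v) := by
    constructor
    · intro h v j hvj
      rw [ext0] at hvj
      by_cases hc : v < n+1 ∧ j < n+1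
      · rw [dif_pos hc] at hvj
        have h1 := h _ _ hvj
        refine ⟨?_, by omega, ?_⟩
        · have := h1.2
          rw [Fin.lt_def] at this
          simp only at this
          omega
        · have := (mem_Nbr G ⟨v, hc.1⟩ ⟨j, hc.2⟩).2 ⟨h1.2, h1.1⟩
          exact this
      · exact absurd (dif_neg hc) hvj
    · intro h i j hij
      have h1 := h i j (by rwa [ext0_fin])
      have h2 := (mem_Nbr G i j).1 h1.2.2
      exact ⟨h2.2, h2.1⟩
  constructor
  · rintro ⟨h1, h2⟩
    refine ⟨supp.1 h1, fun v hv1 hvn => ?_⟩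
    obtain ⟨k1, k2⟩ := key h1
    have h3 := h2 ⟨v, by omega⟩
    rw [k1, k2, if_neg (by intro h; rw [Fin.ext_iff] at h; simp at h; omega)] at h3
    simp only at h3
    show _ = 1 + _
    omega
  · rintro ⟨h1, h2⟩
    have h1' := supp.2 h1
    obtain ⟨k1, k2⟩ := key h1'
    have h3 : ∀ v : Fin (n+1), v ≠ 0 →
        ((∑ j, A v j : ℕ) : ℤ) - ((∑ i, A i v : ℕ) : ℤ) = 1 := by
      intro v hv
      have hv1 : 1 ≤ (v : ℕ) := by
        rcases Nat.eq_zero_or_pos (v : ℕ) with h | h
        · exact absurd (Fin.ext h) hv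
        · exact h
      have h4 : _ = 1 + _ := h2 v hv1 (by omega)
      rw [k1, k2]
      omega
    refine ⟨h1', fun v => ?_⟩
    by_cases hv : v = 0
    · subst hv
      rw [if_pos rfl]
      have htot : ∑ v : Fin (n+1), (((∑ j, A v j : ℕ) : ℤ) - ((∑ i, A i v : ℕ) : ℤ)) = 0 := by
        rw [Finset.sum_sub_distrib]
        push_cast
        rw [Finset.sum_comm, sub_self]
      rw [← Finset.add_sum_erase univ _ (Finset.mem_univ 0),
        Finset.sum_congr rfl (fun v hv => h3 v (Finset.ne_of_mem_erase hv))] at htot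
      rw [Finset.sum_const, Finset.card_erase_of_mem (Finset.mem_univ _), Finset.card_univ,
        Fintype.card_fin] at htot
      simp only [Nat.add_sub_cancel, nsmul_eq_mul, mul_one] at htot
      omega
    · rw [if_neg hv]; exact h3 v hv

/-- every flow uses at least `n` edges -/
theorem card_pos (G : SimpleGraph (Fin (n+1))) (A : Fin (n+1) → Fin (n+1) → ℕ) (h : IsFlow G A) :
    n ≤ (univ.filter (fun e : Fin (n+1) × Fin (n+1) => 0 < A e.1 e.2)).card := by
  have h1 : (univ.erase (0 : Fin (n+1))) ⊆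
      (univ.filter (fun e : Fin (n+1) × Fin (n+1) => 0 < A e.1 e.2)).image Prod.fst := by
    intro v hv
    have hv0 := Finset.ne_of_mem_erase hv
    have h2 := h.2 v
    rw [if_neg hv0] at h2
    have h3 : (∑ j, A v j) ≠ 0 := by omega
    obtain ⟨j, _, hj⟩ := Finset.exists_ne_zero_of_sum_ne_zero h3
    rw [Finset.mem_image]
    exact ⟨(v, j), by rw [Finset.mem_filter]; exact ⟨Finset.mem_univ _, Nat.pos_of_ne_zero hj⟩, rfl⟩
  have h2 := (Finset.card_le_card h1).trans Finset.card_image_le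
  rw [Finset.card_erase_of_mem (Finset.mem_univ _), Finset.card_univ, Fintype.card_fin] at h2
  exact h2

theorem om_eq (k : ℕ) : om (X 0 : MvPolynomial (Fin 2) ℤ) (X 1) k
    = (if 0 < k then -((1 - X 0) * (1 - X 1)) else 1) * wtb k := by
  rw [om, wtb, wtp]
  by_cases hk : k = 0
  · rw [if_pos hk, if_pos hk, if_neg (by omega), one_mul]
  · rw [if_neg hk, if_neg hk, if_pos (by omega)]

theorem weight_eq (G : SimpleGraph (Fin (n+1))) (A : Fin (n+1) → Fin (n+1) → ℕ)
    (h : IsFlow G A) :
    (-((1 - X 0) * (1 - X 1))) ^ n * wtA A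
      = ∏ v ∈ range (n+1), ∏ j ∈ range v, om (X 0 : MvPolynomial (Fin 2) ℤ) (X 1) (ext0 A v j) := by
  have h0 := ((isFlow_iff G A).1 h).1
  have h1 : ∀ v ∈ range (n+1), ∏ j ∈ range v, om (X 0 : MvPolynomial (Fin 2) ℤ) (X 1) (ext0 A v j)
      = ∏ j ∈ range (n+1), om (X 0 : MvPolynomial (Fin 2) ℤ) (X 1) (ext0 A v j) := by
    intro v hv
    rw [Finset.mem_range] at hv
    apply Finset.prod_subset
    · intro j hj
      rw [Finset.mem_range] at hj ⊢
      omega
    · intro j hj hj'
      have : ext0 A v j = 0 := by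
        by_contra hc
        exact hj' (Nbr_sub G v (h0 v j hc).2.2)
      rw [this, om_zero]
  rw [Finset.prod_congr rfl h1, Finset.prod_range]
  have h2 : ∀ v : Fin (n+1), ∏ j ∈ range (n+1), om (X 0 : MvPolynomial (Fin 2) ℤ) (X 1) (ext0 A v j)
      = ∏ j : Fin (n+1), om (X 0 : MvPolynomial (Fin 2) ℤ) (X 1) (A v j) := by
    intro v
    rw [Finset.prod_range]
    exact Finset.prod_congr rfl fun j _ => by rw [ext0_fin]
  rw [Finset.prod_congr rfl (fun v _ => h2 v), ← Finset.prod_product', Finset.univ_product_univ]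
  rw [Finset.prod_congr rfl (fun e _ => om_eq _), Finset.prod_mul_distrib, wtA, ← mul_assoc,
    ← pow_add]
  congr 1
  rw [Finset.prod_ite, Finset.prod_const, Finset.prod_const_one, mul_one,
    Nat.add_sub_cancel' (card_pos G A h)]

theorem Ehr_eq (G : SimpleGraph (Fin (n+1))) :
    (-((1 - X 0) * (1 - X 1))) ^ n * Ehr G
      = WW (Nbr G) (om (X 0 : MvPolynomial (Fin 2) ℤ) (X 1)) n (fun _ => 1) := by
  rw [← sum_FN (Nbr G) _ (Nbr_sub G)]
  have hbij : Set.BijOn (ext0 (n := n)) {A | IsFlow G A}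
      (FN (Nbr G) n (fun _ => 1) : Set (ℕ → ℕ → ℕ)) := by
    refine ⟨?_, ext0_inj.injOn, ?_⟩
    · intro A hA
      rw [Finset.mem_coe, mem_FN _ (Nbr_sub G)]
      exact (isFlow_iff G A).1 hA
    · intro B hB
      rw [Finset.mem_coe, mem_FN _ (Nbr_sub G)] at hB
      have hext : ext0 (fun v j : Fin (n+1) => B v j) = B := by
        funext v j
        rw [ext0]
        by_cases hc : v < n+1 ∧ j < n+1
        · rw [dif_pos hc]
        · rw [dif_neg hc]
          by_contra hne
          have h1 := hB.1 v j (Ne.symm hne)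
          have h2 := Nbr_sub G v h1.2.2
          rw [Finset.mem_range] at h2
          apply hc
          omega
      refine ⟨fun v j => B v j, ?_, hext⟩
      rw [Set.mem_setOf_eq, isFlow_iff, hext]
      exact hB
  have hfin : ({A | IsFlow G A} : Set (Fin (n+1) → Fin (n+1) → ℕ)).Finite := by
    exact hbij.finite_iff_finite.2 (Finset.finite_toSet _)
  rw [Ehr, mul_finsum_mem' _ _ hfin, ← finsum_mem_coe_finset]
  exact finsum_mem_eq_of_bijOn ext0 hbij (fun A hA => weight_eq G A hA)

end Pool.Agent.Helper196Ehr
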