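import Mathlib
import Pool.Agent.Helper196_Ehr.Trans

set_option autoImplicit false
set_option linter.all false

namespace Pool.Agent.Helper196Ehr

open Finset

variable {n : ℕ} (G : SimpleGraph (Fin (n+1)))

/-- in a threshold graph the neighbourhoods of two vertices are comparable -/
theorem compar (hT : IsThreshold G) (u w : Fin (n+1)) :
    (∀ x, x ≠ u → x ≠ w → G.Adj u x → G.Adj w x) ∨ (∀ x, x ≠ u → x ≠ w → G.Adj w x → G.Adj u x) := by
  obtain ⟨e, he⟩ := hT
  have main : ∀ p r : Fin (n+1), p < r →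
      ((∀ x, x ≠ e p → x ≠ e r → G.Adj (e p) x → G.Adj (e r) x) ∨
        (∀ x, x ≠ e p → x ≠ e r → G.Adj (e r) x → G.Adj (e p) x)) := by
    intro p r hpr
    rcases he r with h | h
    · left
      intro x hxp hxr hx
      obtain ⟨s, rfl⟩ := e.surjective x
      have hsr : s ≠ r := fun h => hxr (by rw [h])
      rcases lt_or_gt_of_ne hsr with hs | hs
      · exact h s hs
      · rcases he s with h' | h'
        · exact (h' r hs).symm
        · exact absurd hx.symm (h' p (hpr.trans hs))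
    · right
      intro x hxp hxr hx
      obtain ⟨s, rfl⟩ := e.surjective x
      have hsr : s ≠ r := fun h => hxr (by rw [h])
      rcases lt_or_gt_of_ne hsr with hs | hs
      · exact absurd hx (h s hs)
      · rcases he s with h' | h'
        · exact (h' p (hpr.trans hs)).symm
        · exact absurd hx.symm (h' r hs)
  obtain ⟨p, rfl⟩ := e.surjective u
  obtain ⟨r, rfl⟩ := e.surjective w
  rcases lt_trichotomy p r with h | h | h
  · exact main p r h
  · subst h; left; intro x _ _ hx; exact hx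
  · rcases main r p h with h' | h'
    · right; intro x h1 h2 h3; exact h' x h2 h1 h3
    · left; intro x h1 h2 h3; exact h' x h2 h1 h3

theorem nested (hT : IsThreshold G) (hS : DegSorted G) (i j x : Fin (n+1)) (hij : i < j)
    (hxi : x ≠ i) (hxj : x ≠ j) (h : G.Adj j x) : G.Adj i x := by
  rcases compar G hT i j with hc | hc
  · have hsub : G.neighborSet i \ {j} ⊆ G.neighborSet j \ {i} := by
      intro y hy
      rw [Set.mem_diff, SimpleGraph.mem_neighborSet, Set.mem_singleton_iff] at hy ⊢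
      have hyi : y ≠ i := fun h => by rw [h] at hy; exact G.loopless.irrefl i hy.1
      exact ⟨hc y hyi hy.2 hy.1, hyi⟩
    have hcard : (G.neighborSet j \ {i}).ncard ≤ (G.neighborSet i \ {j}).ncard := by
      have hd := hS i j hij
      rw [vdeg, vdeg] at hd
      by_cases hadj : G.Adj i j
      · rw [Set.ncard_diff_singleton_of_mem (show i ∈ G.neighborSet j from hadj.symm),
          Set.ncard_diff_singleton_of_mem (show j ∈ G.neighborSet i from hadj)]
        omega
      · rw [Set.diff_singleton_eq_self (show i ∉ G.neighborSet j from fun h => hadj h.symm),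
          Set.diff_singleton_eq_self (show j ∉ G.neighborSet i from hadj)]
        exact hd
    have heq := Set.eq_of_subset_of_ncard_le hsub hcard
    have hx : x ∈ G.neighborSet j \ {i} := ⟨h, hxi⟩
    rw [← heq] at hx
    exact hx.1
  · exact hc x hxi hxj h

/-- adjacency of natural numbers -/
def NA (v j : ℕ) : Prop := ∃ (hv : v < n+1) (hj : j < n+1), G.Adj ⟨v, hv⟩ ⟨j, hj⟩

variable {G}

theorem NA.symm {v j : ℕ} (h : NA G v j) : NA G j v := by
  obtain ⟨h1, h2, h3⟩ := h; exact ⟨h2, h1, h3.symm⟩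

theorem NA.le {v j : ℕ} (h : NA G v j) : v ≤ n := by
  obtain ⟨h1, h2, h3⟩ := h; omega

theorem NA.nest (hT : IsThreshold G) (hS : DegSorted G) {i j x : ℕ} (hij : i < j) (hxi : x ≠ i)
    (hxj : x ≠ j) (h : NA G j x) : NA G i x := by
  obtain ⟨h1, h2, h3⟩ := h
  refine ⟨by omega, h2, nested G hT hS _ _ _ ?_ ?_ ?_ h3⟩
  · rw [Fin.lt_def]; exact hij
  · intro h; exact hxi (congrArg Fin.val h)
  · intro h; exact hxj (congrArg Fin.val h)

theorem mem_Nbr' (v j : ℕ) : j ∈ Nbr G v ↔ j < v ∧ NA G v j := by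
  rw [Nbr, @Finset.mem_filter _ _ (Classical.decPred _), Finset.mem_range]; rfl

theorem NA_zero (hT : IsThreshold G) (hS : DegSorted G) (h0 : NA G n 0) (v : ℕ) (h1 : 1 ≤ v)
    (h2 : v ≤ n) : NA G v 0 := by
  rcases Nat.lt_or_ge v n with h | h
  · exact NA.nest hT hS h (by omega) (by omega) h0
  · have : v = n := by omega
    rw [this]; exact h0

theorem Nbr_empty (hT : IsThreshold G) (hS : DegSorted G) (h0 : ¬ NA G n 0) :
    Nbr G n = ∅ := by
  rw [Finset.eq_empty_iff_forall_notMem]
  intro j hj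
  rw [mem_Nbr'] at hj
  by_cases hj0 : j = 0
  · subst hj0; exact h0 hj.2
  · exact h0 (NA.nest hT hS (Nat.pos_of_ne_zero hj0) (by omega) (by omega) hj.2.symm).symm

theorem NA_of_connected (hT : IsThreshold G) (hS : DegSorted G) (h0 : NA G n 0) :
    G.Connected := by
  rw [SimpleGraph.connected_iff_exists_forall_reachable]
  refine ⟨0, fun w => ?_⟩
  by_cases hw : w = 0
  · subst hw; exact SimpleGraph.Reachable.refl _
  · have h1 : 1 ≤ (w : ℕ) := by
      rcases Nat.eq_zero_or_pos (w : ℕ) with h | h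
      · exact absurd (Fin.ext h) hw
      · exact h
    obtain ⟨a, b, c⟩ := NA_zero hT hS h0 w h1 (by omega)
    exact SimpleGraph.Adj.reachable c.symm

/-- the degree is at least two if there are two distinct neighbours -/
theorem two_le_vdeg {v a b : ℕ} (hv : v < n + 1) (h1 : NA G v a) (h2 : NA G v b) (h : a ≠ b) :
    2 ≤ vdeg G ⟨v, hv⟩ := by
  obtain ⟨_, ha, h1⟩ := h1
  obtain ⟨_, hb, h2⟩ := h2
  have : 1 < (G.neighborSet ⟨v, hv⟩).ncard := by
    rw [Set.one_lt_ncard_iff]
    exact ⟨⟨a, ha⟩, ⟨b, hb⟩, h1, h2, fun h' => h (congrArg Fin.val h')⟩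
  exact this

theorem down_closed (S : Finset ℕ) (h0 : 0 ∈ S) (h : ∀ x ∈ S, ∀ y, y < x → y ∈ S) (K : ℕ)
    (hK : S ⊆ range (K+1)) : ∃ p, p ≤ K ∧ S = range (p+1) := by
  have hne : S.Nonempty := ⟨0, h0⟩
  refine ⟨S.max' hne, ?_, ?_⟩
  · have := hK (S.max'_mem hne)
    rw [Finset.mem_range] at this
    omega
  · ext x
    rw [Finset.mem_range]
    constructor
    · intro hx
      have := S.le_max' x hx
      omega
    · intro hx
      rcases Nat.lt_or_ge x (S.max' hne) with h1 | h1
      · exact h _ (S.max'_mem hne) x h1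
      · have : x = S.max' hne := by omega
        rw [this]; exact S.max'_mem hne

theorem structure_one (hT : IsThreshold G) (hS : DegSorted G) (hn : 1 ≤ n) (h0 : NA G n 0)
    (hv : ∃ v, ∀ i j, i ≠ j → i ≠ v → j ≠ v → 2 ≤ vdeg G i → 2 ≤ vdeg G j → G.Adj i j) :
    ∃ k p, p ≤ k ∧ k + 1 ≤ n ∧ (∀ v, 1 ≤ v → v ≤ k → Nbr G v = range v) ∧
      Nbr G (k+1) = range (p+1) ∧ (∀ v, k+1 < v → v ≤ n → Nbr G v = {0}) := by
  classical
  have hex : ∃ K, 1 ≤ K ∧ K ≤ n ∧ ∀ v, K < v → v ≤ n → ∀ j, j < v → NA G v j → j = 0 :=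
    ⟨n, hn, le_rfl, fun v h1 h2 => by omega⟩
  obtain ⟨hK1, hKn, hK⟩ := Nat.find_spec hex
  have hmin := fun m (hm : m < Nat.find hex) => Nat.find_min hex hm
  generalize Nat.find hex = K at hK1 hKn hK hmin
  obtain ⟨k, rfl⟩ : ∃ k, K = k + 1 := ⟨K - 1, by omega⟩
  have hkey : 1 ≤ k → ∃ j, 0 < j ∧ j < k + 1 ∧ NA G (k+1) j := by
    intro hk
    by_contra hc
    apply hmin k (by omega)
    refine ⟨hk, by omega, fun v h1 h2 j h3 h4 => ?_⟩
    rcases Nat.lt_or_ge (k+1) v with h | h
    · exact hK v h h2 j h3 h4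
    · have : v = k + 1 := by omega
      subst this
      by_contra hj
      exact hc ⟨j, by omega, h3, h4⟩
  obtain ⟨p, hp, hSp⟩ := down_closed (Nbr G (k+1))
    ((mem_Nbr' _ _).2 ⟨by omega, NA_zero hT hS h0 _ (by omega) hKn⟩)
    (fun x hx y hy => by
      rw [mem_Nbr'] at hx ⊢
      exact ⟨by omega, (NA.nest hT hS hy (by omega) (by omega) hx.2.symm).symm⟩)
    k (Nbr_sub G (k+1))
  refine ⟨k, p, hp, hKn, ?_, hSp, ?_⟩
  · intro v hv1 hvk
    obtain ⟨j0, hj0, hj0k, hj0A⟩ := hkey (by omega)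
    have hdegK : 2 ≤ vdeg G ⟨k+1, by omega⟩ :=
      two_le_vdeg _ (NA_zero hT hS h0 (k+1) (by omega) hKn) hj0A (by omega)
    have hdeg : ∀ i (hi : i < n+1), i ≤ k → 2 ≤ vdeg G ⟨i, hi⟩ := by
      intro i hi hik
      exact hdegK.trans (hS ⟨i, hi⟩ ⟨k+1, by omega⟩ (by rw [Fin.lt_def]; simp only; omega))
    obtain ⟨v0, hv0⟩ := hv
    have hclique : ∀ i j, i ≤ k + 1 → j ≤ k + 1 → i ≠ j → i ≠ (v0 : ℕ) → j ≠ (v0 : ℕ) → NA G i j := by
      intro i j hi hj hij hi0 hj0
      refine ⟨by omega, by omega, hv0 _ _ ?_ ?_ ?_ ?_ ?_⟩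
      · intro h; exact hij (congrArg Fin.val h)
      · intro h; exact hi0 (congrArg Fin.val h)
      · intro h; exact hj0 (congrArg Fin.val h)
      · rcases Nat.lt_or_ge k i with h | h
        · have : i = k + 1 := by omega
          subst this; exact hdegK
        · exact hdeg i _ h
      · rcases Nat.lt_or_ge k j with h | h
        · have : j = k + 1 := by omega
          subst this; exact hdegK
        · exact hdeg j _ h
    ext j
    rw [mem_Nbr', Finset.mem_range]
    constructor
    · rintro ⟨h, -⟩; exact h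
    · intro hjv
      refine ⟨hjv, ?_⟩
      by_cases h1 : v = (v0 : ℕ)
      · exact NA.nest hT hS (show v < k + 1 by omega) (by omega) (by omega)
          (hclique (k+1) j le_rfl (by omega) (by omega) (by omega) (by omega))
      · by_cases h2 : j = (v0 : ℕ)
        · exact (NA.nest hT hS (show j < k + 1 by omega) (by omega) (by omega)
            (hclique (k+1) v le_rfl (by omega) (by omega) (by omega) (by omega))).symm
        · exact hclique v j (by omega) (by omega) (by omega) h1 h2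
  · intro v h1 h2
    ext j
    rw [mem_Nbr', Finset.mem_singleton]
    constructor
    · rintro ⟨h3, h4⟩; exact hK v h1 h2 j h3 h4
    · rintro rfl; exact ⟨by omega, NA_zero hT hS h0 v (by omega) h2⟩

end Pool.Agent.Helper196Ehr
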