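import Mathlib
import Pool.Agent.Helper196_Ehr.Daha2
import Pool.Agent.Helper196_Ehr.Gam

set_option autoImplicit false
set_option linter.all false

namespace Pool.Agent.Helper196Ehr

open Finset

section
variable {F : Type*} [Field F] {N : ℕ} {q t : F} (ht : t ≠ 0)

theorem qpow_apply (m : ℕ) (A : Module.End F (VV F N t)) (G : VV F N t) (x : Pt (F := F) N t) :
    ((algebraMap F (Module.End F (VV F N t)) q) ^ m * A) G x = q ^ m * A G x := by
  rw [← map_pow, Module.End.mul_apply, scal_apply]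

theorem tsub_apply (A : Module.End F (VV F N t)) (G : VV F N t) (x : Pt (F := F) N t) :
    ((algebraMap F (Module.End F (VV F N t)) t - 1) * A) G x = (t - 1) * A G x := by
  rw [sub_mul, one_mul, LinearMap.sub_apply, Pi.sub_apply, Module.End.mul_apply, scal_apply]
  ring

theorem tsub_eq (A : Module.End F (VV F N t)) (G : VV F N t) :
    ((algebraMap F (Module.End F (VV F N t)) t - 1) * A) G = (t - 1) • A G := by
  funext x; rw [tsub_apply]; rfl

theorem qsub_eq (A : Module.End F (VV F N t)) (G : VV F N t) :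
    ((1 - algebraMap F (Module.End F (VV F N t)) q) * A) G = (1 - q) • A G := by
  funext x
  rw [sub_mul, one_mul, LinearMap.sub_apply, Pi.sub_apply, Module.End.mul_apply, scal_apply,
    Pi.smul_apply, smul_eq_mul]
  ring

theorem comm_apply {A B : Module.End F (VV F N t)} (h : Commute A B) (G : VV F N t) :
    A (B G) = B (A G) := by
  rw [← Module.End.mul_apply, h.eq, Module.End.mul_apply]

/-- `G` is invariant under `T_a` for `k ≤ a < N` -/
def Inv (q : F) (ht : t ≠ 0) (k : ℕ) (G : VV F N t) : Prop :=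
  ∀ a, k ≤ a → a < N → (rep q ht).T a G = G

variable {ht}

theorem Inv.mono {k l : ℕ} {G : VV F N t} (h : Inv q ht k G) (hkl : k ≤ l) : Inv q ht l G :=
  fun a h1 h2 => h a (hkl.trans h1) h2

theorem Inv.smul {k : ℕ} {G : VV F N t} (h : Inv q ht k G) (c : F) : Inv q ht k (c • G) :=
  fun a h1 h2 => by rw [map_smul, h a h1 h2]

theorem Inv.D {k : ℕ} {G : VV F N t} (h : Inv q ht k G) (j : ℕ) (hj : j ≤ k) :
    Inv q ht k ((rep q ht).D j G) := by
  intro a h1 h2
  have h3 := (rep (N := N) q ht).TD j a (hj.trans h1) h2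
  rw [← Module.End.mul_apply, h3, Module.End.mul_apply, h a h1 h2]

theorem Inv.Y {k : ℕ} {G : VV F N t} (h : Inv q ht k G) (j : ℕ) (hj : j < k) (hN : j ≤ N) :
    Inv q ht k ((rep q ht).Y j G) := by
  intro a h1 h2
  have h3 := (rep (N := N) q ht).TY_far a j h2 hN (by omega) (by omega)
  rw [← Module.End.mul_apply, h3, Module.End.mul_apply, h a h1 h2]

theorem Inv.S {k : ℕ} {G : VV F N t} (h : Inv q ht k G) : Inv q ht k ((rep q ht).S G) := by
  rw [← Daha.D_zero]; exact h.D 0 (by omega)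

theorem Inv.E {k : ℕ} {G : VV F N t} (h : Inv q ht k G) : Inv q ht k ((rep q ht).E G) := by
  intro a h1 h2
  rw [comm_apply ((rep (N := N) q ht).TE a h2).symm, h a h1 h2]

theorem Inv.P {k : ℕ} {G : VV F N t} (h : Inv q ht k G) (hN : 0 < N) :
    Inv q ht (k+1) ((rep q ht).P G) := by
  intro a h1 h2
  obtain ⟨b, rfl⟩ : ∃ b, a = b + 1 := ⟨a - 1, by omega⟩
  rw [← Module.End.mul_apply, ← (rep (N := N) q ht).PT b h2, Module.End.mul_apply,
    h b (by omega) (by omega)]

theorem Inv.Ppow {G : VV F N t} (h : Inv q ht 0 G) (k : ℕ) :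
    Inv q ht k (((rep q ht).P ^ k) G) := by
  intro a h1 h2
  obtain ⟨b, rfl⟩ : ∃ b, a = b + k := ⟨a - k, by omega⟩
  rw [← Module.End.mul_apply, ← (rep (N := N) q ht).PpowT k b h2, Module.End.mul_apply,
    h b (by omega) (by omega)]

/-- the other invariance of `P ^ k G` -/
theorem Inv.Ppow' {G : VV F N t} (h : Inv q ht 0 G) (k a : ℕ) (ha : a + 1 < k) (hk : k ≤ N + 1)
    (hN : 0 < N) : (rep q ht).T a (((rep q ht).P ^ k) G) = ((rep q ht).P ^ k) G := by
  obtain ⟨m, rfl⟩ : ∃ m, k = a + 2 + m := ⟨k - (a + 2), by omega⟩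
  set H := rep (N := N) q ht with hH
  have h1 : H.T a * H.P ^ (a + 2) = H.P ^ (a+2) * H.T (N-1) := by
    have e1 := H.PpowT a 0 (by omega)
    rw [zero_add] at e1
    have e2 := H.TPP hN
    rw [pow_add, ← mul_assoc, ← e1, mul_assoc, mul_assoc, pow_two, ← mul_assoc (H.T 0), e2]
  have h2 : H.P ^ m * H.T (N - 1 - m) = H.T (N-1) * H.P ^ m := by
    have e1 := H.PpowT m (N - 1 - m) (by omega)
    rw [show N - 1 - m + m = N - 1 by omega] at e1
    exact e1
  have h3 : H.T a * H.P ^ (a + 2 + m) = H.P ^ (a+2+m) * H.T (N-1-m) := by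
    rw [pow_add, ← mul_assoc, h1, mul_assoc, ← h2, ← mul_assoc]
  rw [← Module.End.mul_apply, h3, Module.End.mul_apply, h _ (by omega) (by omega)]

variable (ht)
variable (x0 : Pt (F := F) N t) (hx : ∀ i, i ≤ N → x0.1 i = q ^ i)

include hx in
theorem ev_rchT (m j : ℕ) (h : j + m ≤ N) (G : VV F N t) :
    rch (rep q ht).T m j G x0 = G x0 := by
  induction m generalizing j with
  | zero => rfl
  | succ m ih =>
    rw [rch_succ, Module.End.mul_apply, ev_T ht x0 hx _ (by omega), ih _ (by omega)]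

include hx in
theorem ev_rchTt (m j : ℕ) (h : j + m ≤ N) (G : VV F N t) :
    rch (rep q ht).Tt m j G x0 = q ^ m * G x0 := by
  induction m generalizing j with
  | zero => rw [rch_zero, pow_zero, one_mul]; rfl
  | succ m ih =>
    rw [rch_succ, Module.End.mul_apply, ev_Tt ht x0 hx _ (by omega), ih _ (by omega)]; ring

include hx in
theorem ev_DXm (hq0 : q ≠ 0) (i m : ℕ) (h : i + m ≤ N) (G : VV F N t) :
    (rep q ht).D i ((rep q ht).X (i+m) G) x0
      = q ^ i * (rep q ht).D (i+1) (rch (rep q ht).Tt m i G) x0 := by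
  have h1 := congrArg (fun A : Module.End F (VV F N t) => A G x0) ((rep (N := N) q ht).DXm i m h)
  simp only [qpow_apply, Module.End.mul_apply] at h1
  rw [ev_X ht x0 hx _ h, ev_chainT ht x0 hx _ _ h] at h1
  have h2 : q ^ m ≠ 0 := pow_ne_zero _ hq0
  apply mul_left_cancel₀ h2
  rw [h1, pow_add]; ring

include hx in
theorem ev_DDX (hq0 : q ≠ 0) (i j k : ℕ) (hji : j ≤ i) (hik : i ≤ k) (hk : k ≤ N) (G : VV F N t) :
    (rep q ht).D i ((rep q ht).D j ((rep q ht).X k G)) x0
      = q ^ j * (rep q ht).D (i+1) ((rep q ht).D (j+1) (rch (rep q ht).Tt (k-j) j G)) x0 := by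
  set H := rep (N := N) q ht with hH
  set H2 := H.D (j+1) (rch H.Tt (k-j) j G) with hH2
  have h1 := congrArg (fun A : Module.End F (VV F N t) => (H.D i * A) G x0)
    (H.DXm j (k-j) (by omega))
  have hk1 : j + (k - j) = k := by omega
  rw [hk1] at h1
  have e1 : (H.D i * ((algebraMap F (Module.End F (VV F N t)) q) ^ (k-j) * (H.D j * H.X k)))
      = (algebraMap F (Module.End F (VV F N t)) q) ^ (k-j) * (H.D i * (H.D j * H.X k)) := by
    rw [← mul_assoc, ← H.cqpow, mul_assoc]
  rw [e1, qpow_apply] at h1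
  simp only [Module.End.mul_apply] at h1
  rw [← hH2] at h1
  have h2 := ev_DXm ht x0 hx hq0 i (k-i) (by omega) (chain H.T (k-j) j H2)
  rw [show i + (k - i) = k by omega] at h2
  rw [← hH] at h2
  rw [h2] at h1
  have h3 : rch H.Tt (k-i) i (chain H.T (k-j) j H2) = q ^ (k-i) • chain H.T (i-j) j H2 := by
    have e2 : k - j = (k - i) + (i - j) := by omega
    have e3 : j + (i - j) = i := by omega
    rw [e2, chain_add, e3, ← Module.End.mul_apply, ← mul_assoc, H.Tt_T_chain (k-i) i (by omega)]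
    funext x
    rw [qpow_apply]; rfl
  have h4 : H.D (i+1) (chain H.T (i-j) j H2) x0 = H.D (i+1) H2 x0 := by
    have c : Commute (H.D (i+1)) (chain H.T (i-j) j) :=
      chain_commute _ _ _ _ (fun a h1 h2 => H.TD' (i+1) a (by omega) (by omega) (by omega))
    rw [comm_apply c, ev_chainT ht x0 hx _ _ (by omega)]
  rw [h3, map_smul, Pi.smul_apply, smul_eq_mul, h4] at h1
  have h5 : q ^ (k-j) ≠ 0 := pow_ne_zero _ hq0
  apply mul_left_cancel₀ h5
  rw [h1, ← mul_assoc, ← mul_assoc, ← pow_add, ← pow_add]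
  congr 2; omega

include hx in
theorem ev_D_rchTt (i m : ℕ) (h : i + m ≤ N) (G : VV F N t) :
    (rep q ht).D (i+1) (rch (rep q ht).Tt m i G) x0
      = q ^ m * (rep q ht).D i G x0 + (t - 1) * (rep q ht).Y (i+m) G x0 := by
  have h1 := congrArg (fun A : Module.End F (VV F N t) => A G x0) ((rep (N := N) q ht).D_rch m i h)
  simp only [LinearMap.add_apply, Pi.add_apply, tsub_apply] at h1
  rw [Module.End.mul_apply, Module.End.mul_apply, Module.End.mul_apply,
    ev_rchTt ht x0 hx _ _ h, ev_rchT ht x0 hx _ _ h] at h1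
  exact h1

include hx in
theorem ev_D_rchTt' (i j k : ℕ) (hji : j ≤ i) (hik : i ≤ k) (hk : k ≤ N) (G : VV F N t) :
    (rep q ht).D (i+1) (rch (rep q ht).Tt (k-j) j G) x0
      = q ^ (i-j) * (rep q ht).D (i+1) (rch (rep q ht).Tt (k-i) i G) x0 := by
  set H := rep (N := N) q ht with hH
  have e2 : k - j = (i - j) + (k - i) := by omega
  have e3 : j + (i - j) = i := by omega
  have c : Commute (H.D (i+1)) (rch H.Tt (i-j) j) :=
    rch_commute _ _ _ _ (fun a h1 h2 => H.TtD' (i+1) a (by omega) (by omega) (by omega))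
  rw [e2, rch_add, e3, Module.End.mul_apply, comm_apply c, ev_rchTt ht x0 hx _ _ (by omega)]

include hx in
theorem ev_D_rchT' (i j k : ℕ) (hji : j ≤ i) (hik : i ≤ k) (hk : k ≤ N) (G : VV F N t) :
    (rep q ht).D (i+1) (rch (rep q ht).T (k-j) j G) x0
      = (rep q ht).D (i+1) (rch (rep q ht).T (k-i) i G) x0 := by
  set H := rep (N := N) q ht with hH
  have e2 : k - j = (i - j) + (k - i) := by omega
  have e3 : j + (i - j) = i := by omega
  have c : Commute (H.D (i+1)) (rch H.T (i-j) j) :=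
    rch_commute _ _ _ _ (fun a h1 h2 => H.TD' (i+1) a (by omega) (by omega) (by omega))
  rw [e2, rch_add, e3, Module.End.mul_apply, comm_apply c, ev_rchT ht x0 hx _ _ (by omega)]

include hx in
theorem ev_D_rchT (i m : ℕ) (h : i + m ≤ N) (G : VV F N t) :
    (rep q ht).D (i+1) (rch (rep q ht).T m i G) x0
      = (rep q ht).D i G x0 + (t - 1) * (rep q ht).Y i (rch (rep q ht).T m i G) x0 := by
  set H := rep (N := N) q ht with hH
  have c : Commute (H.D i) (rch H.T m i) :=
    rch_commute _ _ _ _ (fun a h1 h2 => (H.TD i a h1 (by omega)).symm)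
  rw [H.D_succ i (by omega), LinearMap.add_apply, Pi.add_apply, tsub_apply, comm_apply c,
    ev_rchT ht x0 hx _ _ h]

include hx in
theorem ev_Y_rchT (m : ℕ) : ∀ (i : ℕ) (h : i + m ≤ N) (G : VV F N t),
    (rep q ht).Y i (rch (rep q ht).T m i G) x0
      = (rep q ht).Y (i+m) G x0 + (1 - q) * ∑ a ∈ range m, (rep q ht).Y (i+a) G x0 := by
  induction m with
  | zero => intro i h G; simp [rch]
  | succ m ih =>
    intro i h G
    set H := rep (N := N) q ht with hH
    have e1 : H.Y i * H.T i = H.T i * H.Y (i+1) + (1 - algebraMap F _ q) * H.Y i := by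
      rw [H.T_Y_succ i (by omega), Daha.Tt, mul_sub, H.cq1]; abel
    have c : Commute (H.Y i) (rch H.T m (i+1)) :=
      rch_commute _ _ _ _ (fun a h1 h2 => (H.TY_far a i (by omega) (by omega) (by omega)
        (by omega)).symm)
    rw [rch_succ, Module.End.mul_apply, ← Module.End.mul_apply (H.Y i), e1, LinearMap.add_apply,
      Pi.add_apply, qsub_eq, Pi.smul_apply, smul_eq_mul, Module.End.mul_apply,
      ev_T ht x0 hx i (by omega), comm_apply c, ev_rchT ht x0 hx _ _ (by omega),
      ih (i+1) (by omega), Finset.sum_range_succ']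
    have e2 : ∀ a, i + 1 + a = i + (a + 1) := fun a => by omega
    simp only [e2, add_zero]
    ring

/-- value of `Y_k` without invariance -/
theorem ev_Y_gen (hx : ∀ i, i ≤ N → x0.1 i = q ^ i) (k : ℕ) (hk : k ≤ N) (G : VV F N t) :
    (rep q ht).Y k G x0 = q ^ k * (rep q ht).P (chain (rep q ht).T (N-k) k G) x0 := by
  rw [Daha.Y, Daha.Z, Module.End.mul_apply, Module.End.mul_apply, Module.End.mul_apply,
    ev_chainTt ht x0 hx _ _ (by omega), ev_X ht x0 hx 0 (by omega)]
  simp

theorem chainT_Y (k m : ℕ) (h : k + m ≤ N) (G : VV F N t) (hG : Inv q ht k G) :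
    chain (rep q ht).T m k ((rep q ht).Y k G)
      = (rep q ht).Y (k+m) G + (1 - q) • ∑ a ∈ range m, (rep q ht).Y (k+a) G := by
  induction m with
  | zero => simp [chain]
  | succ m ih =>
    set H := rep (N := N) q ht with hH
    have e1 : H.T (k+m) (H.Y (k+m) G) = H.Y (k+m+1) G + (1 - q) • H.Y (k+m) G := by
      have e2 : H.T (k+m) * H.Y (k+m) = H.Y (k+m+1) * H.T (k+m)
          + (1 - algebraMap F _ q) * H.Y (k+m) := by
        rw [H.Y_succ_T (k+m) (by omega), Daha.Tt, sub_mul]; abel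
      rw [← Module.End.mul_apply, e2, LinearMap.add_apply, Module.End.mul_apply,
        hG _ (by omega) (by omega), qsub_eq]
    have e3 : ∀ a ∈ range m, H.T (k+m) (H.Y (k+a) G) = H.Y (k+a) G := by
      intro a ha
      have := Finset.mem_range.1 ha
      rw [← Module.End.mul_apply, H.TY_far (k+m) (k+a) (by omega) (by omega) (by omega) (by omega),
        Module.End.mul_apply, hG _ (by omega) (by omega)]
    rw [chain_succ', Module.End.mul_apply, ih (by omega), map_add, map_smul, map_sum, e1,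
      Finset.sum_congr rfl e3, Finset.sum_range_succ, smul_add]
    have e4 : k + (m + 1) = k + m + 1 := by omega
    rw [e4]
    abel

theorem P_YN (G : VV F N t) : (rep q ht).P ((rep q ht).Y N G) = t • (rep q ht).Y 0 ((rep q ht).P G) := by
  rw [← Module.End.mul_apply, (rep (N := N) q ht).PYN, Module.End.mul_apply]
  funext x
  rw [Module.End.mul_apply, scal_apply]; rfl

/-- the elements `Y` commute -/
theorem YY (ht1 : t ≠ 1) (a k : ℕ) (hak : a < k) (hk : k ≤ N) :
    Commute ((rep (N := N) q ht).Y a) ((rep q ht).Y k) := by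
  set H := rep (N := N) q ht with hH
  have h1 := (H.DY a k (by omega) hk).eq
  have h2 := (H.DY (a+1) k (by omega) hk).eq
  rw [H.D_succ a (by omega), add_mul, mul_add, h1] at h2
  have h3 := add_left_cancel h2
  rw [mul_assoc, ← mul_assoc (H.Y k), ← H.ct1, mul_assoc] at h3
  apply LinearMap.ext; intro G; funext x
  have h4 := congrArg (fun A : Module.End F (VV F N t) => A G x) h3
  simp only [tsub_apply] at h4
  exact mul_left_cancel₀ (sub_ne_zero.2 ht1) h4

/-- the sum of the powers of `q` -/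
def br {R : Type*} [CommSemiring R] (q : R) (k : ℕ) : R := ∑ i ∈ range k, q ^ i

theorem br_zero {R : Type*} [CommSemiring R] (q : R) : br q 0 = 0 := by simp [br]

theorem br_succ {R : Type*} [CommSemiring R] (q : R) (k : ℕ) : br q (k+1) = br q k + q ^ k := by
  rw [br, Finset.sum_range_succ]; rfl

theorem br_mul {R : Type*} [CommRing R] (q : R) (k : ℕ) : (1 - q) * br q k = 1 - q ^ k := by
  have := geom_sum_mul q k; rw [br]; linear_combination -this

theorem br_add {R : Type*} [CommSemiring R] (q : R) (k m : ℕ) :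
    br q (k+m) = br q k + q ^ k * br q m := by
  rw [br, Finset.sum_range_add, br, br, Finset.mul_sum]
  simp only [pow_add]

/-- the tail sum -/
theorem tail_sum (hq : q ^ (N+1) = 1) (hq1 : q ≠ 1) (k : ℕ) (hk : k ≤ N) :
    q ^ k * ∑ s ∈ range (N+1-k), q ^ s = - br q k := by
  have h1 : q ^ k * br q (N+1-k) + br q k = 0 := by
    rw [add_comm, ← br_add, show k + (N + 1 - k) = N + 1 by omega]
    have h2 := br_mul q (N+1)
    rw [hq, sub_self] at h2
    exact (mul_eq_zero.1 h2).resolve_left (sub_ne_zero.2 hq1.symm)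
  exact eq_neg_of_add_eq_zero_left h1

include hx in
/-- main formula for two letters -/
theorem ev_DDX_full (hq0 : q ≠ 0) (ht1 : t ≠ 1) (i j k : ℕ) (hji : j ≤ i) (hik : i ≤ k)
    (hk : k ≤ N) (G : VV F N t) (hG : Inv q ht k G) :
    (rep q ht).D i ((rep q ht).D j ((rep q ht).X k G)) x0
      = q ^ k * ((rep q ht).D i ((rep q ht).D j G) x0
        + (t - 1) * q ^ i * (rep q ht).P ((rep q ht).D j G) x0
        + (t - 1) * q ^ j * (rep q ht).P ((rep q ht).D i G) x0
        + (t - 1) ^ 2 * q ^ j * ((1 - q) * (rep q ht).P ((rep q ht).D i G) x0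
          + t * (q * (rep q ht).Y 0 ((rep q ht).P G) x0
            - (1 - q) * ∑ a ∈ range i, (rep q ht).P ((rep q ht).Y a G) x0))) := by
  set H := rep (N := N) q ht with hH
  -- the vector
  have v1 : H.D (j+1) (rch H.Tt (k-j) j G)
      = rch H.Tt (k-j) j (H.D j G) + (t - 1) • rch H.T (k-j) j (H.Y k G) := by
    have e := H.D_rch (k-j) j (by omega)
    rw [show j + (k - j) = k by omega] at e
    rw [← Module.End.mul_apply, e, LinearMap.add_apply, tsub_eq]; rfl
  have a1 : H.D (i+1) (rch H.Tt (k-j) j (H.D j G)) x0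
      = q ^ (i-j) * (q ^ (k-i) * H.D i (H.D j G) x0 + (t - 1) * H.Y k (H.D j G) x0) := by
    rw [ev_D_rchTt' ht x0 hx i j k hji hik hk, ev_D_rchTt ht x0 hx i (k-i) (by omega),
      show i + (k - i) = k by omega]
  have a2 : H.D (i+1) (rch H.T (k-j) j (H.Y k G)) x0
      = H.D i (H.Y k G) x0 + (t - 1) * (H.Y k (H.Y k G) x0
        + (1 - q) * ∑ a ∈ range (k-i), H.Y (i+a) (H.Y k G) x0) := by
    rw [ev_D_rchT' ht x0 hx i j k hji hik hk, ev_D_rchT ht x0 hx i (k-i) (by omega),
      ev_Y_rchT ht x0 hx (k-i) i (by omega), show i + (k - i) = k by omega]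
  have a3 : H.Y k (H.D j G) x0 = q ^ k * H.P (H.D j G) x0 :=
    ev_Y ht x0 hx k hk _ (fun a h1 h2 => hG.D j (by omega) a h1 h2)
  have a4 : H.D i (H.Y k G) x0 = q ^ k * H.P (H.D i G) x0 := by
    rw [comm_apply (H.DY i k hik hk)]
    exact ev_Y ht x0 hx k hk _ (fun a h1 h2 => hG.D i (by omega) a h1 h2)
  have a5 : ∀ a ∈ range (k-i), H.Y (i+a) (H.Y k G) x0 = q ^ k * H.P (H.Y (i+a) G) x0 := by
    intro a ha
    have := Finset.mem_range.1 ha
    rw [comm_apply (YY ht ht1 (i+a) k (by omega) hk)]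
    exact ev_Y ht x0 hx k hk _ (fun b h1 h2 => hG.Y (i+a) (by omega) (by omega) b h1 h2)
  have a6 : H.Y k (H.Y k G) x0 = q ^ k * (t * H.Y 0 (H.P G) x0
      + (1 - q) * ∑ a ∈ range (N-k), H.P (H.Y (k+a) G) x0) := by
    rw [ev_Y_gen ht x0 hx k hk, chainT_Y ht k (N-k) (by omega) G hG,
      show k + (N - k) = N by omega, map_add, P_YN, map_smul, map_sum, Pi.add_apply,
      Pi.smul_apply, Pi.smul_apply, Finset.sum_apply, smul_eq_mul, smul_eq_mul]
  have a7 : H.P (H.D i G) x0 = t * ∑ a ∈ range i, H.P (H.Y a G) x0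
      + ∑ a ∈ range (k-i), H.P (H.Y (i+a) G) x0
      + ∑ a ∈ range (N-k), H.P (H.Y (k+a) G) x0 + t * H.Y 0 (H.P G) x0 := by
    have e1 : H.P (H.D i G) x0 = ∑ a ∈ range (N+1), (if a < i then t else 1) * H.P (H.Y a G) x0 := by
      rw [Daha.D, LinearMap.sum_apply, map_sum, Finset.sum_apply]
      refine Finset.sum_congr rfl fun a _ => ?_
      split_ifs
      · have : ((algebraMap F (Module.End F (VV F N t)) t) * H.Y a) G = t • H.Y a G := by
          funext x; rw [Module.End.mul_apply, scal_apply]; rfl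
        rw [this, map_smul, Pi.smul_apply, smul_eq_mul]
      · rw [one_mul, one_mul]
    rw [e1, Finset.sum_range_succ, if_neg (by omega), P_YN, Pi.smul_apply, smul_eq_mul, one_mul]
    congr 1
    have e2 : N = i + ((k - i) + (N - k)) := by omega
    have e3 : ∑ a ∈ range N, (if a < i then t else 1) * H.P (H.Y a G) x0
        = ∑ a ∈ range (i + ((k-i) + (N-k))), (if a < i then t else 1) * H.P (H.Y a G) x0 := by
      rw [← e2]
    rw [e3, Finset.sum_range_add, Finset.sum_range_add, Finset.mul_sum, add_assoc]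
    congr 1
    · exact Finset.sum_congr rfl fun a ha => by rw [if_pos (Finset.mem_range.1 ha)]
    · congr 1
      · exact Finset.sum_congr rfl fun a ha => by rw [if_neg (by omega), one_mul]
      · refine Finset.sum_congr rfl fun a ha => ?_
        rw [if_neg (by omega), one_mul, show i + (k - i + a) = k + a by omega]
  rw [ev_DDX ht x0 hx hq0 i j k hji hik hk, v1, map_add, map_smul, Pi.add_apply, Pi.smul_apply,
    smul_eq_mul, a1, a2, a3, a4, a6, Finset.sum_congr rfl a5, ← Finset.mul_sum, a7]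
  have p1 : q ^ k = q ^ j * q ^ (i-j) * q ^ (k-i) := by rw [← pow_add, ← pow_add]; congr 1; omega
  have p2 : q ^ i = q ^ j * q ^ (i-j) := by rw [← pow_add]; congr 1; omega
  rw [p1, p2]
  ring

end

end Pool.Agent.Helper196Ehr
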