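import Mathlib
import Pool.Agent.Helper196_Ehr.Func

set_option autoImplicit false
set_option linter.all false

namespace Pool.Agent.Helper196Ehr

open Finset

section
variable {R : Type*} [CommSemiring R] (q t : R)

/-- the recursion for the lowest order terms in `t`; `true` is a dominating vertex, `false` an
isolated one -/
def abc : List Bool → (ℕ → R) × (ℕ → ℕ → R) × (ℕ → ℕ → ℕ → R)
  | [] => (fun _ => 1, fun j _ => br q j, fun i j _ => br q i * br q (j+1))
  | false :: w =>
      (fun k => br q k * (abc w).1 k,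
       fun j k => (br q k + t) * (abc w).2.1 j k + q ^ j * br q k * (abc w).1 (k+1),
       fun i j k => br q k * ((abc w).2.2 i j k + q ^ i * (abc w).2.1 (j+1) (k+1)
        + q ^ (j+1) * (abc w).2.1 (i+1) (k+1)))
  | true :: w =>
      (fun k => br q k * (abc w).1 (k+1) + t * (abc w).2.1 0 k,
       fun j k => br q k * (abc w).2.1 (j+1) (k+1) + t * (abc w).2.2 j 0 k,
       fun i j k => br q k * (abc w).2.2 (i+1) (j+1) (k+1))

/-- order three -/
def fa (w : List Bool) (k : ℕ) : R := (abc q t w).1 k
/-- order two -/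
def fb (w : List Bool) (j k : ℕ) : R := (abc q t w).2.1 j k
/-- order one -/
def fc (w : List Bool) (i j k : ℕ) : R := (abc q t w).2.2 i j k

theorem fa_nil (k : ℕ) : fa q t [] k = 1 := rfl
theorem fb_nil (j k : ℕ) : fb q t [] j k = br q j := rfl
theorem fc_nil (i j k : ℕ) : fc q t [] i j k = br q i * br q (j+1) := rfl
theorem fa_false (w : List Bool) (k : ℕ) : fa q t (false :: w) k = br q k * fa q t w k := rfl
theorem fb_false (w : List Bool) (j k : ℕ) : fb q t (false :: w) j k
    = (br q k + t) * fb q t w j k + q ^ j * br q k * fa q t w (k+1) := rfl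
theorem fc_false (w : List Bool) (i j k : ℕ) : fc q t (false :: w) i j k
    = br q k * (fc q t w i j k + q ^ i * fb q t w (j+1) (k+1)
        + q ^ (j+1) * fb q t w (i+1) (k+1)) := rfl
theorem fa_true (w : List Bool) (k : ℕ) : fa q t (true :: w) k
    = br q k * fa q t w (k+1) + t * fb q t w 0 k := rfl
theorem fb_true (w : List Bool) (j k : ℕ) : fb q t (true :: w) j k
    = br q k * fb q t w (j+1) (k+1) + t * fc q t w j 0 k := rfl
theorem fc_true (w : List Bool) (i j k : ℕ) : fc q t (true :: w) i j k
    = br q k * fc q t w (i+1) (j+1) (k+1) := rfl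

/-- two appended letters -/
def g2 (w : List Bool) (k : ℕ) : ℕ → ℕ → ℕ → ℕ → R
  | 0, u, r, s => fc q t w r s (k+u)
  | b+1, u, r, s => br q (u+1) * g2 w k b (u+1) (r+1) (s+1)

/-- one appended letter -/
def g1 (w : List Bool) (k : ℕ) : ℕ → ℕ → ℕ → R
  | 0, u, r => fb q t w r (k+u)
  | b+1, u, r => br q (u+1) * g1 w k b (u+1) (r+1) + t * g2 q t w k b u r 0

/-- no appended letter -/
def g0 (w : List Bool) (k : ℕ) : ℕ → ℕ → R
  | 0, u => fa q t w (k+u)
  | b+1, u => br q (u+1) * g0 w k b (u+1) + t * g1 q t w k b u 0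

/-- the natural preorder -/
def Le (x y : R) : Prop := ∃ d, y = x + d

theorem Le.refl (x : R) : Le x x := ⟨0, by simp⟩

theorem Le.trans {x y z : R} (h : Le x y) (h' : Le y z) : Le x z := by
  obtain ⟨d, rfl⟩ := h
  obtain ⟨e, rfl⟩ := h'
  exact ⟨d + e, by ring⟩

theorem Le.add {x y z w : R} (h : Le x y) (h' : Le z w) : Le (x + z) (y + w) := by
  obtain ⟨d, rfl⟩ := h
  obtain ⟨e, rfl⟩ := h'
  exact ⟨d + e, by ring⟩

theorem Le.mul {x y z w : R} (h : Le x y) (h' : Le z w) : Le (x * z) (y * w) := by
  obtain ⟨d, rfl⟩ := h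
  obtain ⟨e, rfl⟩ := h'
  exact ⟨x * e + d * z + d * e, by ring⟩

theorem br_le (k : ℕ) : Le (br q k) (br q (k+1)) := ⟨q ^ k, br_succ q k⟩

theorem f_mono (w : List Bool) : (∀ k, Le (fa q t w k) (fa q t w (k+1))) ∧
    (∀ j k, Le (fb q t w j k) (fb q t w j (k+1))) ∧
    (∀ i j k, Le (fc q t w i j k) (fc q t w i j (k+1))) := by
  induction w with
  | nil => exact ⟨fun k => Le.refl _, fun j k => Le.refl _, fun i j k => Le.refl _⟩
  | cons a w ih =>
    obtain ⟨ha, hb, hc⟩ := ih
    cases a with
    | false =>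
      refine ⟨fun k => ?_, fun j k => ?_, fun i j k => ?_⟩
      · rw [fa_false, fa_false]
        exact (br_le q k).mul (ha k)
      · rw [fb_false, fb_false]
        exact (((br_le q k).add (Le.refl t)).mul (hb j k)).add
          (((Le.refl _).mul (br_le q k)).mul (ha (k+1)))
      · rw [fc_false, fc_false]
        exact (br_le q k).mul (((hc i j k).add ((Le.refl _).mul (hb _ _))).add
          ((Le.refl _).mul (hb _ _)))
    | true =>
      refine ⟨fun k => ?_, fun j k => ?_, fun i j k => ?_⟩
      · rw [fa_true, fa_true]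
        exact ((br_le q k).mul (ha (k+1))).add ((Le.refl _).mul (hb _ _))
      · rw [fb_true, fb_true]
        exact ((br_le q k).mul (hb _ _)).add ((Le.refl _).mul (hc _ _ _))
      · rw [fc_true, fc_true]
        exact (br_le q k).mul (hc _ _ _)

theorem g2_mono (w : List Bool) (k b : ℕ) : ∀ u r s,
    Le (g2 q t w k b u r s) (g2 q t w (k+1) b u r s) := by
  induction b with
  | zero =>
    intro u r s
    rw [g2, g2, show k + 1 + u = k + u + 1 by omega]
    exact (f_mono q t w).2.2 _ _ _
  | succ b ih =>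
    intro u r s
    rw [g2, g2]
    exact (Le.refl _).mul (ih _ _ _)

theorem g1_mono (w : List Bool) (k b : ℕ) : ∀ u r,
    Le (g1 q t w k b u r) (g1 q t w (k+1) b u r) := by
  induction b with
  | zero =>
    intro u r
    rw [g1, g1, show k + 1 + u = k + u + 1 by omega]
    exact (f_mono q t w).2.1 _ _
  | succ b ih =>
    intro u r
    rw [g1, g1]
    exact ((Le.refl _).mul (ih _ _)).add ((Le.refl _).mul (g2_mono q t w k b _ _ _))

theorem g0_mono (w : List Bool) (k b : ℕ) : ∀ u,
    Le (g0 q t w k b u) (g0 q t w (k+1) b u) := by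
  induction b with
  | zero =>
    intro u
    rw [g0, g0, show k + 1 + u = k + u + 1 by omega]
    exact (f_mono q t w).1 _
  | succ b ih =>
    intro u
    rw [g0, g0]
    exact ((Le.refl _).mul (ih _)).add ((Le.refl _).mul (g1_mono q t w k b _ _))

variable {R' : Type*} [CommSemiring R'] (f : R →+* R')

theorem map_br (k : ℕ) : f (br q k) = br (f q) k := by
  rw [br, br, map_sum]; simp

theorem map_f (w : List Bool) : (∀ k, f (fa q t w k) = fa (f q) (f t) w k) ∧
    (∀ j k, f (fb q t w j k) = fb (f q) (f t) w j k) ∧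
    (∀ i j k, f (fc q t w i j k) = fc (f q) (f t) w i j k) := by
  induction w with
  | nil =>
    exact ⟨fun k => by rw [fa_nil, fa_nil, map_one], fun j k => by rw [fb_nil, fb_nil, map_br],
      fun i j k => by rw [fc_nil, fc_nil, map_mul, map_br, map_br]⟩
  | cons a w ih =>
    obtain ⟨ha, hb, hc⟩ := ih
    cases a with
    | false =>
      refine ⟨fun k => ?_, fun j k => ?_, fun i j k => ?_⟩
      · rw [fa_false, fa_false, map_mul, map_br, ha]
      · rw [fb_false, fb_false, map_add, map_mul, map_mul, map_mul, map_add, map_br, hb, ha,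
          map_pow]
      · rw [fc_false, fc_false, map_mul, map_add, map_add, map_mul, map_mul, map_br, hc, hb, hb,
          map_pow, map_pow]
    | true =>
      refine ⟨fun k => ?_, fun j k => ?_, fun i j k => ?_⟩
      · rw [fa_true, fa_true, map_add, map_mul, map_mul, map_br, ha, hb]
      · rw [fb_true, fb_true, map_add, map_mul, map_mul, map_br, hb, hc]
      · rw [fc_true, fc_true, map_mul, map_br, hc]

theorem map_g2 (w : List Bool) (k b : ℕ) : ∀ u r s,
    f (g2 q t w k b u r s) = g2 (f q) (f t) w k b u r s := by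
  induction b with
  | zero => intro u r s; rw [g2, g2, (map_f q t f w).2.2]
  | succ b ih => intro u r s; rw [g2, g2, map_mul, map_br, ih]

theorem map_g1 (w : List Bool) (k b : ℕ) : ∀ u r,
    f (g1 q t w k b u r) = g1 (f q) (f t) w k b u r := by
  induction b with
  | zero => intro u r; rw [g1, g1, (map_f q t f w).2.1]
  | succ b ih => intro u r; rw [g1, g1, map_add, map_mul, map_mul, map_br, ih, map_g2]

theorem map_g0 (w : List Bool) (k b : ℕ) : ∀ u,
    f (g0 q t w k b u) = g0 (f q) (f t) w k b u := by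
  induction b with
  | zero => intro u; rw [g0, g0, (map_f q t f w).1]
  | succ b ih => intro u; rw [g0, g0, map_add, map_mul, map_mul, map_br, ih, map_g1]

end

end Pool.Agent.Helper196Ehr
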