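import Mathlib
import Pool.Agent.Helper196_Ehr.Func

set_option autoImplicit false
set_option linter.all false

namespace Pool.Agent.Helper196Ehr

open Finset MvPolynomial

/-- divided differences of polynomials -/
theorem divdiff {R : Type*} [CommRing R] (i : ℕ) (p : MvPolynomial ℕ R) :
    ∃ r, p - rename (Equiv.swap i (i+1)) p = (X (i+1) - X i) * r := by
  induction p using MvPolynomial.induction_on with
  | C a => exact ⟨0, by simp⟩
  | add p q hp hq =>
    obtain ⟨r, hr⟩ := hp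
    obtain ⟨s, hs⟩ := hq
    exact ⟨r + s, by rw [map_add, mul_add, ← hr, ← hs]; ring⟩
  | mul_X p n hp =>
    obtain ⟨r, hr⟩ := hp
    have hX : ∃ s, (X n - X (Equiv.swap i (i+1) n) : MvPolynomial ℕ R) = (X (i+1) - X i) * s := by
      by_cases h1 : n = i
      · subst h1
        exact ⟨-1, by rw [Equiv.swap_apply_left]; ring⟩
      · by_cases h2 : n = i + 1
        · subst h2
          exact ⟨1, by rw [Equiv.swap_apply_right]; ring⟩
        · exact ⟨0, by rw [Equiv.swap_apply_of_ne_of_ne h1 h2]; ring⟩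
    obtain ⟨s, hs⟩ := hX
    refine ⟨r * X n + rename (Equiv.swap i (i+1)) p * s, ?_⟩
    rw [map_mul, rename_X, mul_add, ← mul_assoc, ← hr]
    linear_combination (rename (Equiv.swap i (i+1)) p) * hs

section
variable {F : Type*} [Field F] {N : ℕ} {q t : F} (𝒪 : Subring F)

/-- functions given by polynomials with coefficients in the subring -/
def IsP (G : VV F N t) : Prop :=
  ∃ p : MvPolynomial ℕ 𝒪, ∀ x : Pt (F := F) N t, G x = aeval x.1 p

variable {𝒪}

theorem IsP.one : IsP 𝒪 (fun _ => 1 : VV F N t) := ⟨1, fun x => by simp⟩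

theorem IsP.add {G G' : VV F N t} (h : IsP 𝒪 G) (h' : IsP 𝒪 G') : IsP 𝒪 (G + G') := by
  obtain ⟨p, hp⟩ := h
  obtain ⟨p', hp'⟩ := h'
  exact ⟨p + p', fun x => by rw [Pi.add_apply, hp, hp', map_add]⟩

theorem IsP.zero : IsP 𝒪 (0 : VV F N t) := ⟨0, fun x => by simp⟩

theorem IsP.smul {G : VV F N t} (h : IsP 𝒪 G) (c : F) (hc : c ∈ 𝒪) : IsP 𝒪 (c • G) := by
  obtain ⟨p, hp⟩ := h
  refine ⟨C (⟨c, hc⟩ : 𝒪) * p, fun x => ?_⟩
  rw [map_mul, aeval_C, Pi.smul_apply, smul_eq_mul, hp]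
  rfl

theorem IsP.sum {ι : Type*} (s : Finset ι) (f : ι → VV F N t) (h : ∀ i ∈ s, IsP 𝒪 (f i)) :
    IsP 𝒪 (∑ i ∈ s, f i) := by
  classical
  induction s using Finset.induction_on with
  | empty => rw [Finset.sum_empty]; exact IsP.zero
  | insert a s ha ih =>
    rw [Finset.sum_insert ha]
    exact (h a (Finset.mem_insert_self a s)).add (ih (fun i hi => h i (Finset.mem_insert_of_mem hi)))

variable (ht : t ≠ 0)

theorem IsP.X {G : VV F N t} (h : IsP 𝒪 G) (i : ℕ) : IsP 𝒪 ((rep q ht).X i G) := by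
  obtain ⟨p, hp⟩ := h
  refine ⟨MvPolynomial.X i * p, fun x => ?_⟩
  rw [map_mul, aeval_X, ← hp]; rfl

theorem IsP.P (ht' : t ∈ 𝒪) {G : VV F N t} (h : IsP 𝒪 G) : IsP 𝒪 ((rep q ht).P G) := by
  obtain ⟨p, hp⟩ := h
  refine ⟨aeval (fun k => if k < N then MvPolynomial.X (k+1) else if k = N then
    C (⟨t, ht'⟩ : 𝒪) * MvPolynomial.X 0 else MvPolynomial.X k : ℕ → MvPolynomial ℕ 𝒪) p,
      fun x => ?_⟩
  rw [rep_P, compOp_apply, hp, rhoP_val]
  have h1 : (aeval x.1 : MvPolynomial ℕ 𝒪 →ₐ[𝒪] F).comp (aeval (fun k => if k < N then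
      MvPolynomial.X (k+1) else if k = N then
      C (⟨t, ht'⟩ : 𝒪) * MvPolynomial.X 0 else MvPolynomial.X k : ℕ → MvPolynomial ℕ 𝒪))
      = aeval (rho N t x.1) := by
    apply MvPolynomial.algHom_ext
    intro k
    rw [AlgHom.comp_apply, aeval_X, aeval_X, rho]
    split_ifs
    · rw [aeval_X]
    · rw [map_mul, aeval_C, aeval_X]; rfl
    · rw [aeval_X]
  rw [← h1]; rfl

theorem IsP.T (hq' : q ∈ 𝒪) {G : VV F N t} (h : IsP 𝒪 G) (i : ℕ) (hi : i < N) :
    IsP 𝒪 ((rep q ht).T i G) := by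
  obtain ⟨p, hp⟩ := h
  obtain ⟨r, hr⟩ := divdiff i p
  refine ⟨p - (MvPolynomial.X (i+1) - C (⟨q, hq'⟩ : 𝒪) * MvPolynomial.X i) * r, fun x => ?_⟩
  have h1 : G (swP i x) = aeval x.1 p - (x.1 (i+1) - x.1 i) * aeval x.1 r := by
    rw [hp, swP_val i hi]
    have h2 := congrArg (aeval x.1 : MvPolynomial ℕ 𝒪 →ₐ[𝒪] F) hr
    rw [map_sub, map_mul, map_sub, aeval_X, aeval_X, aeval_rename] at h2
    have h3 : x.1 ∘ (Equiv.swap i (i+1)) = sw i x.1 := by
      funext k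
      rw [Function.comp_apply, sw]
      by_cases h1 : k = i
      · rw [if_pos h1, h1, Equiv.swap_apply_left]
      · by_cases h2 : k = i + 1
        · rw [if_neg h1, if_pos h2, h2, Equiv.swap_apply_right]
        · rw [if_neg h1, if_neg h2, Equiv.swap_apply_of_ne_of_ne h1 h2]
    rw [h3] at h2
    linear_combination -h2
  have hne := x.ne (i+1) i (by omega) (by omega) (by omega)
  rw [rep_T, Top_apply, h1, hp, map_sub, map_mul, map_sub, map_mul, aeval_X, aeval_X, aeval_C,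
    ca, cb]
  have h4 : (algebraMap 𝒪 F) ⟨q, hq'⟩ = q := rfl
  rw [h4]
  field_simp
  ring

theorem IsP.Tt (hq' : q ∈ 𝒪) {G : VV F N t} (h : IsP 𝒪 G) (i : ℕ) (hi : i < N) :
    IsP 𝒪 ((rep q ht).Tt i G) := by
  have h1 : (rep q ht).Tt i G = (rep q ht).T i G + (q - 1) • G := by
    funext x
    rw [Daha.Tt, LinearMap.sub_apply, LinearMap.sub_apply, Pi.sub_apply, Pi.sub_apply, scal_apply,
      Module.End.one_apply, Pi.add_apply, Pi.smul_apply, smul_eq_mul]; ring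
  rw [h1]
  exact (h.T ht hq' i hi).add (h.smul _ (𝒪.sub_mem hq' 𝒪.one_mem))

theorem IsP.chainT (hq' : q ∈ 𝒪) {G : VV F N t} (h : IsP 𝒪 G) (m j : ℕ) (hm : j + m ≤ N) :
    IsP 𝒪 (chain (rep q ht).T m j G) := by
  induction m with
  | zero => exact h
  | succ m ih =>
    rw [chain_succ', Module.End.mul_apply]
    exact (ih (by omega)).T ht hq' _ (by omega)

theorem IsP.chainTt (hq' : q ∈ 𝒪) {G : VV F N t} (h : IsP 𝒪 G) (m j : ℕ) (hm : j + m ≤ N) :
    IsP 𝒪 (chain (rep q ht).Tt m j G) := by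
  induction m with
  | zero => exact h
  | succ m ih =>
    rw [chain_succ', Module.End.mul_apply]
    exact (ih (by omega)).Tt ht hq' _ (by omega)

theorem IsP.Y (hq' : q ∈ 𝒪) (ht' : t ∈ 𝒪) {G : VV F N t} (h : IsP 𝒪 G) (j : ℕ) (hj : j ≤ N) :
    IsP 𝒪 ((rep q ht).Y j G) := by
  rw [Daha.Y, Daha.Z, Module.End.mul_apply, Module.End.mul_apply, Module.End.mul_apply]
  exact (((h.chainT ht hq' _ _ (by omega)).P ht ht').X ht 0).chainTt ht hq' _ _ (by omega)

theorem IsP.D (hq' : q ∈ 𝒪) (ht' : t ∈ 𝒪) {G : VV F N t} (h : IsP 𝒪 G) (k : ℕ) :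
    IsP 𝒪 ((rep q ht).D k G) := by
  rw [Daha.D, LinearMap.sum_apply]
  apply IsP.sum
  intro j hj
  have hj' := Finset.mem_range.1 hj
  have h1 := h.Y ht hq' ht' j (by omega)
  split_ifs
  · have : ((algebraMap F (Module.End F (VV F N t)) t) * (rep q ht).Y j :
        Module.End F (VV F N t)) G = t • (rep q ht).Y j G := by
      funext x; rw [Module.End.mul_apply, scal_apply]; rfl
    rw [this]
    exact h1.smul _ ht'
  · rw [one_mul]; exact h1

theorem IsP.S (hq' : q ∈ 𝒪) (ht' : t ∈ 𝒪) {G : VV F N t} (h : IsP 𝒪 G) :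
    IsP 𝒪 ((rep q ht).S G) := by
  rw [← Daha.D_zero]; exact h.D ht hq' ht' 0

theorem IsP.E {G : VV F N t} (h : IsP 𝒪 G) : IsP 𝒪 ((rep q ht).E G) := by
  rw [Daha.E, LinearMap.sum_apply]
  exact IsP.sum _ _ (fun j _ => h.X ht j)

theorem IsP.Ppow (ht' : t ∈ 𝒪) {G : VV F N t} (h : IsP 𝒪 G) (k : ℕ) :
    IsP 𝒪 (((rep q ht).P ^ k) G) := by
  induction k with
  | zero => exact h
  | succ k ih =>
    rw [pow_succ', Module.End.mul_apply]
    exact ih.P ht ht'

theorem IsP.eval {G : VV F N t} (h : IsP 𝒪 G) (x0 : Pt (F := F) N t) (hx : ∀ i, x0.1 i ∈ 𝒪) :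
    G x0 ∈ 𝒪 := by
  obtain ⟨p, hp⟩ := h
  rw [hp]
  clear hp
  induction p using MvPolynomial.induction_on with
  | C a => rw [aeval_C]; exact a.2
  | add p q hp hq => rw [map_add]; exact 𝒪.add_mem hp hq
  | mul_X p n hp => rw [map_mul, aeval_X]; exact 𝒪.mul_mem hp (hx n)

end

end Pool.Agent.Helper196Ehr
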