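import Mathlib
import Pool.Agent.Helper196_Ehr.Func
import Pool.Agent.Helper196_Ehr.Poly

set_option autoImplicit false
set_option linter.all false

namespace Pool.Agent.Helper196Ehr

open Finset

/-- the data of an evaluation point -/
structure EvD {F : Type*} [Field F] (𝒪 : Subring F) (N : ℕ) (q t : F) : Prop where
  hN : 0 < N
  hq : q ^ (N+1) = 1
  hq1 : q ≠ 1
  hq0 : q ≠ 0
  hbr : ∀ k, 1 ≤ k → k ≤ N → br q k ≠ 0
  ht0 : t ≠ 0
  ht1 : t ≠ 1
  qO : q ∈ 𝒪
  tO : t ∈ 𝒪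
  uO : (t - 1)⁻¹ ∈ 𝒪
  good : Good N t (fun i => q ^ i)

section
variable {F : Type*} [Field F] {𝒪 : Subring F} {N : ℕ} {q t : F} (e : EvD 𝒪 N q t)

/-- the evaluation point -/
def EvD.pt (e : EvD 𝒪 N q t) : Pt (F := F) N t := ⟨fun i => q ^ i, e.good⟩

theorem EvD.hx (i : ℕ) (hi : i ≤ N) : e.pt.1 i = q ^ i := rfl

theorem EvD.ptO (i : ℕ) : e.pt.1 i ∈ 𝒪 := 𝒪.pow_mem e.qO i

include e in
theorem EvD.brO (k : ℕ) : br q k ∈ 𝒪 := 𝒪.sum_mem (fun i _ => 𝒪.pow_mem e.qO i)

include e in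
theorem EvD.tu : (t - 1) * (t - 1)⁻¹ = 1 := mul_inv_cancel₀ (sub_ne_zero.2 e.ht1)

/-- the functional of order zero -/
noncomputable def fA (e : EvD 𝒪 N q t) (G : VV F N t) (k : ℕ) : F :=
  ((rep q e.ht0).P ^ k) G e.pt
/-- the functional of order one -/
noncomputable def fB (e : EvD 𝒪 N q t) (G : VV F N t) (j k : ℕ) : F :=
  (t - 1)⁻¹ * (rep q e.ht0).D j (((rep q e.ht0).P ^ k) G) e.pt
/-- the functional of order two -/
noncomputable def fC (e : EvD 𝒪 N q t) (G : VV F N t) (i j k : ℕ) : F :=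
  (t - 1)⁻¹ ^ 2 * (rep q e.ht0).D i ((rep q e.ht0).D j (((rep q e.ht0).P ^ k) G)) e.pt

/-- normalised sums -/
noncomputable def Sh (q : F) {t : F} (ht : t ≠ 0) (G : VV F N t) : VV F N t :=
  (t - 1)⁻¹ • (rep q ht).S G
/-- normalised multiplication -/
noncomputable def Eh (q : F) {t : F} (ht : t ≠ 0) (G : VV F N t) : VV F N t :=
  (t - 1)⁻¹ • (rep q ht).E G

include e in
theorem EvD.tail (k : ℕ) (hk : k ≤ N) :
    (∑ j ∈ range (N+1), if j < k then 0 else q ^ j) = - br q k := by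
  have h1 := geom_part (q := q) N k hk
  rw [e.hq] at h1
  have h2 := br_mul q k
  have h3 : q - 1 ≠ 0 := sub_ne_zero.2 e.hq1
  apply mul_left_cancel₀ h3
  rw [h1, ← h2]; ring

theorem head (k : ℕ) (hk : k ≤ N) (G : VV F N t) (hG : Inv q e.ht0 k G) :
    (t - 1)⁻¹ * (rep q e.ht0).D k G e.pt
      = t * ((t - 1)⁻¹ * (rep q e.ht0).D 0 G e.pt) + br q k * (rep q e.ht0).P G e.pt := by
  have h1 := ev_D e.ht0 e.pt e.hx k hk G hG
  rw [e.tail k hk] at h1
  rw [h1, Daha.D_zero]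
  linear_combination (br q k * (rep q e.ht0).P G e.pt) * e.tu

theorem D0_zero (G : VV F N t) (hG : Inv q e.ht0 0 G) : (rep q e.ht0).D 0 G e.pt = 0 := by
  have h := head e 0 (by omega) G hG
  rw [br_zero, zero_mul, add_zero] at h
  have h2 : (t - 1)⁻¹ * (rep q e.ht0).D 0 G e.pt * (t - 1) = 0 := by linear_combination -h
  have h3 : (t - 1)⁻¹ ≠ 0 := inv_ne_zero (sub_ne_zero.2 e.ht1)
  rcases mul_eq_zero.1 h2 with h4 | h4
  · exact (mul_eq_zero.1 h4).resolve_left h3
  · exact absurd h4 (sub_ne_zero.2 e.ht1)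

theorem Pk_S (G : VV F N t) (k : ℕ) (hk : k ≤ N) :
    ((rep q e.ht0).P ^ k) (Sh q e.ht0 G)
      = (t - 1)⁻¹ • (rep q e.ht0).D k (((rep q e.ht0).P ^ k) G) := by
  have h := (rep (N := N) q e.ht0).PpowD k 0 (by omega)
  rw [zero_add, Daha.D_zero] at h
  rw [Sh, map_smul, ← Module.End.mul_apply, h, Module.End.mul_apply]

theorem Pk_E (G : VV F N t) (k : ℕ) (hk : k ≤ N) :
    ((rep q e.ht0).P ^ k) (Eh q e.ht0 G)
      = (t - 1)⁻¹ • ((rep q e.ht0).E (((rep q e.ht0).P ^ k) G)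
        + (t - 1) • ∑ s ∈ range k, (rep q e.ht0).X s (((rep q e.ht0).P ^ k) G)) := by
  have h := (rep (N := N) q e.ht0).PpowE k (by omega)
  rw [Eh, map_smul, ← Module.End.mul_apply, h, Module.End.mul_apply, LinearMap.add_apply,
    tsub_eq, LinearMap.sum_apply]

theorem ev_E (G : VV F N t) : (rep q e.ht0).E G e.pt = 0 := by
  rw [Daha.E, sum_apply']
  have h1 : ∀ j ∈ range (N+1), (rep q e.ht0).X j G e.pt = q ^ j * G e.pt := fun j hj =>
    ev_X e.ht0 e.pt e.hx j (by have := Finset.mem_range.1 hj; omega) G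
  rw [Finset.sum_congr rfl h1, ← Finset.sum_mul]
  have h2 := e.tail 0 (by omega)
  simp only [Nat.not_lt_zero, if_false, br_zero, neg_zero] at h2
  rw [h2, zero_mul]

theorem A_E (G : VV F N t) (k : ℕ) (hk : k ≤ N) : fA e (Eh q e.ht0 G) k = br q k * fA e G k := by
  rw [fA, Pk_E e G k hk, Pi.smul_apply, Pi.add_apply, Pi.smul_apply, Finset.sum_apply, ev_E,
    smul_eq_mul, smul_eq_mul, zero_add, ← mul_assoc, mul_comm (t - 1)⁻¹, e.tu, one_mul]
  have h1 : ∀ j ∈ range k, (rep q e.ht0).X j (((rep q e.ht0).P ^ k) G) e.pt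
      = q ^ j * fA e G k := fun j hj =>
    ev_X e.ht0 e.pt e.hx j (by have := Finset.mem_range.1 hj; omega) _
  rw [Finset.sum_congr rfl h1, ← Finset.sum_mul]; rfl

theorem A_S (G : VV F N t) (hG : Inv q e.ht0 0 G) (k : ℕ) (hk : k ≤ N) :
    fA e (Sh q e.ht0 G) k = br q k * fA e G (k+1) + t * fB e G 0 k := by
  rw [fA, Pk_S e G k hk, Pi.smul_apply, smul_eq_mul, head e k hk _ (hG.Ppow k), fA, fB, pow_succ',
    Module.End.mul_apply]
  ring

theorem P_D (j : ℕ) (hj : j ≤ N) (G : VV F N t) :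
    (rep q e.ht0).P ((rep q e.ht0).D j G) = (rep q e.ht0).D (j+1) ((rep q e.ht0).P G) := by
  rw [← Module.End.mul_apply, (rep (N := N) q e.ht0).PD j hj, Module.End.mul_apply]

theorem D_comm (i j : ℕ) (hi : i ≤ N + 1) (hj : j ≤ N + 1) (G : VV F N t) :
    (rep q e.ht0).D i ((rep q e.ht0).D j G) = (rep q e.ht0).D j ((rep q e.ht0).D i G) := by
  rcases Nat.le_total i j with h | h
  · exact comm_apply ((rep (N := N) q e.ht0).DD i j h hj) G
  · exact (comm_apply ((rep (N := N) q e.ht0).DD j i h hi) G).symm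

theorem B_S (G : VV F N t) (hG : Inv q e.ht0 0 G) (j k : ℕ) (hjk : j ≤ k) (hk : k ≤ N) :
    fB e (Sh q e.ht0 G) j k = br q k * fB e G (j+1) (k+1) + t * fC e G j 0 k := by
  have h1 := head e k hk _ ((hG.Ppow k).D j hjk)
  rw [fB, Pk_S e G k hk, map_smul, Pi.smul_apply, smul_eq_mul, D_comm e j k (by omega) (by omega),
    h1, fB, fC, P_D e j (by omega), pow_succ' _ k, Module.End.mul_apply,
    D_comm e 0 j (by omega) (by omega)]
  ring

theorem C_S (G : VV F N t) (hG : Inv q e.ht0 0 G) (i j k : ℕ) (hji : j ≤ i) (hik : i ≤ k)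
    (hk : k ≤ N) : fC e (Sh q e.ht0 G) i j k = br q k * fC e G (i+1) (j+1) (k+1)
      + t * ((t - 1)⁻¹ ^ 3 * (rep q e.ht0).D 0 ((rep q e.ht0).D i ((rep q e.ht0).D j
        (((rep q e.ht0).P ^ k) G))) e.pt) := by
  have h1 := head e k hk _ (((hG.Ppow k).D j (by omega)).D i hik)
  rw [fC, Pk_S e G k hk, map_smul, map_smul, Pi.smul_apply, smul_eq_mul,
    D_comm e j k (by omega) (by omega), D_comm e i k (by omega) (by omega),
    h1, fC, P_D e i (by omega), P_D e j (by omega), pow_succ' _ k, Module.End.mul_apply]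
  ring

/-- values of the `Y_s` -/
theorem ev_Ys (G : VV F N t) (hG : Inv q e.ht0 0 G) (k s : ℕ) (hs : s < k) (hk : k ≤ N) :
    (rep q e.ht0).Y s (((rep q e.ht0).P ^ k) G) e.pt
      = q ^ s * (rep q e.ht0).Y 0 (((rep q e.ht0).P ^ k) G) e.pt := by
  induction s with
  | zero => simp
  | succ s ih =>
    have h1 := hG.Ppow' k s hs (by omega) e.hN
    have h2 := (rep (N := N) q e.ht0).Y_succ_T s (by omega)
    have h3 : (rep q e.ht0).Y (s+1) (((rep q e.ht0).P ^ k) G)
        = (rep q e.ht0).Tt s ((rep q e.ht0).Y s (((rep q e.ht0).P ^ k) G)) := by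
      rw [← Module.End.mul_apply ((rep q e.ht0).Tt s), ← h2, Module.End.mul_apply, h1]
    rw [h3, ev_Tt e.ht0 e.pt e.hx s (by omega), ih (by omega)]; ring

theorem ev_Xs (G : VV F N t) (hG : Inv q e.ht0 0 G) (k s : ℕ) (hs : s < k) (hk : k ≤ N) :
    (rep q e.ht0).S ((rep q e.ht0).X s (((rep q e.ht0).P ^ k) G)) e.pt
      = q ^ s * (rep q e.ht0).D 1 (((rep q e.ht0).P ^ k) G) e.pt := by
  induction s with
  | zero =>
    rw [← Module.End.mul_apply ((rep q e.ht0).S), (rep (N := N) q e.ht0).SX, Module.End.mul_apply,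
      ev_X e.ht0 e.pt e.hx 0 (by omega)]
  | succ s ih =>
    have h1 := hG.Ppow' k s hs (by omega) e.hN
    have h2 := (rep (N := N) q e.ht0).TX s (by omega)
    have h3 : (rep q e.ht0).X (s+1) (((rep q e.ht0).P ^ k) G)
        = (rep q e.ht0).Tt s ((rep q e.ht0).X s (((rep q e.ht0).P ^ k) G)) := by
      rw [← Module.End.mul_apply ((rep q e.ht0).Tt s), Daha.Tt, h2, Module.End.mul_apply, h1]
    rw [h3, comm_apply (show Commute (rep (N := N) q e.ht0).S ((rep q e.ht0).Tt s) from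
      ((rep (N := N) q e.ht0).TtS s (by omega)).symm), ev_Tt e.ht0 e.pt e.hx s (by omega),
      ih (by omega)]
    ring

theorem ev_YE (G : VV F N t) (j : ℕ) (hj : j ≤ N) :
    (rep q e.ht0).Y j ((rep q e.ht0).E G) e.pt = (t - 1) * (rep q e.ht0).Y j G e.pt := by
  have h1 := congrArg (fun A : Module.End F (VV F N t) => A G e.pt)
    ((rep (N := N) q e.ht0).YE j hj)
  simp only [Module.End.mul_apply, LinearMap.add_apply] at h1
  rw [ev_chainTt e.ht0 e.pt e.hx _ _ (by omega), Pi.add_apply, ev_E, zero_add] at h1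
  have h2 : ∀ H : VV F N t, ((algebraMap F (Module.End F (VV F N t)) t - 1)
      ((rep q e.ht0).X 0 H)) e.pt = (t - 1) * H e.pt := by
    intro H
    rw [← Module.End.mul_apply, tsub_apply, ev_X e.ht0 e.pt e.hx 0 (by omega), pow_zero, one_mul]
  rw [h2] at h1
  rw [h1, Daha.Y, Module.End.mul_apply, Module.End.mul_apply,
    ev_chainTt e.ht0 e.pt e.hx _ _ (by omega)]
  ring

/-- the sum of all `Y_s` on `P ^ k G` -/
theorem S_sum (G : VV F N t) (hG : Inv q e.ht0 0 G) (k : ℕ) (hk : k ≤ N) :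
    (rep q e.ht0).D 0 (((rep q e.ht0).P ^ k) G) e.pt
      = br q k * (rep q e.ht0).Y 0 (((rep q e.ht0).P ^ k) G) e.pt - br q k * fA e G (k+1) := by
  rw [Daha.D_zero, Daha.S, sum_apply']
  have h1 : ∀ s ∈ range (N+1), (rep q e.ht0).Y s (((rep q e.ht0).P ^ k) G) e.pt
      = (if s < k then q ^ s else 0) * (rep q e.ht0).Y 0 (((rep q e.ht0).P ^ k) G) e.pt
        + (if s < k then 0 else q ^ s) * fA e G (k+1) := by
    intro s hs
    have hs' := Finset.mem_range.1 hs
    by_cases h : s < k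
    · rw [if_pos h, if_pos h, ev_Ys e G hG k s h hk]; ring
    · rw [if_neg h, if_neg h, ev_Y e.ht0 e.pt e.hx s (by omega) _
        (fun a h1 h2 => hG.Ppow k a (by omega) h2), fA, pow_succ', Module.End.mul_apply]; ring
  rw [Finset.sum_congr rfl h1, Finset.sum_add_distrib, ← Finset.sum_mul, ← Finset.sum_mul,
    e.tail k hk]
  have h2 : ∑ s ∈ range (N+1), (if s < k then q ^ s else 0) = br q k := by
    rw [← Finset.sum_filter, br]
    congr 1
    ext a; simp; omega
  rw [h2]; ring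

theorem B_lin (G : VV F N t) (hG : Inv q e.ht0 0 G) (j k : ℕ) (hjk : j ≤ k) (hk : k ≤ N) :
    fB e G j k = fB e G 0 k + br q j * (rep q e.ht0).Y 0 (((rep q e.ht0).P ^ k) G) e.pt := by
  induction j with
  | zero => rw [br_zero]; ring
  | succ j ih =>
    have h1 := ih (by omega)
    rw [fB, (rep (N := N) q e.ht0).D_succ j (by omega), LinearMap.add_apply, Pi.add_apply,
      tsub_apply, ev_Ys e G hG k j (by omega) hk, mul_add, br_succ]
    rw [fB] at h1
    rw [h1]
    linear_combination (q ^ j * (rep q e.ht0).Y 0 (((rep q e.ht0).P ^ k) G) e.pt) * e.tu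

theorem B_lin' (G : VV F N t) (hG : Inv q e.ht0 0 G) (j k : ℕ) (hjk : j ≤ k) (hk : k ≤ N) :
    br q k * fB e G j k = (br q k + br q j * (t - 1)) * fB e G 0 k
      + br q j * br q k * fA e G (k+1) := by
  have h1 := S_sum e G hG k hk
  rw [B_lin e G hG j k hjk hk]
  have h2 : (t - 1) * fB e G 0 k = (rep q e.ht0).D 0 (((rep q e.ht0).P ^ k) G) e.pt := by
    rw [fB, ← mul_assoc, e.tu, one_mul]
  rw [h1] at h2
  linear_combination (-br q j) * h2

theorem Inv.Eh {k : ℕ} {G : VV F N t} {ht : t ≠ 0} (h : Inv q ht k G) : Inv q ht k (Eh q ht G) :=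
  (h.E).smul _

theorem Inv.Sh {k : ℕ} {G : VV F N t} {ht : t ≠ 0} (h : Inv q ht k G) : Inv q ht k (Sh q ht G) :=
  (h.S).smul _

theorem B_E0 (G : VV F N t) (hG : Inv q e.ht0 0 G) (k : ℕ) (hk : k ≤ N) :
    fB e (Eh q e.ht0 G) 0 k = (br q k + t) * fB e G 0 k + br q k * fA e G (k+1) := by
  have h1 : (rep q e.ht0).S ((rep q e.ht0).E (((rep q e.ht0).P ^ k) G)) e.pt
      = (t - 1) * (rep q e.ht0).S (((rep q e.ht0).P ^ k) G) e.pt := by
    rw [Daha.S, sum_apply', sum_apply', Finset.mul_sum]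
    exact Finset.sum_congr rfl fun j hj => ev_YE e _ j (by have := Finset.mem_range.1 hj; omega)
  have h2 : ∑ s ∈ range k, (rep q e.ht0).S ((rep q e.ht0).X s (((rep q e.ht0).P ^ k) G)) e.pt
      = br q k * (rep q e.ht0).D 1 (((rep q e.ht0).P ^ k) G) e.pt := by
    rw [br, Finset.sum_mul]
    exact Finset.sum_congr rfl fun s hs => ev_Xs e G hG k s (Finset.mem_range.1 hs) hk
  have h3 : (rep q e.ht0).D 1 (((rep q e.ht0).P ^ k) G) e.pt
      = (rep q e.ht0).S (((rep q e.ht0).P ^ k) G) e.pt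
        + (t - 1) * (rep q e.ht0).Y 0 (((rep q e.ht0).P ^ k) G) e.pt := by
    have := (rep (N := N) q e.ht0).D_succ 0 (by omega)
    rw [zero_add] at this
    rw [this, LinearMap.add_apply, Pi.add_apply, tsub_apply, Daha.D_zero]
  have h4 := S_sum e G hG k hk
  rw [Daha.D_zero] at h4
  have hu := e.tu
  rw [fB, Pk_E e G k hk, map_smul, map_add, map_smul, map_sum, Daha.D_zero, Pi.smul_apply,
    Pi.add_apply, Pi.smul_apply, Finset.sum_apply, h1, h2, h3, fB, Daha.D_zero]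
  simp only [smul_eq_mul]
  generalize (rep q e.ht0).S (((rep q e.ht0).P ^ k) G) e.pt = s at *
  generalize (rep q e.ht0).Y 0 (((rep q e.ht0).P ^ k) G) e.pt = y at *
  generalize fA e G (k+1) = a at *
  generalize (t - 1)⁻¹ = u at *
  have hu2 : ((t - 1) * u) ^ 2 = 1 := by rw [hu]; ring
  linear_combination (u * s * (1 + br q k)) * hu + (br q k * y) * hu2 - h4 - s * hu

theorem B_E (G : VV F N t) (hG : Inv q e.ht0 0 G) (j k : ℕ) (hjk : j ≤ k) (hk : k ≤ N) :
    fB e (Eh q e.ht0 G) j k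
      = (br q k + t) * fB e G j k + q ^ j * br q k * fA e G (k+1) := by
  rcases Nat.eq_zero_or_pos k with h0 | hpos
  · subst h0
    have : j = 0 := by omega
    subst this
    rw [B_E0 e G hG 0 hk]; ring
  · have hk0 := e.hbr k hpos hk
    apply mul_left_cancel₀ hk0
    have h1 := B_lin' e (Eh q e.ht0 G) hG.Eh j k hjk hk
    have h2 := B_lin' e G hG j k hjk hk
    rw [B_E0 e G hG k hk] at h1
    rw [h1]
    by_cases hkN : k + 1 ≤ N
    · rw [A_E e G (k+1) hkN, br_succ]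
      have m1 := br_mul q k
      have m2 := br_mul q j
      linear_combination (-(br q k + t)) * h2 + (br q k * fA e G (k+1)) * (br q j * m1 - br q k * m2)
    · have hkN' : k = N := by omega
      have h3 : fA e (Eh q e.ht0 G) (k+1) = br q (k+1) * fA e G (k+1) := by
        have h := (rep (N := N) q e.ht0).PpowE (k+1) (by omega)
        rw [fA, Eh, map_smul, ← Module.End.mul_apply, h, Module.End.mul_apply,
          LinearMap.add_apply, tsub_eq, LinearMap.sum_apply, Pi.smul_apply, Pi.add_apply,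
          Pi.smul_apply, Finset.sum_apply, ev_E, smul_eq_mul, smul_eq_mul, zero_add, ← mul_assoc,
          mul_comm (t - 1)⁻¹, e.tu, one_mul]
        have h1 : ∀ j ∈ range (k+1), (rep q e.ht0).X j (((rep q e.ht0).P ^ (k+1)) G) e.pt
            = q ^ j * fA e G (k+1) := fun j hj =>
          ev_X e.ht0 e.pt e.hx j (by have := Finset.mem_range.1 hj; omega) _
        rw [Finset.sum_congr rfl h1, ← Finset.sum_mul]; rfl
      rw [h3, br_succ]
      have m1 := br_mul q k
      have m2 := br_mul q j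
      linear_combination (-(br q k + t)) * h2 + (br q k * fA e G (k+1)) * (br q j * m1 - br q k * m2)

end

end Pool.Agent.Helper196Ehr
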