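import Mathlib
import Pool.Agent.Helper196_Ehr.Rules
import Pool.Agent.Helper196_Ehr.Rec3

set_option autoImplicit false
set_option linter.all false

namespace Pool.Agent.Helper196Ehr

open Finset

section
variable {F : Type*} [Field F] {𝒪 : Subring F} {N : ℕ} {q t : F} (e : EvD 𝒪 N q t)

theorem C_Xs (G : VV F N t) (hG : Inv q e.ht0 0 G) (i j k m : ℕ) (hji : j ≤ i) (hik : i ≤ k)
    (hk : k + m ≤ N) :
    (rep q e.ht0).D i ((rep q e.ht0).D j ((rep q e.ht0).X (k+m) (((rep q e.ht0).P ^ k) G))) e.pt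
      = q ^ m * (rep q e.ht0).D i ((rep q e.ht0).D j ((rep q e.ht0).X k
          (((rep q e.ht0).P ^ k) G))) e.pt := by
  induction m with
  | zero => simp
  | succ m ih =>
    have h1 := hG.Ppow k (k+m) (by omega) (by omega)
    have h2 := (rep (N := N) q e.ht0).TX (k+m) (by omega)
    have h3 : (rep q e.ht0).X (k+(m+1)) (((rep q e.ht0).P ^ k) G)
        = (rep q e.ht0).Tt (k+m) ((rep q e.ht0).X (k+m) (((rep q e.ht0).P ^ k) G)) := by
      rw [← Module.End.mul_apply ((rep q e.ht0).Tt (k+m)), Daha.Tt, h2, Module.End.mul_apply, h1]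
      rfl
    have c1 := (rep (N := N) q e.ht0).TtD j (k+m) (by omega) (by omega)
    have c2 := (rep (N := N) q e.ht0).TtD i (k+m) (by omega) (by omega)
    rw [h3, comm_apply c1, comm_apply c2, ev_Tt e.ht0 e.pt e.hx (k+m) (by omega), ih (by omega)]
    ring

theorem C_E (G : VV F N t) (hG : Inv q e.ht0 0 G) (hP : IsP 𝒪 G) (i j k : ℕ) (hji : j ≤ i)
    (hik : i ≤ k) (hk : k ≤ N) : ∃ R ∈ 𝒪, fC e (Eh q e.ht0 G) i j k
      = br q k * (fC e G i j k + q ^ i * fB e G (j+1) (k+1) + q ^ (j+1) * fB e G (i+1) (k+1))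
        + t * R := by
  set H := rep (N := N) q e.ht0 with hH
  set V := (H.P ^ k) G with hV
  have hVP : IsP 𝒪 V := hP.Ppow e.ht0 e.tO k
  have hVI : Inv q e.ht0 k V := hG.Ppow k
  set rem := q * H.Y 0 (H.P V) e.pt - (1 - q) * ∑ a ∈ range i, H.P (H.Y a V) e.pt with hrem
  set rem2 := ∑ s ∈ range k, H.D i (H.D j (H.X s V)) e.pt with hrem2
  have m1 : rem ∈ 𝒪 := by
    refine 𝒪.sub_mem (𝒪.mul_mem e.qO (((hVP.P e.ht0 e.tO).Y e.ht0 e.qO e.tO 0 (by omega)).eval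
      e.pt e.ptO)) (𝒪.mul_mem (𝒪.sub_mem 𝒪.one_mem e.qO) (𝒪.sum_mem (fun a ha => ?_)))
    have := Finset.mem_range.1 ha
    exact ((hVP.Y e.ht0 e.qO e.tO a (by omega)).P e.ht0 e.tO).eval e.pt e.ptO
  have m2 : rem2 ∈ 𝒪 := 𝒪.sum_mem (fun a ha =>
    (((hVP.X e.ht0 a).D e.ht0 e.qO e.tO j).D e.ht0 e.qO e.tO i).eval e.pt e.ptO)
  have m3 : fC e G i j k ∈ 𝒪 := 𝒪.mul_mem (𝒪.pow_mem e.uO 2)
    (((hVP.D e.ht0 e.qO e.tO j).D e.ht0 e.qO e.tO i).eval e.pt e.ptO)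
  have m4 : ∀ a, fB e G a (k+1) ∈ 𝒪 := fun a => 𝒪.mul_mem e.uO
    (((hP.Ppow e.ht0 e.tO (k+1)).D e.ht0 e.qO e.tO a).eval e.pt e.ptO)
  have eB : ∀ a, a ≤ N → fB e G (a+1) (k+1) = (t - 1)⁻¹ * H.P (H.D a V) e.pt := by
    intro a ha
    rw [fB, P_D e a ha, pow_succ' _ k, Module.End.mul_apply]
  -- the sum over the variables
  have hsum : H.D i (H.D j (H.E V + (t - 1) • ∑ s ∈ range k, H.X s V)) e.pt
      = t * rem2 + (∑ m ∈ range (N+1-k), q ^ m) * H.D i (H.D j (H.X k V)) e.pt := by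
    have e1 : H.E V = ∑ s ∈ range k, H.X s V + ∑ m ∈ range (N+1-k), H.X (k+m) V := by
      rw [Daha.E, LinearMap.sum_apply]
      have : N + 1 = k + (N + 1 - k) := by omega
      rw [this, Finset.sum_range_add, ← this]
    have e2 : ∀ m ∈ range (N+1-k), H.D i (H.D j (H.X (k+m) V)) e.pt
        = q ^ m * H.D i (H.D j (H.X k V)) e.pt := fun m hm =>
      C_Xs e G hG i j k m hji hik (by have := Finset.mem_range.1 hm; omega)
    rw [e1, map_add, map_add, map_add, map_add, map_smul, map_smul, map_sum, map_sum, map_sum,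
      map_sum, Pi.add_apply, Pi.add_apply, Pi.smul_apply, Finset.sum_apply, Finset.sum_apply,
      Finset.sum_congr rfl e2, Finset.sum_mul, smul_eq_mul]
    ring
  have hfull := ev_DDX_full e.ht0 e.pt e.hx e.hq0 e.ht1 i j k hji hik hk V hVI
  rw [← hH, ← hrem] at hfull
  have htail := tail_sum (N := N) e.hq e.hq1 k hk
  have hu := e.tu
  refine ⟨(t - 1)⁻¹ ^ 3 * rem2 - br q k * ((t - 1)⁻¹ * (fC e G i j k + q ^ i * fB e G (j+1) (k+1)
    + q ^ j * fB e G (i+1) (k+1) + q ^ j * rem)), ?_, ?_⟩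
  · exact 𝒪.sub_mem (𝒪.mul_mem (𝒪.pow_mem e.uO 3) m2) (𝒪.mul_mem (e.brO k) (𝒪.mul_mem e.uO
      (𝒪.add_mem (𝒪.add_mem (𝒪.add_mem m3 (𝒪.mul_mem (𝒪.pow_mem e.qO i) (m4 _)))
        (𝒪.mul_mem (𝒪.pow_mem e.qO j) (m4 _))) (𝒪.mul_mem (𝒪.pow_mem e.qO j) m1))))
  · have h1 : fC e (Eh q e.ht0 G) i j k = (t - 1)⁻¹ ^ 3 * (t * rem2
        - br q k * (H.D i (H.D j V) e.pt
        + (t - 1) * q ^ i * H.P (H.D j V) e.pt
        + (t - 1) * q ^ j * H.P (H.D i V) e.pt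
        + (t - 1) ^ 2 * q ^ j * ((1 - q) * H.P (H.D i V) e.pt + t * rem))) := by
      rw [fC, Pk_E e G k hk, map_smul, map_smul, Pi.smul_apply, smul_eq_mul, ← hH, ← hV, hsum,
        hfull]
      linear_combination ((t - 1)⁻¹ ^ 3 * (H.D i (H.D j V) e.pt
        + (t - 1) * q ^ i * H.P (H.D j V) e.pt
        + (t - 1) * q ^ j * H.P (H.D i V) e.pt
        + (t - 1) ^ 2 * q ^ j * ((1 - q) * H.P (H.D i V) e.pt + t * rem))) * htail
    rw [h1, eB i (by omega), eB j (by omega), fC, ← hH, ← hV]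
    generalize H.D i (H.D j V) e.pt = x
    generalize H.P (H.D j V) e.pt = y
    generalize H.P (H.D i V) e.pt = z
    generalize (t - 1)⁻¹ = u at *
    linear_combination (br q k * u ^ 2 * x - br q k * q ^ i * u * y * (u - 1)
      - br q k * q ^ j * u * z * (-1 + u + (1 - q) * ((t - 1) * u + 1))
      - br q k * u * q ^ j * t * rem * ((t - 1) * u + 1)) * hu

end

end Pool.Agent.Helper196Ehr
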