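import Mathlib
import Pool.Agent.Helper196_Ehr.Rules2
import Pool.Agent.Helper196_Ehr.Ident

set_option autoImplicit false
set_option linter.all false

namespace Pool.Agent.Helper196Ehr

open Finset

section
variable {F : Type*} [Field F]

/-- congruence modulo `t ^ m` -/
def Cg (𝒪 : Subring F) (t : F) (m : ℕ) (x y : F) : Prop := ∃ r ∈ 𝒪, x = y + t ^ m * r

variable {𝒪 : Subring F} {t : F}

theorem Cg.refl (m : ℕ) (x : F) : Cg 𝒪 t m x x := ⟨0, 𝒪.zero_mem, by ring⟩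

theorem Cg.of_eq {m : ℕ} {x y : F} (h : x = y) : Cg 𝒪 t m x y := h ▸ Cg.refl m x

theorem Cg.add {m : ℕ} {x y x' y' : F} (h : Cg 𝒪 t m x y) (h' : Cg 𝒪 t m x' y') :
    Cg 𝒪 t m (x + x') (y + y') := by
  obtain ⟨r, hr, rfl⟩ := h
  obtain ⟨s, hs, rfl⟩ := h'
  exact ⟨r + s, 𝒪.add_mem hr hs, by ring⟩

theorem Cg.sub {m : ℕ} {x y x' y' : F} (h : Cg 𝒪 t m x y) (h' : Cg 𝒪 t m x' y') :
    Cg 𝒪 t m (x - x') (y - y') := by
  obtain ⟨r, hr, rfl⟩ := h
  obtain ⟨s, hs, rfl⟩ := h'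
  exact ⟨r - s, 𝒪.sub_mem hr hs, by ring⟩

theorem Cg.trans {m : ℕ} {x y z : F} (h : Cg 𝒪 t m x y) (h' : Cg 𝒪 t m y z) :
    Cg 𝒪 t m x z := by
  obtain ⟨r, hr, rfl⟩ := h
  obtain ⟨s, hs, rfl⟩ := h'
  exact ⟨s + r, 𝒪.add_mem hs hr, by ring⟩

theorem Cg.mul {m : ℕ} {x y c : F} (hc : c ∈ 𝒪) (h : Cg 𝒪 t m x y) :
    Cg 𝒪 t m (c * x) (c * y) := by
  obtain ⟨r, hr, rfl⟩ := h
  exact ⟨c * r, 𝒪.mul_mem hc hr, by ring⟩

theorem Cg.tmul {m : ℕ} {x y : F} (h : Cg 𝒪 t m x y) : Cg 𝒪 t (m+1) (t * x) (t * y) := by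
  obtain ⟨r, hr, rfl⟩ := h
  exact ⟨r, hr, by ring⟩

theorem Cg.weak (ht : t ∈ 𝒪) {m : ℕ} {x y : F} (h : Cg 𝒪 t (m+1) x y) : Cg 𝒪 t m x y := by
  obtain ⟨r, hr, rfl⟩ := h
  exact ⟨t * r, 𝒪.mul_mem ht hr, by ring⟩

theorem Cg.drop {x : F} {r : F} (hr : r ∈ 𝒪) {y : F} (h : Cg 𝒪 t 1 x y) :
    Cg 𝒪 t 1 (x + t * r) y := by
  obtain ⟨s, hs, rfl⟩ := h
  exact ⟨s + r, 𝒪.add_mem hs hr, by ring⟩

end

section
variable {F : Type*} [Field F] {N : ℕ} {q t : F}

/-- the vectors of words -/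
noncomputable def Wv (q : F) {t : F} (ht : t ≠ 0) : List Bool → VV F N t
  | [] => fun _ => 1
  | true :: w => Sh q ht (Wv q ht w)
  | false :: w => Eh q ht (Wv q ht w)

theorem Wv_inv (ht : t ≠ 0) (w : List Bool) : Inv q ht 0 (Wv (N := N) q ht w) := by
  induction w with
  | nil => exact fun a _ h => T_one ht a h
  | cons a w ih =>
    cases a with
    | false => exact ih.Eh
    | true => exact ih.Sh

end

section
variable {F : Type*} [Field F] {𝒪 : Subring F} {N : ℕ} {q t : F} (e : EvD 𝒪 N q t)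

theorem IsP.Sh' {G : VV F N t} (h : IsP 𝒪 G) : IsP 𝒪 (Sh q e.ht0 G) :=
  (h.S e.ht0 e.qO e.tO).smul _ e.uO

theorem IsP.Eh' {G : VV F N t} (h : IsP 𝒪 G) : IsP 𝒪 (Eh q e.ht0 G) :=
  (h.E e.ht0).smul _ e.uO

theorem Wv_isP (w : List Bool) : IsP 𝒪 (Wv (N := N) q e.ht0 w) := by
  induction w with
  | nil => exact IsP.one
  | cons a w ih =>
    cases a with
    | false => exact ih.Eh' e
    | true => exact ih.Sh' e

theorem Ppow_one (ht : t ≠ 0) (k : ℕ) :
    ((rep (N := N) q ht).P ^ k) (fun _ => (1:F)) = (fun _ => (1:F)) := by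
  induction k with
  | zero => rfl
  | succ k ih => rw [pow_succ', Module.End.mul_apply, ih]; rfl

theorem one_inv (ht : t ≠ 0) (k : ℕ) : Inv (N := N) q ht k (fun _ => (1:F)) :=
  fun a _ h => T_one ht a h

theorem D_one (j : ℕ) (hj : j ≤ N) :
    (t - 1)⁻¹ * (rep q e.ht0).D j (fun _ => (1:F)) e.pt = br q j := by
  rw [head e j hj _ (one_inv e.ht0 j), D0_zero e _ (one_inv e.ht0 0)]
  have : (rep (N := N) q e.ht0).P (fun _ => (1:F)) e.pt = 1 := rfl
  rw [this]; ring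

theorem abc_spec (w : List Bool) : ∀ k, k + w.length + 1 ≤ N →
    Cg 𝒪 t 3 (fA e (Wv q e.ht0 w) k) (fa q t w k) ∧
    (∀ j, j ≤ k → Cg 𝒪 t 2 (fB e (Wv q e.ht0 w) j k) (fb q t w j k)) ∧
    (∀ i j, j ≤ i → i ≤ k → Cg 𝒪 t 1 (fC e (Wv q e.ht0 w) i j k) (fc q t w i j k)) := by
  induction w with
  | nil =>
    intro k hk
    rw [List.length_nil] at hk
    refine ⟨Cg.of_eq ?_, fun j hj => Cg.of_eq ?_, fun i j hji hik => ?_⟩
    · rw [Wv, fA, Ppow_one, fa_nil]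
    · rw [Wv, fB, Ppow_one, fb_nil, D_one e j (by omega)]
    · rw [Wv, fC, Ppow_one, fc_nil]
      have h1 := head e i (by omega) _ (((one_inv (N := N) (q := q) e.ht0 j).D j le_rfl).mono hji)
      have h2 := D_one e (j+1) (by omega)
      rw [P_D e j (by omega)] at h1
      have h3 : (rep (N := N) q e.ht0).P (fun _ => (1:F)) = fun _ => 1 := rfl
      rw [h3] at h1
      have hm : (t - 1)⁻¹ ^ 2 * (rep q e.ht0).D 0 ((rep q e.ht0).D j (fun _ => (1:F))) e.pt ∈ 𝒪 :=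
        𝒪.mul_mem (𝒪.pow_mem e.uO 2) ((((IsP.one (𝒪 := 𝒪) (N := N) (t := t)).D e.ht0 e.qO e.tO
          j).D e.ht0 e.qO e.tO 0).eval e.pt e.ptO)
      refine ⟨_, hm, ?_⟩
      rw [← h2]
      linear_combination (t - 1)⁻¹ * h1
  | cons a w ih =>
    intro k hk
    rw [List.length_cons] at hk
    obtain ⟨a0, b0, c0⟩ := ih k (by omega)
    obtain ⟨a1, b1, c1⟩ := ih (k+1) (by omega)
    have hI := Wv_inv (N := N) (q := q) e.ht0 w
    have hP := Wv_isP (N := N) e w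
    cases a with
    | false =>
      refine ⟨?_, fun j hj => ?_, fun i j hji hik => ?_⟩
      · rw [Wv, A_E e _ k (by omega), fa_false]
        exact a0.mul (e.brO k)
      · rw [Wv, B_E e _ hI j k hj (by omega), fb_false]
        exact ((b0 j hj).mul (𝒪.add_mem (e.brO k) e.tO)).add
          ((a1.weak e.tO).mul (𝒪.mul_mem (𝒪.pow_mem e.qO j) (e.brO k)))
      · obtain ⟨R, hR, h⟩ := C_E e (Wv q e.ht0 w) hI hP i j k hji hik (by omega)
        rw [Wv, h, fc_false]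
        exact Cg.drop hR ((((c0 i j hji hik).add (((b1 (j+1) (by omega)).weak e.tO).mul
          (𝒪.pow_mem e.qO i))).add (((b1 (i+1) (by omega)).weak e.tO).mul
          (𝒪.pow_mem e.qO (j+1)))).mul (e.brO k))
    | true =>
      refine ⟨?_, fun j hj => ?_, fun i j hji hik => ?_⟩
      · rw [Wv, A_S e _ hI k (by omega), fa_true]
        exact (a1.mul (e.brO k)).add (b0 0 (by omega)).tmul
      · rw [Wv, B_S e _ hI j k hj (by omega), fb_true]
        exact ((b1 (j+1) (by omega)).mul (e.brO k)).add (c0 j 0 (by omega) hj).tmul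
      · rw [Wv, C_S e _ hI i j k hji hik (by omega), fc_true]
        refine Cg.drop (𝒪.mul_mem (𝒪.pow_mem e.uO 3) ?_) ((c1 (i+1) (j+1) (by omega)
          (by omega)).mul (e.brO k))
        exact ((((hP.Ppow e.ht0 e.tO k).D e.ht0 e.qO e.tO j).D e.ht0 e.qO e.tO i).D e.ht0
          e.qO e.tO 0).eval e.pt e.ptO

/-- normalised `D` -/
noncomputable def Dh (q : F) {t : F} (ht : t ≠ 0) (j : ℕ) : Module.End F (VV F N t) :=
  (t - 1)⁻¹ • (rep q ht).D j

theorem Dh_apply (ht : t ≠ 0) (j : ℕ) (G : VV F N t) :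
    Dh q ht j G = (t - 1)⁻¹ • (rep q ht).D j G := rfl

theorem Dh_comm (i j : ℕ) (hi : i ≤ N + 1) (hj : j ≤ N + 1) :
    Commute (Dh (N := N) q e.ht0 i) (Dh q e.ht0 j) := by
  rw [Dh, Dh]
  apply Commute.smul_left
  apply Commute.smul_right
  rcases Nat.le_total i j with h | h
  · exact (rep (N := N) q e.ht0).DD i j h hj
  · exact ((rep (N := N) q e.ht0).DD j i h hi).symm

theorem P_Dh (j : ℕ) (hj : j ≤ N) : (rep (N := N) q e.ht0).P * Dh q e.ht0 j
    = Dh q e.ht0 (j+1) * (rep q e.ht0).P := by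
  rw [Dh, Dh, mul_smul_comm, (rep (N := N) q e.ht0).PD j hj, smul_mul_assoc]

theorem P_Dh_pow (j : ℕ) (hj : j ≤ N) (b : ℕ) : (rep (N := N) q e.ht0).P * Dh q e.ht0 j ^ b
    = Dh q e.ht0 (j+1) ^ b * (rep q e.ht0).P := by
  induction b with
  | zero => simp
  | succ b ih => rw [pow_succ, ← mul_assoc, ih, mul_assoc, P_Dh e j hj, ← mul_assoc, ← pow_succ]

theorem Inv.Dh {k : ℕ} {G : VV F N t} {ht : t ≠ 0} (h : Inv q ht k G) (j : ℕ) (hj : j ≤ k) :
    Inv q ht k (Helper196Ehr.Dh q ht j G) := (h.D j hj).smul _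

theorem Inv.Dh_pow {k : ℕ} {G : VV F N t} {ht : t ≠ 0} (h : Inv q ht k G) (j : ℕ) (hj : j ≤ k)
    (b : ℕ) : Inv q ht k ((Helper196Ehr.Dh q ht j ^ b) G) := by
  induction b with
  | zero => exact h
  | succ b ih => rw [pow_succ', Module.End.mul_apply]; exact ih.Dh j hj

theorem IsP.Dh {G : VV F N t} (h : IsP 𝒪 G) (j : ℕ) : IsP 𝒪 (Helper196Ehr.Dh q e.ht0 j G) :=
  (h.D e.ht0 e.qO e.tO j).smul _ e.uO

theorem IsP.Dh_pow {G : VV F N t} (h : IsP 𝒪 G) (j b : ℕ) :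
    IsP 𝒪 ((Helper196Ehr.Dh q e.ht0 j ^ b) G) := by
  induction b with
  | zero => exact h
  | succ b ih => rw [pow_succ', Module.End.mul_apply]; exact ih.Dh e j

/-- the head rule for powers -/
theorem head_pow (b j : ℕ) (hj : j ≤ N) (V : VV F N t) (hV : Inv q e.ht0 j V) :
    (Dh q e.ht0 j ^ (b+1)) V e.pt = br q j * (Dh q e.ht0 (j+1) ^ b) ((rep q e.ht0).P V) e.pt
      + t * (Dh q e.ht0 j ^ b) (Dh q e.ht0 0 V) e.pt := by
  have h1 := head e j hj _ (hV.Dh_pow j le_rfl b)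
  have h2 : (Dh q e.ht0 j ^ b) (Dh q e.ht0 0 V) = Dh q e.ht0 0 ((Dh q e.ht0 j ^ b) V) :=
    comm_apply ((Dh_comm e j 0 (by omega) (by omega)).pow_left b) V
  have h3 : (Dh q e.ht0 (j+1) ^ b) ((rep q e.ht0).P V)
      = (rep q e.ht0).P ((Dh q e.ht0 j ^ b) V) := by
    rw [← Module.End.mul_apply, ← P_Dh_pow e j hj b, Module.End.mul_apply]
  rw [pow_succ', Module.End.mul_apply, h2, h3, Dh_apply, Dh_apply, Pi.smul_apply, Pi.smul_apply,
    smul_eq_mul, smul_eq_mul, h1]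
  ring

theorem P_Dh1 (j : ℕ) (hj : j ≤ N) (V : VV F N t) :
    (rep q e.ht0).P (Dh q e.ht0 j V) = Dh q e.ht0 (j+1) ((rep q e.ht0).P V) := by
  rw [← Module.End.mul_apply, P_Dh e j hj, Module.End.mul_apply]

theorem g2_spec (w : List Bool) (k : ℕ) (hk : k ≤ 1) (b : ℕ) : ∀ u r s, s ≤ r → r ≤ u →
    k + u + b + w.length + 1 ≤ N →
    Cg 𝒪 t 1 ((Dh q e.ht0 (u+1) ^ b) (Dh q e.ht0 r (Dh q e.ht0 s
      (((rep q e.ht0).P ^ (k+u)) (Wv q e.ht0 w)))) e.pt) (g2 q t w k b u r s) := by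
  have hI := Wv_inv (N := N) (q := q) e.ht0 w
  have hP := Wv_isP (N := N) e w
  induction b with
  | zero =>
    intro u r s hsr hru hN
    have h1 := (abc_spec e w (k+u) (by omega)).2.2 r s hsr (by omega)
    rw [fC] at h1
    rw [pow_zero, Module.End.one_apply, g2, Dh_apply, Dh_apply, map_smul, smul_smul, ← pow_two,
      Pi.smul_apply, smul_eq_mul]
    exact h1
  | succ b ih =>
    intro u r s hsr hru hN
    have hV : Inv q e.ht0 (u+1) (Dh q e.ht0 r (Dh q e.ht0 s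
      (((rep q e.ht0).P ^ (k+u)) (Wv q e.ht0 w)))) :=
      (((hI.Ppow (k+u)).mono (by omega)).Dh s (by omega)).Dh r (by omega)
    rw [head_pow e b (u+1) (by omega) _ hV, g2, P_Dh1 e r (by omega), P_Dh1 e s (by omega),
      ← Module.End.mul_apply (rep q e.ht0).P, ← pow_succ']
    have h1 := ih (u+1) (r+1) (s+1) (by omega) (by omega) (by omega)
    rw [show k + (u + 1) = k + u + 1 by omega] at h1
    refine Cg.drop ?_ (h1.mul (e.brO (u+1)))
    exact (((((hP.Ppow e.ht0 e.tO (k+u)).Dh e s).Dh e r).Dh e 0).Dh_pow e (u+1) b).eval e.pt e.ptO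

theorem g1_spec (w : List Bool) (k : ℕ) (hk : k ≤ 1) (b : ℕ) : ∀ u r, r ≤ u →
    k + u + b + w.length + 1 ≤ N →
    Cg 𝒪 t 2 ((Dh q e.ht0 (u+1) ^ b) (Dh q e.ht0 r
      (((rep q e.ht0).P ^ (k+u)) (Wv q e.ht0 w))) e.pt) (g1 q t w k b u r) := by
  have hI := Wv_inv (N := N) (q := q) e.ht0 w
  induction b with
  | zero =>
    intro u r hru hN
    have h1 := (abc_spec e w (k+u) (by omega)).2.1 r (by omega)
    exact h1
  | succ b ih =>
    intro u r hru hN
    have hV : Inv q e.ht0 (u+1) (Dh q e.ht0 r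
      (((rep q e.ht0).P ^ (k+u)) (Wv q e.ht0 w))) :=
      ((hI.Ppow (k+u)).mono (by omega)).Dh r (by omega)
    rw [head_pow e b (u+1) (by omega) _ hV, g1, P_Dh1 e r (by omega),
      ← Module.End.mul_apply (rep q e.ht0).P, ← pow_succ',
      comm_apply (Dh_comm e 0 r (by omega) (by omega))]
    have h1 := ih (u+1) (r+1) (by omega) (by omega)
    rw [show k + (u + 1) = k + u + 1 by omega] at h1
    exact (h1.mul (e.brO (u+1))).add
      (g2_spec e w k hk b u r 0 (by omega) hru (by omega)).tmul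

theorem g0_spec (w : List Bool) (k : ℕ) (hk : k ≤ 1) (b : ℕ) : ∀ u,
    k + u + b + w.length + 1 ≤ N →
    Cg 𝒪 t 3 ((Dh q e.ht0 (u+1) ^ b)
      (((rep q e.ht0).P ^ (k+u)) (Wv q e.ht0 w)) e.pt) (g0 q t w k b u) := by
  have hI := Wv_inv (N := N) (q := q) e.ht0 w
  induction b with
  | zero =>
    intro u hN
    exact (abc_spec e w (k+u) (by omega)).1
  | succ b ih =>
    intro u hN
    have hV : Inv q e.ht0 (u+1) (((rep q e.ht0).P ^ (k+u)) (Wv q e.ht0 w)) :=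
      (hI.Ppow (k+u)).mono (by omega)
    rw [head_pow e b (u+1) (by omega) _ hV, g0,
      ← Module.End.mul_apply (rep q e.ht0).P, ← pow_succ']
    have h1 := ih (u+1) (by omega)
    rw [show k + (u + 1) = k + u + 1 by omega] at h1
    exact (h1.mul (e.brO (u+1))).add
      (g1_spec e w k hk b u 0 (by omega) (by omega)).tmul

/-- all dominating letters in front -/
theorem Wv_true (a : ℕ) (w : List Bool) : (rep q e.ht0).P
      (Wv q e.ht0 (List.replicate a true ++ w))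
    = (Dh (N := N) q e.ht0 1 ^ a) ((rep q e.ht0).P (Wv q e.ht0 w)) := by
  induction a with
  | zero => rfl
  | succ a ih =>
    rw [List.replicate_succ, List.cons_append, Wv, Sh, ← Daha.D_zero, ← Dh_apply, P_Dh1 e 0 (by omega),
      ih, pow_succ', Module.End.mul_apply]

theorem Sh_Asum (a : ℕ) (w : List Bool) :
    Wv (N := N) q e.ht0 (List.replicate a true ++ false :: w)
      = (t - 1)⁻¹ • Asum q e.ht0 ((rep q e.ht0).X 0 ((Dh q e.ht0 1 ^ a) (Wv q e.ht0 w))) := by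
  induction a with
  | zero =>
    rw [List.replicate_zero, List.nil_append, Wv, Eh, pow_zero, Module.End.one_apply,
      ← Esum_sym e.ht0 _ (fun j hj => Wv_inv e.ht0 w j (by omega) hj)]
    rfl
  | succ a ih =>
    have h1 := (S_Asum (N := N) (q := q) e.ht0).eq
    have h2 := (rep (N := N) q e.ht0).SX
    rw [List.replicate_succ, List.cons_append, Wv, ih, Sh, map_smul,
      ← Module.End.mul_apply _ (Asum q e.ht0), h1, Module.End.mul_apply,
      ← Module.End.mul_apply _ ((rep q e.ht0).X 0), h2, Module.End.mul_apply, pow_succ',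
      Module.End.mul_apply, Dh_apply, map_smul, map_smul]

/-- the re-rooting identity -/
theorem reroot (a : ℕ) (w : List Bool) (hN : 1 ≤ N) :
    (rep q e.ht0).P (Wv q e.ht0 (List.replicate a true ++ false :: w)) e.pt
      = (Dh (N := N) q e.ht0 1 ^ (a+1)) (Wv q e.ht0 w) e.pt := by
  have hI := Wv_inv (N := N) (q := q) e.ht0 w
  have h1 := ev_PAX (q := q) e.ht0 e.pt e.hx ((Dh q e.ht0 1 ^ a) (Wv q e.ht0 w))
    (fun j h1 h2 => ((hI.mono (Nat.zero_le 1)).Dh_pow 1 le_rfl a) j h1 h2)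
  rw [Sh_Asum e, map_smul, Pi.smul_apply, h1, pow_succ', Module.End.mul_apply, Dh_apply]
  rfl

/-- the step replacing the first isolated letter by a dominating one -/
theorem step_spec (a : ℕ) (w : List Bool) (hN : a + w.length + 3 ≤ N) :
    Cg 𝒪 t 3 ((rep q e.ht0).P (Wv q e.ht0 (List.replicate (a+1) true ++ w)) e.pt
      - (rep q e.ht0).P (Wv q e.ht0 (List.replicate a true ++ false :: w)) e.pt)
      (g0 q t w 1 (a+1) 0 - g0 q t w 0 (a+1) 0) := by
  rw [Wv_true e, reroot e a w (by omega)]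
  have h1 := g0_spec e w 1 le_rfl (a+1) 0 (by omega)
  have h0 := g0_spec e w 0 (by omega) (a+1) 0 (by omega)
  simp only [zero_add, add_zero, pow_one] at h1
  simp only [zero_add, add_zero, pow_zero, Module.End.one_apply] at h0
  exact h1.sub h0

end

end Pool.Agent.Helper196Ehr
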