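import Mathlib
import Pool.Agent.Helper196_Ehr.Flow
import Pool.Agent.Helper196_Ehr.Rules3

set_option autoImplicit false
set_option linter.all false

namespace Pool.Agent.Helper196Ehr

open Finset

universe u

section flows

variable {R : Type u} [CommRing R]

/-- the weighted sum over flows, with the weights `g` for the sink -/
def WG (Nb : ℕ → Finset ℕ) (om g : ℕ → R) : ℕ → (ℕ → ℕ) → R
  | 0, _ => 1
  | n+1, s => ∑ f ∈ piAntidiag (Nb (n+1)) (s (n+1)),
      (g (f 0) * ∏ j ∈ range n, om (f (j+1))) * WG Nb om g n (fun v => s v + f v)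

theorem WW_eq_WG (Nb : ℕ → Finset ℕ) (om : ℕ → R) (n : ℕ) : ∀ s : ℕ → ℕ,
    WW Nb om n s = WG Nb om om n s := by
  induction n with
  | zero => intro s; rfl
  | succ n ih =>
    intro s
    rw [WW, WG]
    refine Finset.sum_congr rfl fun f _ => ?_
    rw [ih, Finset.prod_range_succ' (fun j => om (f j)), mul_comm (om (f 0))]

theorem WG_congr (Nb : ℕ → Finset ℕ) (om g : ℕ → R) (n : ℕ) : ∀ (s s' : ℕ → ℕ)
    (h : ∀ v, 1 ≤ v → v ≤ n → s v = s' v), WG Nb om g n s = WG Nb om g n s' := by
  induction n with
  | zero => intro s s' h; rfl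
  | succ n ih =>
    intro s s' h
    rw [WG, WG, h (n+1) (by omega) le_rfl]
    refine Finset.sum_congr rfl fun f hf => ?_
    rw [ih _ _ (fun v h1 h2 => by rw [h v h1 (by omega)])]

theorem WG_congr_Nb (Nb Nb' : ℕ → Finset ℕ) (om g : ℕ → R) (n : ℕ)
    (h : ∀ v, 1 ≤ v → v ≤ n → Nb v = Nb' v) : ∀ (s : ℕ → ℕ),
    WG Nb om g n s = WG Nb' om g n s := by
  induction n with
  | zero => intro s; rfl
  | succ n ih =>
    intro s
    rw [WG, WG, h (n+1) (by omega) le_rfl]
    refine Finset.sum_congr rfl fun f hf => ?_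
    rw [ih (fun v h1 h2 => h v h1 (by omega))]

/-- recombination of a distribution -/
def cmb (f : ℕ → ℕ) (p : ℕ × ℕ) : ℕ → ℕ
  | 0 => p.2
  | 1 => p.1
  | k+2 => f (k+1)

/-- merging the first two places -/
def mrg (f : ℕ → ℕ) : ℕ → ℕ
  | 0 => f 0 + f 1
  | k+1 => f (k+2)

theorem sum_split {M : Type*} [AddCommMonoid M] (B : Finset ℕ) (hB : 0 ∈ B) (m : ℕ)
    (Φ : (ℕ → ℕ) → M) :
    ∑ f ∈ piAntidiag (insert 0 (B.image Nat.succ)) m, Φ f
      = ∑ f ∈ piAntidiag B m, ∑ p ∈ antidiagonal (f 0), Φ (cmb f p) := by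
  classical
  have hins : ∀ f : ℕ → ℕ, ∑ x ∈ insert 0 (B.image Nat.succ), f x
      = f 0 + (f 1 + ∑ x ∈ B.erase 0, f (x+1)) := by
    intro f
    rw [Finset.sum_insert (by simp), Finset.sum_image (fun a _ b _ h => Nat.succ.inj h)]
    congr 1
    rw [← Finset.add_sum_erase B _ hB]
  have hB' : ∀ f : ℕ → ℕ, ∑ x ∈ B, f x = f 0 + ∑ x ∈ B.erase 0, f x := fun f =>
    (Finset.add_sum_erase B f hB).symm
  rw [Finset.sum_sigma']
  refine Finset.sum_nbij' (fun f => (⟨mrg f, (f 1, f 0)⟩ : Σ _ : ℕ → ℕ, ℕ × ℕ))
    (fun x => cmb x.1 x.2) ?_ ?_ ?_ ?_ ?_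
  · intro f hf
    rw [mem_piAntidiag] at hf
    rw [Finset.mem_sigma, mem_piAntidiag, HasAntidiagonal.mem_antidiagonal]
    refine ⟨⟨?_, ?_⟩, ?_⟩
    · rw [← hf.1, hins, hB']
      show (f 0 + f 1) + ∑ x ∈ B.erase 0, mrg f x = _
      rw [add_assoc]
      congr 2
      refine Finset.sum_congr rfl fun x hx => ?_
      obtain ⟨y, rfl⟩ : ∃ y, x = y + 1 := ⟨x - 1, by
        have := (Finset.mem_erase.1 hx).1; omega⟩
      rfl
    · intro i hi
      rcases i with _ | i
      · exact hB
      · have := hf.2 (i+2) hi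
        rw [Finset.mem_insert, Finset.mem_image] at this
        rcases this with h | ⟨a, ha, h⟩
        · omega
        · have : a = i + 1 := Nat.succ.inj h
          rw [← this]; exact ha
    · show f 1 + f 0 = f 0 + f 1
      omega
  · rintro ⟨f, p⟩ h
    rw [Finset.mem_sigma, mem_piAntidiag, HasAntidiagonal.mem_antidiagonal] at h
    obtain ⟨⟨h1, h2⟩, h3⟩ := h
    simp only at h1 h2 h3
    rw [mem_piAntidiag]
    constructor
    · rw [hins]
      rw [hB'] at h1
      show p.2 + (p.1 + _) = m
      rw [← h1, ← h3, ← add_assoc, add_comm p.2]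
      congr 1
      refine Finset.sum_congr rfl fun x hx => ?_
      obtain ⟨y, rfl⟩ : ∃ y, x = y + 1 := ⟨x - 1, by
        have := (Finset.mem_erase.1 hx).1; omega⟩
      rfl
    · intro i hi
      rw [Finset.mem_insert, Finset.mem_image]
      rcases i with _ | _ | i
      · left; rfl
      · right; exact ⟨0, hB, rfl⟩
      · right; exact ⟨i+1, h2 (i+1) hi, rfl⟩
  · intro f _
    funext i
    rcases i with _ | _ | i
    · rfl
    · rfl
    · rfl
  · rintro ⟨f, p⟩ h
    rw [Finset.mem_sigma, HasAntidiagonal.mem_antidiagonal] at h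
    have h3 := h.2
    simp only at h3
    have e : mrg (cmb f p) = f := by
      funext i
      rcases i with _ | i
      · show p.2 + p.1 = f 0
        rw [← h3]; omega
      · rfl
    simp only [e]
    rfl
  · intro f _
    simp only
    congr 1
    funext i
    rcases i with _ | _ | i
    · rfl
    · rfl
    · rfl

theorem piAntidiag_zero_single (m : ℕ) :
    piAntidiag ({0} : Finset ℕ) m = {fun j => if j = 0 then m else 0} := by
  ext f
  rw [mem_piAntidiag, Finset.mem_singleton]
  constructor
  · rintro ⟨h1, h2⟩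
    rw [Finset.sum_singleton] at h1
    funext j
    by_cases hj : j = 0
    · subst hj; simp [h1]
    · rw [if_neg hj]
      by_contra hc
      have := h2 j hc
      rw [Finset.mem_singleton] at this
      exact hj this
  · rintro rfl
    refine ⟨by simp, fun j hj => ?_⟩
    by_contra hc
    rw [Finset.mem_singleton] at hc
    exact hj (if_neg hc)

open Polynomial in
/-- the weights for the sink and one more vertex -/
noncomputable def gy (om g : ℕ → R) : ℕ → R[X] :=
  fun s => ∑ p ∈ antidiagonal s, C (om p.1) * X ^ p.1 * C (g p.2)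

open Polynomial in
theorem WG_shift (Nb Nb' : ℕ → Finset ℕ) (om g : ℕ → R) (n : ℕ) : ∀ (h1 : Nb' 1 = {0})
    (h2 : ∀ v, 1 ≤ v → v ≤ n → Nb' (v+1) = insert 0 ((Nb v).image Nat.succ))
    (hz : ∀ v, 1 ≤ v → v ≤ n → 0 ∈ Nb v) (s : ℕ → ℕ),
    WG Nb' om g (n+1) s
      = Lc g (s 1) (WG Nb (fun k => C (om k)) (gy om g) n (fun v => s (v+1))) := by
  induction n with
  | zero =>
    intro h1 h2 hz s
    rw [WG, WG, zero_add, h1, piAntidiag_zero_single, Finset.sum_singleton, WG,
      ← Polynomial.C_1, ← Polynomial.monomial_zero_left, Lc_monomial]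
    simp
  | succ n ih =>
    intro h1 h2 hz s
    rw [WG, h2 (n+1) (by omega) le_rfl, sum_split _ (hz (n+1) (by omega) le_rfl), WG, map_sum]
    refine Finset.sum_congr rfl fun f hf => ?_
    rw [gy, Finset.sum_mul, Finset.sum_mul, map_sum]
    refine Finset.sum_congr rfl fun p hp => ?_
    rw [ih h1 (fun v a b => h2 v a (by omega)) (fun v a b => hz v a (by omega)),
      Finset.prod_range_succ' (fun j => om (cmb f p (j+1)))]
    have e1 : (C (om p.1) * X ^ p.1 * C (g p.2) * ∏ j ∈ range n, C (om (f (j+1))))
          * WG Nb (fun k => C (om k)) (gy om g) n (fun v => s (v+1) + f v)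
        = C (om p.1 * g p.2 * ∏ j ∈ range n, om (f (j+1))) * X ^ p.1
          * WG Nb (fun k => C (om k)) (gy om g) n (fun v => s (v+1) + f v) := by
      rw [map_mul, map_mul, map_prod]; ring
    have e2 : WG Nb (fun k => C (om k)) (gy om g) n (fun v => s (v+1) + cmb f p (v+1))
        = WG Nb (fun k => C (om k)) (gy om g) n (fun v => s (v+1) + f v) := by
      apply WG_congr
      intro v hv1 hv2
      obtain ⟨y, rfl⟩ : ∃ y, v = y + 1 := ⟨v - 1, by omega⟩
      rfl
    rw [e1, Lc_CXmul, e2]
    have e3 : cmb f p 0 = p.2 := rfl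
    have e4 : cmb f p (0 + 1) = p.1 := rfl
    have e5 : ∀ j, cmb f p (j + 1 + 1) = f (j+1) := fun j => rfl
    have e6 : cmb f p 1 = p.1 := rfl
    simp only [e3, e4, e5, e6]
    ring

/-- neighbours of a word: `true` is a vertex adjacent to all, `false` an isolated one (removed
first) -/
def Nbw : List Bool → ℕ → Finset ℕ
  | [], _ => ∅
  | false :: w, v => if v = w.length + 1 then {0} else Nbw w v
  | true :: w, v => if v = 0 then ∅ else insert 0 ((Nbw w (v-1)).image Nat.succ)

theorem Nbw_zero (w : List Bool) : Nbw w 0 = ∅ := by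
  induction w with
  | nil => rfl
  | cons a w ih =>
    cases a with
    | false => rw [Nbw, if_neg (by omega), ih]
    | true => rw [Nbw, if_pos rfl]

theorem zero_mem_Nbw (w : List Bool) : ∀ v, 1 ≤ v → v ≤ w.length → 0 ∈ Nbw w v := by
  induction w with
  | nil => intro v h1 h2; simp at h2; omega
  | cons a w ih =>
    intro v h1 h2
    rw [List.length_cons] at h2
    cases a with
    | false =>
      rw [Nbw]
      split_ifs with h
      · simp
      · exact ih v h1 (by omega)
    | true =>
      rw [Nbw, if_neg (by omega)]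
      exact Finset.mem_insert_self _ _

end flows

open Polynomial in
/-- the generating function of a word -/
noncomputable def psi : List Bool → ∀ {R : Type u} [CommRing R], (ℕ → R) → (ℕ → R) →
    (ℕ → ℕ) → R
  | [], _, _, _, _, _ => 1
  | false :: w, _, _, om, g, s => g (s (w.length + 1)) * psi w om g s
  | true :: w, R, _, om, g, s =>
      Lc g (s 1) (psi w (R := R[X]) (fun k => C (om k)) (gy om g) (fun v => s (v+1)))

open Polynomial in
theorem WG_psi (w : List Bool) : ∀ {R : Type u} [CommRing R] (om g : ℕ → R) (h0 : om 0 = 1)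
    (s : ℕ → ℕ), WG (Nbw w) om g w.length s = psi w om g s := by
  induction w with
  | nil => intro R _ om g h0 s; rfl
  | cons a w ih =>
    intro R _ om g h0 s
    cases a with
    | false =>
      rw [List.length_cons, WG, Nbw, if_pos rfl, piAntidiag_zero_single, Finset.sum_singleton, psi,
        ← ih om g h0]
      have e1 : ∏ j ∈ range w.length, om ((fun j => if j = 0 then s (w.length+1) else 0) (j+1))
          = 1 := by
        apply Finset.prod_eq_one
        intro j _
        simp only [Nat.succ_ne_zero, if_false, h0]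
      rw [e1, mul_one]
      simp only [if_true]
      congr 1
      rw [WG_congr_Nb (Nbw (false :: w)) (Nbw w) om g w.length (fun v h1 h2 => by
        rw [Nbw, if_neg (by omega)])]
      apply WG_congr
      intro v h1 h2
      simp only [if_neg (show v ≠ 0 by omega), add_zero]
    | true =>
      rw [List.length_cons, psi, ← ih (fun k => C (om k)) (gy om g) (by rw [h0, map_one])]
      apply WG_shift
      · rw [Nbw, if_neg (by omega)]
        simp only [Nat.sub_self, Nbw_zero, Finset.image_empty]
        rfl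
      · intro v h1 h2
        rw [Nbw, if_neg (by omega)]
        rfl
      · exact zero_mem_Nbw w

open Polynomial in
theorem Lc_map {R R' : Type u} [CommRing R] [CommRing R'] (f : R →+* R') (g : ℕ → R) (c : ℕ)
    (p : R[X]) : f (Lc g c p) = Lc (fun k => f (g k)) c (p.map f) := by
  induction p using Polynomial.induction_on' with
  | add p q hp hq => rw [map_add, map_add, hp, hq, Polynomial.map_add, map_add]
  | monomial k a => rw [Lc_monomial, map_mul, Polynomial.map_monomial, Lc_monomial]

open Polynomial in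
theorem psi_map (w : List Bool) : ∀ {R R' : Type u} [CommRing R] [CommRing R'] (f : R →+* R')
    (om g : ℕ → R) (s : ℕ → ℕ), f (psi w om g s)
      = psi w (fun k => f (om k)) (fun k => f (g k)) s := by
  induction w with
  | nil => intro R R' _ _ f om g s; rw [psi, psi, map_one]
  | cons a w ih =>
    intro R R' _ _ f om g s
    cases a with
    | false => rw [psi, psi, map_mul, ih]
    | true =>
      rw [psi, psi, Lc_map, ← Polynomial.coe_mapRingHom, ih]
      congr 2
      · funext k; simp
      · funext m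
        simp only [gy, map_sum, map_mul, map_pow, Polynomial.coe_mapRingHom, Polynomial.map_C,
          Polynomial.map_X]

section operators
variable {F : Type u} [Field F] {N : ℕ} {q t : F} (ht : t ≠ 0)

/-- the generating functions of words as functions on the points -/
noncomputable def PsiV (q : F) (w : List Bool) : VV F N t :=
  fun x => psi w (om q t) (hx q x) (fun _ => 1)

open Polynomial in
theorem S_PsiV (w : List Bool) : (q - 1) • (rep q ht).S (PsiV (N := N) q w)
    = - PsiV q (true :: w) := by
  funext x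
  rw [Pi.smul_apply, smul_eq_mul, S_formula ht _
    (fun j hj => T_of_inv ht j hj _ (fun x => by rw [PsiV, PsiV, hx_swP]))
    (fun x => psi w (fun k => C (om q t k)) (gy (om q t) (hx q x)) (fun _ => 1))
    (fun x x' h => by rw [h])]
  · rfl
  · intro x
    rw [rep_P, compOp_apply, PsiV, hx_rhoP, ← Polynomial.coe_evalRingHom, psi_map]
    congr 1
    · funext k; simp
    · funext m
      simp only [gy, map_sum, map_mul, map_pow, Polynomial.coe_evalRingHom, Polynomial.eval_C,
        Polynomial.eval_X]

theorem E_PsiV (w : List Bool) : (q - 1) • (rep q ht).E (PsiV (N := N) q w)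
    = - PsiV q (false :: w) := by
  funext x
  rw [Pi.smul_apply, smul_eq_mul, Daha.E, sum_apply']
  have h2 : ∀ j ∈ range (N+1), (rep q ht).X j (PsiV q w) x
      = x.1 j * psi w (om q t) (hx q x) (fun _ => 1) := fun j _ => rfl
  rw [Finset.sum_congr rfl h2, ← Finset.sum_mul, Pi.neg_apply, PsiV, psi, hx_one]
  ring

theorem PsiV_eq (ht1 : t ≠ 1) (w : List Bool) :
    PsiV (N := N) q w = (-((1 - q) * (1 - t))) ^ w.length • Wv q ht w := by
  have hu : (t - 1) * (t - 1)⁻¹ = 1 := mul_inv_cancel₀ (sub_ne_zero.2 ht1)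
  induction w with
  | nil => funext x; simp [PsiV, psi, Wv]
  | cons a w ih =>
    cases a with
    | false =>
      have h := E_PsiV (q := q) (N := N) ht w
      rw [← neg_eq_iff_eq_neg] at h
      rw [← h, ih, Wv, Eh, map_smul, smul_smul, smul_smul, ← neg_smul, List.length_cons, pow_succ]
      congr 1
      linear_combination (-((-((1 - q) * (1 - t))) ^ w.length) * (1 - q)) * hu
    | true =>
      have h := S_PsiV (q := q) (N := N) ht w
      rw [← neg_eq_iff_eq_neg] at h
      rw [← h, ih, Wv, Sh, map_smul, smul_smul, smul_smul, ← neg_smul, List.length_cons, pow_succ]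
      congr 1
      linear_combination (-((-((1 - q) * (1 - t))) ^ w.length) * (1 - q)) * hu

/-- the flow sum of a word as a value of the functional -/
theorem WW_word {𝒪 : Subring F} (e : EvD 𝒪 N q t) (w : List Bool) :
    WW (Nbw w) (om q t) w.length (fun _ => 1) = (-((1 - q) * (1 - t))) ^ w.length
      * (rep q e.ht0).P (Wv q e.ht0 w) e.pt := by
  have h1 := congrArg (fun V : VV F N t => (rep q e.ht0).P V e.pt) (PsiV_eq (q := q) e.ht0 e.ht1 w)
  simp only [map_smul, Pi.smul_apply, smul_eq_mul] at h1
  rw [← h1, WW_eq_WG, WG_psi w _ _ (om_zero _ _), rep_P, compOp_apply, PsiV,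
    hx_rho_x0 e.ht0 e.pt e.hx e.hq]

end operators

end Pool.Agent.Helper196Ehr
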