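import Mathlib
import Pool.Agent.Helper196_Ehr.Word
import Pool.Agent.Helper196_Ehr.Graph

set_option autoImplicit false
set_option linter.all false

namespace Pool.Agent.Helper196Ehr

open Finset MvPolynomial

universe u

section
variable {n : ℕ} {G : SimpleGraph (Fin (n+1))}

theorem NA.ne {v j : ℕ} (h : NA G v j) : v ≠ j := by
  obtain ⟨h1, h2, h3⟩ := h
  rintro rfl
  exact G.loopless.irrefl _ h3

theorem exists_word (hT : IsThreshold G) (hS : DegSorted G) (m : ℕ) : ∀ a, a + m ≤ n →
    ∃ w : List Bool, w.length = m ∧ ∀ v, 1 ≤ v → v ≤ m → ∀ j, j ∈ Nbw w v ↔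
      (j = 0 ∨ (1 ≤ j ∧ j < v ∧ NA G (a+v) (a+j))) := by
  induction m with
  | zero => intro a _; exact ⟨[], rfl, fun v h1 h2 => by omega⟩
  | succ m ih =>
    intro a ha
    by_cases hA : NA G (a+(m+1)) (a+1)
    · have hm : 1 ≤ m := by
        have := hA.ne
        omega
      obtain ⟨w, hw, hN⟩ := ih (a+1) (by omega)
      refine ⟨true :: w, by rw [List.length_cons, hw], fun v h1 h2 j => ?_⟩
      rw [Nbw, if_neg (by omega), Finset.mem_insert, Finset.mem_image]
      constructor
      · rintro (h | ⟨k, hk, h⟩)
        · left; exact h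
        · right
          have h' : j = k + 1 := h.symm
          subst h'
          have hv : 1 ≤ v - 1 := by
            by_contra hc
            have : v - 1 = 0 := by omega
            rw [this, Nbw_zero] at hk
            simp at hk
          rcases (hN (v-1) hv (by omega) k).1 hk with h0 | ⟨h3, h4, h5⟩
          · subst h0
            refine ⟨by omega, by omega, ?_⟩
            rcases Nat.lt_or_ge v (m+1) with h6 | h6
            · exact NA.nest hT hS (show a + v < a + (m+1) by omega) (by omega) (by omega) hA
            · have : v = m + 1 := by omega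
              subst this; exact hA
          · refine ⟨by omega, by omega, ?_⟩
            have e1 : a + 1 + (v - 1) = a + v := by omega
            have e2 : a + 1 + k = a + (k + 1) := by omega
            rw [e1, e2] at h5
            exact h5
      · rintro (h | ⟨h3, h4, h5⟩)
        · left; exact h
        · right
          refine ⟨j - 1, (hN (v-1) (by omega) (by omega) (j-1)).2 ?_, by
            show j - 1 + 1 = j
            omega⟩
          by_cases h6 : j = 1
          · left; omega
          · right
            refine ⟨by omega, by omega, ?_⟩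
            have e1 : a + 1 + (v - 1) = a + v := by omega
            have e2 : a + 1 + (j - 1) = a + j := by omega
            rw [e1, e2]
            exact h5
    · obtain ⟨w, hw, hN⟩ := ih a (by omega)
      refine ⟨false :: w, by rw [List.length_cons, hw], fun v h1 h2 j => ?_⟩
      rw [Nbw, hw]
      split_ifs with h
      · subst h
        rw [Finset.mem_singleton]
        constructor
        · intro h; left; exact h
        · rintro (h | ⟨h3, h4, h5⟩)
          · exact h
          · exfalso
            apply hA
            by_cases h6 : j = 1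
            · subst h6; exact h5
            · exact (NA.nest hT hS (show a + 1 < a + j by omega) (by omega) (by omega)
                h5.symm).symm
      · exact hN v h1 (by omega) j

theorem exists_word' (hT : IsThreshold G) (hS : DegSorted G) (h0 : NA G n 0) :
    ∃ w : List Bool, w.length = n ∧ ∀ v, 1 ≤ v → v ≤ n → Nbr G v = Nbw w v := by
  obtain ⟨w, hw, hN⟩ := exists_word hT hS n 0 (by omega)
  refine ⟨w, hw, fun v h1 h2 => ?_⟩
  ext j
  rw [mem_Nbr', hN v h1 h2 j]
  simp only [zero_add]
  constructor
  · rintro ⟨h3, h4⟩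
    by_cases hj : j = 0
    · left; exact hj
    · right; exact ⟨by omega, h3, h4⟩
  · rintro (h | ⟨h3, h4, h5⟩)
    · subst h; exact ⟨by omega, NA_zero hT hS h0 v h1 h2⟩
    · exact ⟨h4, h5⟩

theorem Nbw_top (m : ℕ) : ∀ v, v ≤ m → Nbw (List.replicate m true) v = range v := by
  induction m with
  | zero =>
    intro v hv
    have : v = 0 := by omega
    subst this; rfl
  | succ m ih =>
    intro v hv
    rw [List.replicate_succ, Nbw]
    split_ifs with h
    · subst h; rfl
    · rw [ih (v-1) (by omega)]
      ext j
      rw [Finset.mem_insert, Finset.mem_image, Finset.mem_range]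
      constructor
      · rintro (h1 | ⟨k, hk, h1⟩)
        · omega
        · rw [Finset.mem_range] at hk
          have : j = k + 1 := h1.symm
          omega
      · intro h1
        by_cases hj : j = 0
        · left; exact hj
        · right; exact ⟨j - 1, Finset.mem_range.2 (by omega), by
            show j - 1 + 1 = j
            omega⟩

theorem Nbr_top (v : ℕ) (h1 : 1 ≤ v) (h2 : v ≤ n) :
    Nbr (⊤ : SimpleGraph (Fin (n+1))) v = range v := by
  ext j
  rw [mem_Nbr', Finset.mem_range]
  constructor
  · rintro ⟨h, -⟩; exact h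
  · intro h
    refine ⟨h, by omega, by omega, ?_⟩
    rw [SimpleGraph.top_adj]
    intro h'
    have := congrArg Fin.val h'
    simp only at this
    omega

end

theorem map_WW {R R' : Type*} [CommRing R] [CommRing R'] (f : R →+* R') (Nb : ℕ → Finset ℕ)
    (om : ℕ → R) (n : ℕ) : ∀ s : ℕ → ℕ, f (WW Nb om n s) = WW Nb (fun k => f (om k)) n s := by
  induction n with
  | zero => intro s; rw [WW, WW, map_one]
  | succ n ih =>
    intro s
    rw [WW, WW, map_sum]
    refine Finset.sum_congr rfl fun g _ => ?_
    rw [map_mul, map_prod, ih]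

theorem WW_congr_Nb {R : Type u} [CommRing R] (Nb Nb' : ℕ → Finset ℕ) (om : ℕ → R) (n : ℕ)
    (h : ∀ v, 1 ≤ v → v ≤ n → Nb v = Nb' v) (s : ℕ → ℕ) :
    WW Nb om n s = WW Nb' om n s := by
  rw [WW_eq_WG, WW_eq_WG, WG_congr_Nb Nb Nb' om om n h]

theorem map_om' {R S : Type*} [CommRing R] [CommRing S] (f : R →+* S) (q t : R) (k : ℕ) :
    f (om q t k) = om (f q) (f t) k := by
  rw [om, om]
  split_ifs
  · exact map_one f
  · simp [wtp]

/-- the value of the Ehrhart polynomial of a graph given by a word -/
theorem Ehr_word {n : ℕ} (G : SimpleGraph (Fin (n+1))) (w : List Bool) (hw : w.length = n)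
    (hN : ∀ v, 1 ≤ v → v ≤ n → Nbr G v = Nbw w v) {F : Type u} [Field F] {𝒪 : Subring F} {N : ℕ}
    {q t : F} (e : EvD 𝒪 N q t) (f : MvPolynomial (Fin 2) ℤ →+* F) (hf0 : f (X 0) = q)
    (hf1 : f (X 1) = t) : f (Ehr G) = (rep q e.ht0).P (Wv q e.ht0 w) e.pt := by
  have h1 := congrArg f (Ehr_eq G)
  rw [map_mul, map_pow, map_neg, map_mul, map_sub, map_sub, map_one, hf0, hf1, map_WW] at h1
  have h2 : (fun k => f (om (X 0) (X 1) k)) = om q t := by
    funext k; rw [map_om', hf0, hf1]
  rw [h2, WW_congr_Nb _ _ _ n hN] at h1
  have h3 := WW_word e w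
  rw [hw] at h3
  rw [h3] at h1
  have hM : (-((1 - q) * (1 - t))) ^ n ≠ 0 := by
    apply pow_ne_zero
    rw [neg_ne_zero]
    exact mul_ne_zero (sub_ne_zero.2 e.hq1.symm) (sub_ne_zero.2 e.ht1.symm)
  exact mul_left_cancel₀ hM h1

/-- the comparison of a word with the complete graph -/
theorem compare {F : Type u} [Field F] (𝒪 : Subring F) (w : List Bool) : ∀ a : ℕ,
    ∃ D : MvPolynomial (Fin 2) ℕ, ∀ (N : ℕ) (q t : F) (e : EvD 𝒪 N q t), a + w.length + 3 ≤ N →
      Cg 𝒪 t 3 ((rep q e.ht0).P (Wv q e.ht0 (List.replicate (a + w.length) true)) e.pt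
        - (rep q e.ht0).P (Wv q e.ht0 (List.replicate a true ++ w)) e.pt)
        (eval₂ (Nat.castRingHom F) ![q, t] D) := by
  induction w with
  | nil =>
    intro a
    refine ⟨0, fun N q t e h => Cg.of_eq ?_⟩
    simp
  | cons b w ih =>
    intro a
    cases b with
    | true =>
      obtain ⟨D, hD⟩ := ih (a+1)
      refine ⟨D, fun N q t e h => ?_⟩
      rw [List.length_cons] at h ⊢
      have h1 := hD N q t e (by omega)
      have e1 : List.replicate a true ++ true :: w = List.replicate (a+1) true ++ w := by
        rw [List.replicate_succ', List.append_assoc]; rfl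
      have e2 : a + (w.length + 1) = a + 1 + w.length := by omega
      rw [e1, e2]
      exact h1
    | false =>
      obtain ⟨D, hD⟩ := ih (a+1)
      obtain ⟨d, hd⟩ := g0_mono (X 0 : MvPolynomial (Fin 2) ℕ) (X 1) w 0 (a+1) 0
      refine ⟨D + d, fun N q t e h => ?_⟩
      rw [List.length_cons] at h ⊢
      have h1 := hD N q t e (by omega)
      have h2 := step_spec e a w (by omega)
      have h3 : g0 q t w 1 (a+1) 0 - g0 q t w 0 (a+1) 0
          = eval₂ (Nat.castRingHom F) ![q, t] d := by
        have h4 := congrArg (eval₂Hom (Nat.castRingHom F) ![q, t]) hd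
        rw [map_add, map_g0, map_g0] at h4
        simp only [coe_eval₂Hom, eval₂_X] at h4
        have e0 : (![q, t] : Fin 2 → F) 0 = q := rfl
        have e1 : (![q, t] : Fin 2 → F) 1 = t := rfl
        rw [e0, e1] at h4
        rw [zero_add] at h4
        rw [h4]; ring
      rw [h3] at h2
      have h5 := h1.add h2
      have e2 : a + (w.length + 1) = a + 1 + w.length := by omega
      rw [e2, eval₂_add]
      refine Cg.trans (Cg.of_eq ?_) h5
      ring

end Pool.Agent.Helper196Ehr
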