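import Mathlib
import Pool.Agent.Helper196_Ehr.GWord

set_option autoImplicit false
set_option linter.all false

namespace Pool.Agent.Helper196Ehr

open Finset MvPolynomial

/-- power series -/
abbrev PS : Type := PowerSeries ℂ
/-- fractions of power series -/
abbrev FF0 : Type := FractionRing PS
/-- the power series inside -/
noncomputable def OO : Subring FF0 := (algebraMap PS FF0).range

/-- the root of unity -/
noncomputable def zet (N : ℕ) : ℂ := Complex.exp (2 * Real.pi * Complex.I / ((N + 1 : ℕ) : ℂ))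

theorem zet_prim (N : ℕ) : IsPrimitiveRoot (zet N) (N+1) :=
  Complex.isPrimitiveRoot_exp (N+1) (by omega)

theorem zet_inj {N N' : ℕ} (h : zet N = zet N') : N = N' := by
  have h1 := zet_prim N
  have h2 := zet_prim N'
  rw [h] at h1
  have := h1.unique h2
  omega

/-- the image in the field -/
noncomputable def io : PS →+* FF0 := algebraMap PS FF0

theorem io_inj : Function.Injective io := IsFractionRing.injective PS FF0

theorem io_pow_ne (a b : ℂ) (ha : a ≠ 0) (m : ℕ) (hm : m ≠ 0) :
    (PowerSeries.C a : PS) ≠ PowerSeries.X ^ m * PowerSeries.C b := by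
  intro h
  have h1 := congrArg (PowerSeries.constantCoeff) h
  rw [map_mul, map_pow, PowerSeries.constantCoeff_X, zero_pow hm, zero_mul] at h1
  exact ha (by simpa using h1)

theorem evd (N : ℕ) (hN : 0 < N) : EvD OO N (io (PowerSeries.C (zet N))) (io PowerSeries.X) := by
  have hz := zet_prim N
  have hz0 : zet N ≠ 0 := hz.ne_zero (by omega)
  have hX0 : (PowerSeries.X : PS) ≠ 0 := PowerSeries.X_ne_zero
  have hpow : ∀ i : ℕ, io (PowerSeries.C (zet N)) ^ i = io (PowerSeries.C (zet N ^ i)) := by
    intro i; rw [map_pow, map_pow]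
  have hC : ∀ a b : ℂ, io (PowerSeries.C a) = io (PowerSeries.C b) → a = b := by
    intro a b h
    have h1 := io_inj h
    have h2 := congrArg (PowerSeries.constantCoeff) h1
    simpa using h2
  have hunit : (PowerSeries.X - 1 : PS) * (-(PowerSeries.mk 1)) = 1 := by
    have := PowerSeries.mk_one_mul_one_sub_eq_one ℂ
    linear_combination this
  have ht1 : (PowerSeries.X : PS) ≠ 1 := by
    intro h
    rw [h, sub_self, zero_mul] at hunit
    exact zero_ne_one hunit
  have hq1 : io (PowerSeries.C (zet N)) ≠ 1 := by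
    intro h
    have : zet N = 1 := hC _ _ (by rw [h, map_one, map_one])
    exact hz.ne_one (by omega) this
  refine ⟨hN, ?_, hq1, ?_, ?_, ?_, ?_, ⟨_, rfl⟩, ⟨_, rfl⟩, ?_, ?_⟩
  · rw [hpow, hz.pow_eq_one, map_one, map_one]
  · intro h
    exact hz0 (hC _ _ (by rw [h, map_zero, map_zero]))
  · intro k hk1 hkN hb
    have h1 := br_mul (io (PowerSeries.C (zet N))) k
    rw [hb, mul_zero, hpow] at h1
    have h2 : io (PowerSeries.C (zet N ^ k)) = io (PowerSeries.C 1) := by
      rw [map_one, map_one]; exact (sub_eq_zero.1 h1.symm).symm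
    have h3 := hC _ _ h2
    have := (hz.pow_eq_one_iff_dvd k).1 h3
    have := Nat.le_of_dvd (by omega) this
    omega
  · intro h
    exact hX0 (io_inj (by rw [h, map_zero]))
  · intro h
    exact ht1 (io_inj (by rw [h, map_one]))
  · refine ⟨-(PowerSeries.mk 1), ?_⟩
    have h1 := congrArg io hunit
    rw [map_mul, map_sub, map_one] at h1
    exact eq_inv_of_mul_eq_one_right h1
  · intro i j hi hj hij m
    have key : ∀ (a b : ℕ) (p : ℕ), p ≠ 0 →
        io (PowerSeries.C (zet N)) ^ a ≠ io PowerSeries.X ^ p * io (PowerSeries.C (zet N)) ^ b := by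
      intro a b p hp h
      rw [hpow, hpow, ← map_pow, ← map_mul] at h
      exact io_pow_ne _ _ (pow_ne_zero a hz0) p hp (io_inj h)
    have hX : io PowerSeries.X ≠ 0 := fun h => hX0 (io_inj (by rw [h, map_zero]))
    intro h
    simp only at h
    rcases Int.lt_trichotomy m 0 with hm | hm | hm
    · obtain ⟨p, rfl⟩ : ∃ p : ℕ, m = -(p : ℤ) := ⟨m.natAbs, by omega⟩
      rw [zpow_neg, zpow_natCast] at h
      refine key j i p (by omega) ?_
      rw [h, ← mul_assoc, mul_inv_cancel₀ (pow_ne_zero p hX), one_mul]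
    · subst hm
      rw [zpow_zero, one_mul, hpow, hpow] at h
      exact hij (hz.pow_inj (by omega) (by omega) (hC _ _ h))
    · obtain ⟨p, rfl⟩ : ∃ p : ℕ, m = (p : ℤ) := ⟨m.natAbs, by omega⟩
      rw [zpow_natCast] at h
      exact key i j p (by omega) h

/-- extraction of coefficients -/
theorem coeff_zero_of_cg (P : MvPolynomial (Fin 2) ℤ) (N0 : ℕ)
    (h : ∀ N, N0 ≤ N → Cg OO (io PowerSeries.X) 3
      (eval₂ (Int.castRingHom FF0) ![io (PowerSeries.C (zet N)), io PowerSeries.X] P) 0)
    (m : Fin 2 →₀ ℕ) (hm : m 1 < 3) : coeff m P = 0 := by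
  classical
  set r := m 1 with hr
  let Q : Polynomial ℂ := ∑ d ∈ P.support,
    if d 1 = r then Polynomial.monomial (d 0) ((coeff d P : ℤ) : ℂ) else 0
  have hroot : ∀ N, N0 ≤ N → Q.IsRoot (zet N) := by
    intro N hN
    obtain ⟨s, ⟨p, rfl⟩, hs⟩ := h N hN
    have h1 : eval₂ (Int.castRingHom FF0) ![io (PowerSeries.C (zet N)), io PowerSeries.X] P
        = io (eval₂ (Int.castRingHom PS) ![PowerSeries.C (zet N), PowerSeries.X] P) := by
      rw [eval₂_eq', eval₂_eq', map_sum]
      refine Finset.sum_congr rfl fun d _ => ?_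
      simp only [Fin.prod_univ_two, map_mul, map_pow]
      congr 1
      simp
    rw [h1, zero_add] at hs
    have h2 : eval₂ (Int.castRingHom PS) ![PowerSeries.C (zet N), PowerSeries.X] P
        = PowerSeries.X ^ 3 * p := by
      apply io_inj
      rw [hs, map_mul, map_pow]; rfl
    have h3 := congrArg (PowerSeries.coeff r) h2
    rw [PowerSeries.coeff_X_pow_mul', if_neg (by omega), eval₂_eq', map_sum] at h3
    rw [Polynomial.IsRoot, Polynomial.eval_finset_sum, ← h3]
    refine Finset.sum_congr rfl fun d _ => ?_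
    have e0 : (![PowerSeries.C (zet N), PowerSeries.X] : Fin 2 → PS) 0
        = PowerSeries.C (zet N) := rfl
    have e1 : (![PowerSeries.C (zet N), PowerSeries.X] : Fin 2 → PS) 1
        = PowerSeries.X := rfl
    have e2 : (Int.castRingHom PS) (coeff d P) = PowerSeries.C ((coeff d P : ℤ) : ℂ) := by simp
    rw [Fin.prod_univ_two, e0, e1, e2, ← map_pow, ← mul_assoc, ← map_mul,
      PowerSeries.coeff_C_mul, PowerSeries.coeff_X_pow]
    by_cases hd : d 1 = r
    · rw [if_pos hd, if_pos hd.symm, Polynomial.eval_monomial, mul_one]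
    · rw [if_neg hd, if_neg (fun h => hd h.symm), mul_zero, Polynomial.eval_zero]
  have hQ : Q = 0 := by
    apply Polynomial.eq_zero_of_infinite_isRoot
    have hinf : (zet '' {N | N0 ≤ N}).Infinite := by
      apply Set.Infinite.image
      · intro a _ b _ hab
        exact zet_inj hab
      · exact Set.infinite_of_not_bddAbove (by
          rintro ⟨B, hB⟩
          have := hB (show N0 + B + 1 ∈ {N | N0 ≤ N} from by
            show N0 ≤ N0 + B + 1
            omega)
          omega)
    refine hinf.mono ?_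
    rintro x ⟨N, hN, rfl⟩
    exact hroot N hN
  have h4 := congrArg (fun A : Polynomial ℂ => A.coeff (m 0)) hQ
  simp only [Q, Polynomial.finset_sum_coeff, Polynomial.coeff_zero] at h4
  by_contra hne
  have hmem : m ∈ P.support := mem_support_iff.2 hne
  rw [Finset.sum_eq_single m] at h4
  · rw [if_pos hr.symm, Polynomial.coeff_monomial, if_pos rfl] at h4
    exact hne (by exact_mod_cast h4)
  · intro d _ hd
    by_cases h1 : d 1 = r
    · rw [if_pos h1, Polynomial.coeff_monomial, if_neg]
      intro h0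
      apply hd
      ext i
      fin_cases i
      · exact h0
      · exact h1
    · rw [if_neg h1, Polynomial.coeff_zero]
  · intro h; exact absurd hmem h

/-- nonnegativity of the coefficients of low degree in `t` -/
theorem low_degree {n : ℕ} (G : SimpleGraph (Fin (n+1))) (w : List Bool) (hw : w.length = n)
    (hN : ∀ v, 1 ≤ v → v ≤ n → Nbr G v = Nbw w v) (m : Fin 2 →₀ ℕ) (hm : m 1 < 3) :
    0 ≤ coeff m (Ehr (⊤ : SimpleGraph (Fin (n+1))) - Ehr G) := by
  obtain ⟨D, hD⟩ := compare OO w 0
  have h1 : coeff m (Ehr (⊤ : SimpleGraph (Fin (n+1))) - Ehr G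
      - map (Nat.castRingHom ℤ) D) = 0 := by
    apply coeff_zero_of_cg _ (n+3)
    · intro N hN'
      have e := evd N (by omega)
      have h2 := hD N _ _ e (by omega)
      have f0 : eval₂Hom (Int.castRingHom FF0) ![io (PowerSeries.C (zet N)), io PowerSeries.X]
          (X 0) = io (PowerSeries.C (zet N)) := by rw [coe_eval₂Hom, eval₂_X]; rfl
      have f1 : eval₂Hom (Int.castRingHom FF0) ![io (PowerSeries.C (zet N)), io PowerSeries.X]
          (X 1) = io PowerSeries.X := by rw [coe_eval₂Hom, eval₂_X]; rfl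
      have hK := Ehr_word (⊤ : SimpleGraph (Fin (n+1))) (List.replicate n true) (by simp)
        (fun v a b => by rw [Nbr_top v a b, Nbw_top n v b]) e _ f0 f1
      have hG := Ehr_word G w hw hN e _ f0 f1
      rw [zero_add, hw, List.replicate_zero, List.nil_append, ← hK, ← hG] at h2
      have h3 : eval₂ (Nat.castRingHom FF0) ![io (PowerSeries.C (zet N)), io PowerSeries.X] D
          = eval₂Hom (Int.castRingHom FF0) ![io (PowerSeries.C (zet N)), io PowerSeries.X]
            (map (Nat.castRingHom ℤ) D) := by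
        rw [coe_eval₂Hom, eval₂_map]
        congr 1
      rw [h3] at h2
      have h4 := h2.sub (Cg.refl 3 (eval₂Hom (Int.castRingHom FF0)
        ![io (PowerSeries.C (zet N)), io PowerSeries.X] (map (Nat.castRingHom ℤ) D)))
      rw [sub_self, ← map_sub, ← map_sub] at h4
      exact h4
    · exact hm
  rw [coeff_sub, sub_eq_zero] at h1
  rw [h1, coeff_map]
  exact Int.natCast_nonneg _

theorem om_symm {R : Type*} [CommRing R] (q t : R) (k : ℕ) : om q t k = om t q k := by
  rw [om, om]
  split_ifs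
  · rfl
  · have : wtp q t k = wtp t q k := by
      rw [wtp, wtp, ← Finset.sum_range_reflect]
      refine Finset.sum_congr rfl fun i hi => ?_
      have := Finset.mem_range.1 hi
      have e : k - 1 - (k - 1 - i) = i := by omega
      rw [e]; ring
    rw [this]; ring

theorem Mne' : (-((1 - X 0) * (1 - X 1)) : MvPolynomial (Fin 2) ℤ) ≠ 0 := by
  intro h
  have := congrArg (eval₂ (Int.castRingHom ℤ) (fun _ => 2)) h
  simp at this

theorem Ehr_symm {n : ℕ} (G : SimpleGraph (Fin (n+1))) :
    rename (Equiv.swap (0 : Fin 2) 1) (Ehr G) = Ehr G := by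
  have h1 := Ehr_eq G
  have h2 := congrArg (rename (Equiv.swap (0 : Fin 2) 1) :
    MvPolynomial (Fin 2) ℤ →ₐ[ℤ] MvPolynomial (Fin 2) ℤ) h1
  have hX0 : rename (Equiv.swap (0 : Fin 2) 1) (X 0 : MvPolynomial (Fin 2) ℤ) = X 1 := by
    rw [rename_X, Equiv.swap_apply_left]
  have hX1 : rename (Equiv.swap (0 : Fin 2) 1) (X 1 : MvPolynomial (Fin 2) ℤ) = X 0 := by
    rw [rename_X, Equiv.swap_apply_right]
  have h3 := map_WW ((rename (Equiv.swap (0 : Fin 2) 1) :
    MvPolynomial (Fin 2) ℤ →ₐ[ℤ] MvPolynomial (Fin 2) ℤ) : MvPolynomial (Fin 2) ℤ →+*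
      MvPolynomial (Fin 2) ℤ) (Nbr G) (om (X 0) (X 1)) n (fun _ => 1)
  have h4 : (fun k => ((rename (Equiv.swap (0 : Fin 2) 1) :
    MvPolynomial (Fin 2) ℤ →ₐ[ℤ] MvPolynomial (Fin 2) ℤ) : MvPolynomial (Fin 2) ℤ →+*
      MvPolynomial (Fin 2) ℤ) (om (X 0) (X 1) k)) = om (X 0) (X 1) := by
    funext k
    rw [map_om', RingHom.coe_coe, hX0, hX1, om_symm]
  rw [h4] at h3
  rw [map_mul, map_pow, map_neg, map_mul, map_sub, map_sub, map_one, hX0, hX1] at h2
  have h5 : (-((1 - X 1) * (1 - X 0)) : MvPolynomial (Fin 2) ℤ) ^ n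
      * rename (Equiv.swap (0 : Fin 2) 1) (Ehr G)
      = (-((1 - X 0) * (1 - X 1))) ^ n * Ehr G := by
    rw [h1, h2]; exact h3
  rw [mul_comm (1 - X 1 : MvPolynomial (Fin 2) ℤ)] at h5
  exact mul_left_cancel₀ (pow_ne_zero n Mne') h5

end Pool.Agent.Helper196Ehr
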