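import Mathlib
import Pool.Agent.Helper196_Ehr.Graph
import Pool.Agent.Helper196_Ehr.HRec

set_option autoImplicit false
set_option linter.all false

namespace Pool.Agent.Helper196Ehr

open Finset MvPolynomial

/-- the complex evaluation points -/
def EvPt (n : ℕ) (x : Fin 2 → ℂ) : Prop :=
  ∃ N m : ℕ, n ≤ N ∧ 1 ≤ N ∧ 2 ≤ m ∧ x 0 = Complex.exp (2 * Real.pi * Complex.I / ((N + 1 : ℕ) : ℂ)) ∧
    x 1 = (m : ℂ)

theorem eq_of_eval (P Q : MvPolynomial (Fin 2) ℤ) (n : ℕ)
    (h : ∀ x : Fin 2 → ℂ, EvPt n x →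
      eval₂ (Int.castRingHom ℂ) x P = eval₂ (Int.castRingHom ℂ) x Q) : P = Q := by
  apply MvPolynomial.map_injective (Int.castRingHom ℂ) Int.cast_injective
  let s : Fin 2 → Set ℂ := fun i => if i = 0 then
    (fun N : ℕ => Complex.exp (2 * Real.pi * Complex.I / ((N + 1 : ℕ) : ℂ))) '' {N | n ≤ N ∧ 1 ≤ N}
    else (fun m : ℕ => (m : ℂ)) '' {m | 2 ≤ m}
  refine MvPolynomial.funext_set s ?_ ?_
  · intro i
    by_cases hi : i = 0
    · subst hi
      simp only [s, if_true]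
      apply Set.Infinite.image
      · intro N hN N' hN' h
        have h1 := Complex.isPrimitiveRoot_exp (N+1) (by omega)
        have h2 := Complex.isPrimitiveRoot_exp (N'+1) (by omega)
        simp only at h
        rw [h] at h1
        have := h1.unique h2
        omega
      · apply Set.infinite_of_not_bddAbove
        rintro ⟨B, hB⟩
        have := hB (show (n + B + 1) ∈ {N | n ≤ N ∧ 1 ≤ N} from ⟨by omega, by omega⟩)
        omega
    · simp only [s, if_neg hi]
      apply Set.Infinite.image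
      · intro m _ m' _ h
        simp only at h
        exact_mod_cast h
      · apply Set.infinite_of_not_bddAbove
        rintro ⟨B, hB⟩
        have := hB (show (B + 2) ∈ {m | 2 ≤ m} from by simp)
        omega
  · intro x hx
    rw [MvPolynomial.eval_map, MvPolynomial.eval_map]
    apply h
    have h0 := hx 0 (Set.mem_univ _)
    have h1 := hx 1 (Set.mem_univ _)
    simp only [s, if_true] at h0
    simp only [s, show (1 : Fin 2) ≠ 0 by decide, if_false] at h1
    obtain ⟨N, hN, hN'⟩ := h0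
    obtain ⟨m, hm, hm'⟩ := h1
    exact ⟨N, m, hN.1, hN.2, hm, hN'.symm, hm'.symm⟩

theorem EvPt.facts {n : ℕ} {x : Fin 2 → ℂ} (h : EvPt n x) : ∃ N, n ≤ N ∧ x 0 ^ (N+1) = 1 ∧
    x 1 ≠ 0 ∧ (1 - x 0) * (1 - x 1) ≠ 0 ∧ Good N (x 1) (fun i => x 0 ^ i) := by
  obtain ⟨N, m, hnN, hN, hm, h0, h1⟩ := h
  have hp : IsPrimitiveRoot (x 0) (N+1) := by
    rw [h0]; exact Complex.isPrimitiveRoot_exp (N+1) (by omega)
  have hm0 : (m : ℂ) ≠ 0 := by
    have : m ≠ 0 := by omega
    exact_mod_cast this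
  refine ⟨N, hnN, hp.pow_eq_one, by rw [h1]; exact hm0, ?_, ?_⟩
  · apply mul_ne_zero
    · rw [sub_ne_zero]
      exact (hp.ne_one (by omega)).symm
    · rw [h1, sub_ne_zero]
      have : (1:ℕ) ≠ m := by omega
      exact_mod_cast this
  · intro i j hi hj hij e he
    have hn0 : ‖x 0‖ = 1 := hp.norm'_eq_one (by omega)
    have hnorm := congrArg norm he
    simp only at hnorm
    rw [norm_mul, norm_pow, norm_pow, hn0, one_pow, one_pow, mul_one, norm_zpow, h1,
      Complex.norm_natCast] at hnorm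
    have he0 : e = 0 := by
      have h2 : (1 : ℝ) < (m : ℝ) := by exact_mod_cast (show 1 < m by omega)
      have h3 : (m : ℝ) ^ (0 : ℤ) = (m : ℝ) ^ e := by rw [zpow_zero]; exact hnorm
      exact (zpow_right_injective₀ (by linarith) (ne_of_gt h2) h3).symm
    rw [he0, zpow_zero, one_mul] at he
    exact hij (hp.pow_inj (by omega) (by omega) he)

theorem map_om {R S : Type*} [CommRing R] [CommRing S] (f : R →+* S) (q t : R) (k : ℕ) :
    f (om q t k) = om (f q) (f t) k := by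
  rw [om, om]
  split_ifs
  · exact map_one f
  · simp [wtp]

theorem map_SSn {R S : Type*} [CommRing R] [CommRing S] (f : R →+* S) (q t : R) (n : ℕ)
    (l : List ℕ) : f (SSn (om q t) (om q t) n l) = SSn (om (f q) (f t)) (om (f q) (f t)) n l := by
  rw [SSn_map]
  congr 1
  · funext k; exact map_om f q t k
  · funext k; exact map_om f q t k

theorem Mne : (-((1 - X 0) * (1 - X 1)) : MvPolynomial (Fin 2) ℤ) ≠ 0 := by
  intro h
  have := congrArg (eval₂ (Int.castRingHom ℤ) (fun _ => 2)) h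
  simp at this

theorem Ehr_complete (n : ℕ) :
    Ehr (⊤ : SimpleGraph (Fin (n+1))) = hh (X 0) (X 1) (List.replicate n 1) := by
  have hN : ∀ v, 1 ≤ v → v ≤ n → Nbr (⊤ : SimpleGraph (Fin (n+1))) v = range v := by
    intro v h1 h2
    ext j
    rw [mem_Nbr', Finset.mem_range]
    constructor
    · rintro ⟨h, -⟩; exact h
    · intro h
      refine ⟨h, by omega, by omega, ?_⟩
      rw [SimpleGraph.top_adj]
      intro h'
      have := congrArg Fin.val h'
      simp only at this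
      omega
  apply eq_of_eval _ _ n
  intro x hx
  obtain ⟨N, hnN, hq, ht, hM, hgood⟩ := hx.facts
  have h1 := congrArg (eval₂Hom (Int.castRingHom ℂ) x) (Ehr_eq (⊤ : SimpleGraph (Fin (n+1))))
  rw [WW_eq_SSn _ _ n hN, map_SSn, map_mul, map_pow, map_neg, map_mul, map_sub, map_sub, map_one,
    coe_eval₂Hom, eval₂_X, eval₂_X] at h1
  have h2 := complete_ident (N := N) (q := x 0) ht ⟨fun i => x 0 ^ i, hgood⟩ (fun i _ => rfl) hq n hnN
  have h3 : eval₂ (Int.castRingHom ℂ) x (hh (X 0) (X 1) (List.replicate n 1))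
      = hh (x 0) (x 1) (List.replicate n 1) := by
    have := map_hh (X 0 : MvPolynomial (Fin 2) ℤ) (X 1) (eval₂Hom (Int.castRingHom ℂ) x)
      (List.replicate n 1)
    rw [coe_eval₂Hom, eval₂_X, eval₂_X] at this
    exact this
  rw [h3]
  have hM' : (-((1 - x 0) * (1 - x 1))) ^ n ≠ 0 := pow_ne_zero _ (neg_ne_zero.2 hM)
  apply mul_left_cancel₀ hM'
  rw [h1, neg_pow, mul_assoc, ← h2, ← mul_assoc, ← mul_pow]
  simp

theorem Ehr_vertex {n : ℕ} (G : SimpleGraph (Fin (n+1))) (k p : ℕ) (hp : p ≤ k) (hk : k + 1 ≤ n)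
    (h1 : ∀ v, 1 ≤ v → v ≤ k → Nbr G v = range v) (h2 : Nbr G (k+1) = range (p+1))
    (h3 : ∀ v, k+1 < v → v ≤ n → Nbr G v = {0}) :
    Ehr G = hh (X 0) (X 1) (List.replicate (p+1) 1 ++ List.replicate (k-p) 0) := by
  apply eq_of_eval _ _ n
  intro x hx
  obtain ⟨N, hnN, hq, ht, hM, hgood⟩ := hx.facts
  have e1 := congrArg (eval₂Hom (Int.castRingHom ℂ) x) (Ehr_eq G)
  rw [WW_pendant _ _ (om_zero _ _) (k+1) n hk h3, WW_vertex _ _ (om_zero _ _) k p hp h2 h1] at e1
  simp only [map_mul, map_pow, map_neg, map_sub, map_one, map_add, map_sum, map_SSn, map_om,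
    coe_eval₂Hom, eval₂_X, om_one] at e1
  have e2 := one_vertex_ident (N := N) (q := x 0) ht ⟨fun i => x 0 ^ i, hgood⟩ (fun i _ => rfl) hq
    (k-p) p (by omega)
  have e3 : eval₂ (Int.castRingHom ℂ) x
      (hh (X 0) (X 1) (List.replicate (p+1) 1 ++ List.replicate (k-p) 0))
      = hh (x 0) (x 1) (List.replicate (p+1) 1 ++ List.replicate (k-p) 0) := by
    have := map_hh (X 0 : MvPolynomial (Fin 2) ℤ) (X 1) (eval₂Hom (Int.castRingHom ℂ) x)
      (List.replicate (p+1) 1 ++ List.replicate (k-p) 0)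
    rw [coe_eval₂Hom, eval₂_X, eval₂_X] at this
    exact this
  rw [e3]
  have hM' : (-((1 - x 0) * (1 - x 1))) ^ n ≠ 0 := pow_ne_zero _ (neg_ne_zero.2 hM)
  apply mul_left_cancel₀ hM'
  rw [e1]
  have hk1 : k - p + p = k := by omega
  have hk2 : p + 1 + (k - p) = k + 1 := by omega
  rw [hk1, hk2] at e2
  have hpow : (-((1 - x 0) * (1 - x 1))) ^ n
      = (-((1 - x 0) * (1 - x 1))) ^ (n - (k+1)) * ((-1) ^ (k+1) * ((1 - x 0) * (1 - x 1)) ^ (k+1)) := by
    rw [← neg_pow, ← pow_add]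
    congr 1
    omega
  have hsq : ((-1 : ℂ) ^ k) * (-1) ^ k = 1 := by rw [← mul_pow]; simp
  rw [hpow, mul_assoc, mul_assoc, ← e2, pow_succ (-1 : ℂ) k]
  linear_combination (-(-((1 - x 0) * (1 - x 1))) ^ (n - (k+1)) * (-((1 - x 0) * (1 - x 1)))
    * (SSn (om (x 0) (x 1)) (om (x 0) (x 1)) k (sl (fun _ => 1) k)
      + ∑ j ∈ range p, SSn (om (x 0) (x 1)) (om (x 0) (x 1)) k (sl (dl (j+1)) k))) * hsq

theorem Ehr_disc {n : ℕ} (G : SimpleGraph (Fin (n+1))) (hn : 1 ≤ n) (h : Nbr G n = ∅) :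
    Ehr G = 0 := by
  have h1 := Ehr_eq G
  obtain ⟨m, rfl⟩ : ∃ m, n = m + 1 := ⟨n - 1, by omega⟩
  rw [WW_empty _ _ m _ (by norm_num) h] at h1
  rcases mul_eq_zero.1 h1 with h2 | h2
  · exact absurd h2 (pow_ne_zero _ Mne)
  · exact h2

end Pool.Agent.Helper196Ehr
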